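import Mathlib

/-!
Chebyshev's lower bound for the primorial, with an unspecified constant, and the monotonicity of
`(x - 1) / log x`.
-/

namespace Pool.Agent.H1.BL

noncomputable section

theorem theta_large {y : ℕ} (hy : 10 ^ 8 ≤ y) : (1 / 2 : ℝ) * y ≤ Chebyshev.theta y := by
  have hy' : (10 ^ 8 : ℝ) ≤ y := by exact_mod_cast hy
  have hy0 : (0 : ℝ) < y := by linarith
  obtain ⟨s, hs⟩ : ∃ s : ℝ, s = Real.sqrt y := ⟨_, rfl⟩
  obtain ⟨u, hu⟩ : ∃ u : ℝ, u = Real.sqrt s := ⟨_, rfl⟩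
  have hs0 : 0 ≤ s := hs ▸ Real.sqrt_nonneg _
  have hs2 : s ^ 2 = y := by rw [hs, Real.sq_sqrt hy0.le]
  have hu0 : 0 ≤ u := hu ▸ Real.sqrt_nonneg _
  have hu2 : u ^ 2 = s := by rw [hu, Real.sq_sqrt hs0]
  have hs1 : 10 ^ 4 ≤ s := by
    by_contra h
    push_neg at h
    nlinarith
  have hu1 : 100 ≤ u := by
    by_contra h
    push_neg at h
    nlinarith
  have hlog : Real.log y ≤ 4 * u := by
    have h1 : (y : ℝ) = u ^ 4 := by
      rw [← hs2, ← hu2]
      ring
    rw [h1, Real.log_pow]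
    have := Real.log_le_sub_one_of_pos (show 0 < u by linarith)
    push_cast
    linarith
  have hlog1 : Real.log ((y : ℝ) + 1) ≤ 1 + 4 * u := by
    have h1 : Real.log ((y : ℝ) + 1) ≤ Real.log (2 * y) :=
      Real.log_le_log (by linarith) (by linarith)
    rw [Real.log_mul (by norm_num) hy0.ne'] at h1
    have := Real.log_two_lt_d9
    linarith
  have h2 := Chebyshev.theta_ge y
  rw [← hs] at h2
  have h3 : 2 * s * Real.log y ≤ 8 * (s * u) := by nlinarith
  have h4 : s * u ≤ y / 100 := by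
    rw [← hs2]
    nlinarith
  have h5 : 1 + 4 * u ≤ y / 1000 := by
    rw [← hs2, ← hu2]
    nlinarith [sq_nonneg (u - 100), pow_nonneg hu0 3, mul_nonneg hu0 hu0,
      mul_nonneg (mul_nonneg hu0 hu0) (sub_nonneg.2 hu1),
      mul_nonneg hu0 (sub_nonneg.2 hu1),
      mul_nonneg (mul_nonneg (mul_nonneg hu0 hu0) hu0) (sub_nonneg.2 hu1)]
  have h6 := Real.log_two_gt_d9
  nlinarith

theorem exists_theta : ∃ c : ℝ, 0 < c ∧ c ≤ 1 ∧ ∀ y : ℕ, 2 ≤ y → c * y ≤ Chebyshev.theta y := by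
  refine ⟨1 / (2 * 10 ^ 8), by norm_num, by norm_num, fun y hy => ?_⟩
  rcases le_or_gt (10 ^ 8) y with h | h
  · refine le_trans ?_ (theta_large h)
    have : (0 : ℝ) ≤ y := by positivity
    nlinarith
  · have h1 : Chebyshev.theta (2 : ℕ) ≤ Chebyshev.theta y :=
      Chebyshev.theta_mono (by exact_mod_cast hy)
    have h2 : Chebyshev.theta (2 : ℕ) = Real.log 2 := by
      rw [Chebyshev.theta_eq_log_primorial, Nat.floor_natCast, primorial_two]
      norm_num
    rw [h2] at h1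
    have h3 : (y : ℝ) ≤ 10 ^ 8 := by exact_mod_cast h.le
    have h4 := Real.log_two_gt_d9
    nlinarith

/-- `(x - 1) / log x` is increasing. -/
theorem log_mono {a b : ℝ} (ha : 1 < a) (hab : a ≤ b) :
    (a - 1) * Real.log b ≤ (b - 1) * Real.log a := by
  have hb : 0 < b - 1 := by linarith
  have h1 := strictConcaveOn_log_Ioi.concaveOn.2 (show (1 : ℝ) ∈ Set.Ioi 0 by simp)
    (show b ∈ Set.Ioi (0 : ℝ) by simp only [Set.mem_Ioi]; linarith)
    (show 0 ≤ (b - a) / (b - 1) by apply div_nonneg <;> linarith)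
    (show 0 ≤ (a - 1) / (b - 1) by apply div_nonneg <;> linarith)
    (by field_simp; ring)
  have h2 : (b - a) / (b - 1) * 1 + (a - 1) / (b - 1) * b = a := by
    field_simp
    ring
  simp only [smul_eq_mul, Real.log_one, mul_zero, zero_add] at h1
  rw [h2, div_mul_eq_mul_div, div_le_iff₀ hb] at h1
  linarith

end

end Pool.Agent.H1.BL
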