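import Pool.Agent.H1.BL.Chb

/-!
A sum over the primes up to `y` outside the divisors of `d`, bounded below by `c * y ^ 2 / log y`.
-/

namespace Pool.Agent.H1.BL

open Finset

noncomputable section

/-- The primes up to `y` not dividing `d`. -/
def W (d : ℕ) (y : ℝ) : Finset ℕ := (Ioc 0 ⌊y⌋₊).filter fun q => q.Prime ∧ ¬ q ∣ d

theorem mem_W {d q : ℕ} {y : ℝ} (hy : 0 ≤ y) : q ∈ W d y ↔ q.Prime ∧ ¬ q ∣ d ∧ (q : ℝ) ≤ y := by
  unfold W
  rw [mem_filter, mem_Ioc]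
  constructor
  · rintro ⟨⟨h1, h2⟩, h3, h4⟩
    exact ⟨h3, h4, le_trans (by exact_mod_cast h2) (Nat.floor_le hy)⟩
  · rintro ⟨h1, h2, h3⟩
    exact ⟨⟨h1.pos, Nat.le_floor h3⟩, h1, h2⟩

theorem sum_log_dvd_le {d : ℕ} (hd : 0 < d) (y : ℝ) :
    ∑ q ∈ (Ioc 0 ⌊y⌋₊).filter (fun q => q.Prime ∧ q ∣ d), Real.log q ≤ Real.log d := by
  have h1 : ∏ q ∈ (Ioc 0 ⌊y⌋₊).filter (fun q => q.Prime ∧ q ∣ d), q ∣ d := by
    refine prod_primes_dvd _ (fun q hq => ?_) fun q hq => ?_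
    · exact Nat.prime_iff.1 (mem_filter.1 hq).2.1
    · exact (mem_filter.1 hq).2.2
  have h2 := Nat.le_of_dvd hd h1
  have h3 : ∀ q ∈ (Ioc 0 ⌊y⌋₊).filter (fun q => q.Prime ∧ q ∣ d), (q : ℝ) ≠ 0 := by
    intro q hq
    exact_mod_cast (mem_filter.1 hq).2.1.ne_zero
  rw [← Real.log_prod h3]
  refine Real.log_le_log ?_ ?_
  · exact prod_pos fun q hq => by exact_mod_cast (mem_filter.1 hq).2.1.pos
  · rw [← Nat.cast_prod]
    exact_mod_cast h2

theorem theta_le_W {d : ℕ} (hd : 0 < d) (y : ℝ) :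
    Chebyshev.theta y ≤ ∑ q ∈ W d y, Real.log q + Real.log d := by
  have h1 := sum_log_dvd_le hd y
  have h2 : Chebyshev.theta y = ∑ q ∈ W d y, Real.log q
      + ∑ q ∈ (Ioc 0 ⌊y⌋₊).filter (fun q => q.Prime ∧ q ∣ d), Real.log q := by
    unfold Chebyshev.theta W
    rw [← sum_filter_add_sum_filter_not ((Ioc 0 ⌊y⌋₊).filter fun q => q.Prime) (fun q => ¬ q ∣ d)]
    rw [filter_filter, filter_filter]
    congr 1
    refine sum_congr ?_ fun _ _ => rfl
    ext q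
    simp
  linarith

theorem sum_W_ge {c : ℝ} (hc0 : 0 < c) (hc1 : c ≤ 1)
    (hc : ∀ y : ℝ, 2 ≤ y → c * y ≤ Chebyshev.theta y) {d : ℕ} (hd : 0 < d) {y : ℝ} (hy2 : 2 ≤ y)
    (hy : 2 / c * Real.log d ≤ y) :
    c ^ 2 / 64 * y ^ 2 ≤ Real.log y * ∑ q ∈ W d y, ((q : ℝ) - 1) := by
  have hy0 : 0 < y := by linarith
  obtain ⟨δ, hδ⟩ : ∃ δ : ℝ, δ = c / 8 := ⟨_, rfl⟩
  have hδ0 : 0 < δ := by rw [hδ]; positivity
  have h1 := theta_le_W hd y
  have h2 := hc y hy2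
  have h3 : Real.log d ≤ c * y / 2 := by
    rw [div_mul_eq_mul_div, div_le_iff₀ hc0] at hy
    linarith
  have h4 : c * y / 2 ≤ ∑ q ∈ W d y, Real.log q := by linarith
  have h5 : ∑ q ∈ (W d y).filter (fun q : ℕ => (q : ℝ) ≤ δ * y), Real.log q ≤ c * y / 4 := by
    have h6 : ∑ q ∈ (W d y).filter (fun q : ℕ => (q : ℝ) ≤ δ * y), Real.log q
        ≤ Chebyshev.theta (δ * y) := by
      unfold Chebyshev.theta
      refine sum_le_sum_of_subset_of_nonneg ?_ ?_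
      · intro q hq
        rw [mem_filter, mem_W hy0.le] at hq
        rw [mem_filter, mem_Ioc]
        exact ⟨⟨hq.1.1.pos, Nat.le_floor hq.2⟩, hq.1.1⟩
      · intro q hq _
        exact Real.log_nonneg (by exact_mod_cast (mem_filter.1 hq).2.one_lt.le)
    have h7 := Chebyshev.theta_le_log4_mul_x (show 0 ≤ δ * y by positivity)
    have h8 : Real.log 4 ≤ 2 := by
      rw [show (4 : ℝ) = 2 ^ 2 by norm_num, Real.log_pow]
      have := Real.log_two_lt_d9
      norm_num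
      linarith
    have h9 : Real.log 4 * (δ * y) ≤ 2 * (δ * y) := mul_le_mul_of_nonneg_right h8 (by positivity)
    rw [hδ] at h6 h7 h9 ⊢
    linarith
  obtain ⟨V, hV⟩ : ∃ V : Finset ℕ, V = (W d y).filter (fun q : ℕ => ¬ (q : ℝ) ≤ δ * y) := ⟨_, rfl⟩
  have h6 : c * y / 4 ≤ ∑ q ∈ V, Real.log q := by
    have := sum_filter_add_sum_filter_not (W d y) (fun q : ℕ => (q : ℝ) ≤ δ * y)
      (fun q => Real.log q)
    rw [← hV] at this
    linarith
  have hmem : ∀ q ∈ V, q.Prime ∧ (q : ℝ) ≤ y ∧ δ * y < q := by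
    intro q hq
    rw [hV, mem_filter, mem_W hy0.le] at hq
    exact ⟨hq.1.1, hq.1.2.2, not_le.1 hq.2⟩
  have hly : 0 < Real.log y := Real.log_pos (by linarith)
  have h7 : c * y / 4 ≤ V.card * Real.log y := by
    refine h6.trans ?_
    rw [← nsmul_eq_mul]
    refine sum_le_card_nsmul _ _ _ fun q hq => ?_
    obtain ⟨h8, h9, -⟩ := hmem q hq
    exact Real.log_le_log (by exact_mod_cast h8.pos) h9
  have h8 : V.card * (δ * y / 2) ≤ ∑ q ∈ W d y, ((q : ℝ) - 1) := by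
    have h9 : V.card * (δ * y / 2) ≤ ∑ q ∈ V, ((q : ℝ) - 1) := by
      rw [← nsmul_eq_mul]
      refine card_nsmul_le_sum _ _ _ fun q hq => ?_
      obtain ⟨h10, -, h11⟩ := hmem q hq
      have : (2 : ℝ) ≤ q := by exact_mod_cast h10.two_le
      linarith
    refine h9.trans (sum_le_sum_of_subset_of_nonneg ?_ ?_)
    · rw [hV]
      exact filter_subset _ _
    · intro q hq _
      rw [mem_W hy0.le] at hq
      have : (1 : ℝ) ≤ q := by exact_mod_cast hq.1.one_lt.le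
      linarith
  calc c ^ 2 / 64 * y ^ 2 = (c * y / 4) * (δ * y / 2) := by rw [hδ]; ring
    _ ≤ (V.card * Real.log y) * (δ * y / 2) := mul_le_mul_of_nonneg_right h7 (by positivity)
    _ = Real.log y * (V.card * (δ * y / 2)) := by ring
    _ ≤ Real.log y * ∑ q ∈ W d y, ((q : ℝ) - 1) := mul_le_mul_of_nonneg_left h8 hly.le

theorem real_theta : ∃ c : ℝ, 0 < c ∧ c ≤ 1 ∧ ∀ y : ℝ, 2 ≤ y → c * y ≤ Chebyshev.theta y := by
  obtain ⟨c, hc0, hc1, hc⟩ := exists_theta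
  refine ⟨c / 2, by positivity, by linarith, fun y hy => ?_⟩
  have h1 : 2 ≤ ⌊y⌋₊ := Nat.le_floor (by exact_mod_cast hy)
  have h2 := hc _ h1
  rw [← Chebyshev.theta_eq_theta_coe_floor] at h2
  refine le_trans ?_ h2
  have h3 : y < ⌊y⌋₊ + 1 := Nat.lt_floor_add_one y
  have h4 : y / 2 ≤ ⌊y⌋₊ := by linarith
  nlinarith

theorem sq_le {C : ℝ} (hC : 0 < C) : ∃ B : ℝ, 1 ≤ B ∧ ∀ m y : ℝ, 2 ≤ m → 2 ≤ y →
    y ^ 2 ≤ C * m * Real.log y → y ≤ B * Real.sqrt (m * Real.log m) := by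
  have hl2 := Real.log_two_gt_d9
  obtain ⟨D, hD⟩ : ∃ D : ℝ, D = 2 * |Real.log (2 * C)| + 1 := ⟨_, rfl⟩
  have hD0 : 1 ≤ D := by
    rw [hD]
    linarith [abs_nonneg (Real.log (2 * C))]
  refine ⟨1 + C * D, by nlinarith, fun m y hm hy h => ?_⟩
  obtain ⟨u, hu⟩ : ∃ u : ℝ, u = Real.sqrt y := ⟨_, rfl⟩
  have hu0 : 0 < u := hu ▸ Real.sqrt_pos.2 (by linarith)
  have hu2 : u ^ 2 = y := by rw [hu, Real.sq_sqrt (by linarith)]
  have hm0 : 0 < m := by linarith
  have hlogy : Real.log y = 2 * Real.log u := by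
    rw [← hu2, Real.log_pow]
    norm_num
  have h1 : Real.log y ≤ 2 * u := by
    have := Real.log_le_sub_one_of_pos hu0
    linarith
  have h2 : u ^ 3 ≤ 2 * C * m := by
    have h3 : u * u ^ 3 ≤ u * (2 * C * m) := by
      calc u * u ^ 3 = y ^ 2 := by rw [← hu2]; ring
        _ ≤ C * m * Real.log y := h
        _ ≤ C * m * (2 * u) := mul_le_mul_of_nonneg_left h1 (by positivity)
        _ = u * (2 * C * m) := by ring
    exact le_of_mul_le_mul_left h3 hu0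
  have h3 : 3 * Real.log u ≤ Real.log (2 * C) + Real.log m := by
    rw [← Real.log_mul (by positivity) hm0.ne', ← Nat.cast_ofNat, ← Real.log_pow]
    exact Real.log_le_log (by positivity) h2
  have hlm : Real.log 2 ≤ Real.log m := Real.log_le_log (by norm_num) hm
  have h4 : Real.log y ≤ D * Real.log m := by
    have h5 := le_abs_self (Real.log (2 * C))
    have h6 := abs_nonneg (Real.log (2 * C))
    rw [hD, hlogy]
    nlinarith
  have h5 : y ^ 2 ≤ (1 + C * D) ^ 2 * (m * Real.log m) := by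
    have hmm : 0 ≤ m * Real.log m := mul_nonneg hm0.le (by linarith)
    calc y ^ 2 ≤ C * m * Real.log y := h
      _ ≤ C * m * (D * Real.log m) := mul_le_mul_of_nonneg_left h4 (by positivity)
      _ = (C * D) * (m * Real.log m) := by ring
      _ ≤ (1 + C * D) ^ 2 * (m * Real.log m) := by
          refine mul_le_mul_of_nonneg_right ?_ hmm
          nlinarith [mul_pos hC (lt_of_lt_of_le one_pos hD0)]
  have h6 := Real.sqrt_le_sqrt h5
  rw [Real.sqrt_sq (by linarith), Real.sqrt_mul (by positivity), Real.sqrt_sq (by nlinarith)] at h6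
  exact h6

end

end Pool.Agent.H1.BL
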