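import Pool.Agent.H1.BL.Prd
import Pool.Agent.H1.BL.Chb

/-!
The general inequality: `k * log (t * log N) ≤ C * t * log N * log H`.
-/

namespace Pool.Agent.H1.BL

open Polynomial Finset

noncomputable section

theorem core : ∃ C : ℝ, 0 < C ∧ ∀ l : ℕ, l.Prime → ∀ (p h : ℤ[X]) (H : ℝ) (N t k : ℕ), 2 ≤ H →
    3 ≤ N → ∑ i ∈ p.support, |(p.coeff i : ℝ)| ≤ H → (p * h).natDegree ≤ N →
    (∃ j, ¬ (l : ℤ) ∣ (p * h).coeff j) →
    ((range (N + 1)).filter fun j => ¬ (l : ℤ) ∣ (p * h).coeff j).card ≤ t →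
    (X - 1) ^ k ∣ p →
    (k : ℝ) * Real.log (t * Real.log N) ≤ C * t * Real.log N * Real.log H := by
  obtain ⟨c, hc0, hc1, hc⟩ := exists_theta
  refine ⟨2 / c, by positivity, ?_⟩
  intro l hl p h H N t k hH2 hN hH hdeg hne ht hk
  have hN3 : (3 : ℝ) ≤ N := by exact_mod_cast hN
  have hL : 1 < Real.log N := by
    rw [Real.lt_log_iff_exp_lt (by linarith)]
    linarith [Real.exp_one_lt_d9]
  have hH0 : 0 < Real.log H := Real.log_pos (by linarith)
  have ht1 : 1 ≤ t := by
    obtain ⟨j, hj⟩ := hne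
    refine le_trans (card_pos.2 ⟨j, ?_⟩) ht
    rw [mem_filter, mem_range]
    refine ⟨?_, hj⟩
    by_contra hcc
    exact hj (by rw [coeff_eq_zero_of_natDegree_lt (by omega)]; exact dvd_zero _)
  have ht1' : (1 : ℝ) ≤ t := by exact_mod_cast ht1
  rcases Nat.eq_zero_or_pos k with rfl | hk0
  · simp only [Nat.cast_zero, zero_mul]
    positivity
  obtain ⟨T, hT⟩ : ∃ T : ℝ, T = t * Real.log N / c := ⟨_, rfl⟩
  have hcT : c * T = t * Real.log N := by
    rw [hT]
    field_simp
  have hT0 : t * Real.log N ≤ T := by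
    rw [hT, le_div_iff₀ hc0]
    nlinarith [mul_pos (lt_of_lt_of_le one_pos ht1') (lt_trans one_pos hL)]
  have hTL : 1 < t * Real.log N := by nlinarith
  have hT1 : 1 < T := lt_of_lt_of_le hTL hT0
  have hlog2T : 0 < Real.log (2 * T) := Real.log_pos (by linarith)
  have key : (k : ℝ) * Real.log (2 * T) ≤ (2 * T - 1) * Real.log H := by
    by_contra hcon
    push_neg at hcon
    have hfl : (⌊2 * T⌋₊ : ℝ) ≤ 2 * T := Nat.floor_le (by linarith)
    have hfl2 : 2 * T < ⌊2 * T⌋₊ + 1 := Nat.lt_floor_add_one _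
    have h1 : Real.log (primorial ⌊2 * T⌋₊) ≤ t * Real.log N := by
      refine log_primorial_le hl hk0.ne' hk (by linarith) hH (by omega) hdeg hne ht ?_
      intro q hq hqy
      have hq1 : (1 : ℝ) < q := by exact_mod_cast hq.one_lt
      have hqT : (q : ℝ) ≤ 2 * T := le_trans (by exact_mod_cast hqy) hfl
      have h2 := log_mono hq1 hqT
      have hlq : 0 < Real.log q := Real.log_pos hq1
      have h3 : ((q : ℝ) - 1) * Real.log H * Real.log (2 * T)
          < k * Real.log q * Real.log (2 * T) := by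
        calc ((q : ℝ) - 1) * Real.log H * Real.log (2 * T)
            = (((q : ℝ) - 1) * Real.log (2 * T)) * Real.log H := by ring
          _ ≤ ((2 * T - 1) * Real.log q) * Real.log H :=
              mul_le_mul_of_nonneg_right h2 hH0.le
          _ = ((2 * T - 1) * Real.log H) * Real.log q := by ring
          _ < (k * Real.log (2 * T)) * Real.log q := mul_lt_mul_of_pos_right hcon hlq
          _ = k * Real.log q * Real.log (2 * T) := by ring
      exact lt_of_mul_lt_mul_right h3 hlog2T.le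
    have h2f : 2 ≤ ⌊2 * T⌋₊ := by
      apply Nat.le_floor
      push_cast
      linarith
    have h4 := hc _ h2f
    rw [Chebyshev.theta_eq_log_primorial, Nat.floor_natCast] at h4
    have h5 : c * (⌊2 * T⌋₊ : ℝ) ≤ c * T := by
      rw [hcT]
      exact h4.trans h1
    have h6 : (⌊2 * T⌋₊ : ℝ) ≤ T := le_of_mul_le_mul_left h5 hc0
    linarith
  calc (k : ℝ) * Real.log (t * Real.log N) ≤ k * Real.log (2 * T) := by
        refine mul_le_mul_of_nonneg_left (Real.log_le_log (by linarith) (by linarith))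
          (by positivity)
    _ ≤ (2 * T - 1) * Real.log H := key
    _ ≤ 2 * T * Real.log H := by nlinarith
    _ = 2 / c * t * Real.log N * Real.log H := by
        rw [hT]
        ring

end

end Pool.Agent.H1.BL
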