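import Pool.Agent.H1.BL.Spt

/-!
Polynomials vanishing at `1` to order at least `ε * sqrt n` have at least `c * sqrt n / log n`
blocks.
-/

namespace Pool.Agent.H1.BL

open Polynomial Finset

noncomputable section

theorem log_three : 1 < Real.log 3 := by
  rw [Real.lt_log_iff_exp_lt (by norm_num)]
  linarith [Real.exp_one_lt_d9]

theorem many_blocks {C ε : ℝ} (hC : 0 < C) (hε : 0 < ε) : ∃ c : ℝ, 0 < c ∧ ∀ (n r : ℕ) (k : ℝ),
    3 ≤ n → 1 ≤ r → ε * Real.sqrt n ≤ k →
    k * Real.log (r * Real.log n) ≤ C * r * Real.log n ^ 2 →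
    c * Real.sqrt n / Real.log n ≤ r := by
  obtain ⟨lam, hlam⟩ : ∃ lam : ℝ, lam = Real.log (Real.log 3) := ⟨_, rfl⟩
  have hlam0 : 0 < lam := hlam ▸ Real.log_pos log_three
  obtain ⟨B, hB⟩ : ∃ B : ℝ, B = 256 * C / (ε * lam) := ⟨_, rfl⟩
  have hB0 : 0 < B := by rw [hB]; positivity
  refine ⟨min (ε / (4 * C)) (1 / B ^ 4), lt_min (by positivity) (by positivity), ?_⟩
  intro n r k hn hr hk h
  have hn3 : (3 : ℝ) ≤ n := by exact_mod_cast hn
  have hr1 : (1 : ℝ) ≤ r := by exact_mod_cast hr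
  have hL3 : Real.log 3 ≤ Real.log n := Real.log_le_log (by norm_num) hn3
  have hL : 1 < Real.log n := lt_of_lt_of_le log_three hL3
  obtain ⟨L, hLd⟩ : ∃ L : ℝ, L = Real.log n := ⟨_, rfl⟩
  obtain ⟨s, hs⟩ : ∃ s : ℝ, s = Real.sqrt n := ⟨_, rfl⟩
  obtain ⟨v, hv⟩ : ∃ v : ℝ, v = Real.sqrt s := ⟨_, rfl⟩
  obtain ⟨w, hw⟩ : ∃ w : ℝ, w = Real.sqrt v := ⟨_, rfl⟩
  obtain ⟨x, hx⟩ : ∃ x : ℝ, x = Real.sqrt w := ⟨_, rfl⟩
  have hs0 : 0 < s := hs ▸ Real.sqrt_pos.2 (by linarith)
  have hv0 : 0 < v := hv ▸ Real.sqrt_pos.2 hs0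
  have hw0 : 0 < w := hw ▸ Real.sqrt_pos.2 hv0
  have hx0 : 0 < x := hx ▸ Real.sqrt_pos.2 hw0
  have hs2 : s ^ 2 = n := by rw [hs, Real.sq_sqrt (by linarith)]
  have hv2 : v ^ 2 = s := by rw [hv, Real.sq_sqrt hs0.le]
  have hw2 : w ^ 2 = v := by rw [hw, Real.sq_sqrt hv0.le]
  have hx2 : x ^ 2 = w := by rw [hx, Real.sq_sqrt hw0.le]
  have hL1 : 1 < L := by rw [hLd]; exact hL
  have hLx : L = 16 * Real.log x := by
    rw [hLd, show (n : ℝ) = x ^ 16 by rw [← hs2, ← hv2, ← hw2, ← hx2]; ring, Real.log_pow]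
    norm_num
  have hLv : L = 4 * Real.log v := by
    rw [hLd, show (n : ℝ) = v ^ 4 by rw [← hs2, ← hv2]; ring, Real.log_pow]
    norm_num
  have hLw : L ^ 2 ≤ 256 * w := by
    have h1 := Real.log_le_sub_one_of_pos hx0
    have h2 : L ≤ 16 * x := by linarith
    rw [← hx2]
    nlinarith
  rw [← hLd] at h ⊢
  rw [← hs] at hk ⊢
  have hrL : Real.log 3 ≤ r * L := by
    have := log_three
    nlinarith
  have hk0 : 0 < k := lt_of_lt_of_le (by positivity) hk
  rcases le_or_gt v r with hvr | hvr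
  · have h1 : L / 4 ≤ Real.log (r * L) := by
      rw [hLv, mul_div_cancel_left₀ _ (by norm_num)]
      exact Real.log_le_log hv0 (by nlinarith)
    have h2 : ε * s * (L / 4) ≤ C * r * L ^ 2 :=
      le_trans (mul_le_mul hk h1 (by linarith) hk0.le) h
    have h3 : ε * s ≤ 4 * C * r * L := by
      have h4 : (ε * s) * L ≤ (4 * C * r * L) * L := by nlinarith
      exact le_of_mul_le_mul_right h4 (by linarith)
    calc min (ε / (4 * C)) (1 / B ^ 4) * s / L ≤ ε / (4 * C) * s / L := by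
          gcongr
          exact min_le_left _ _
      _ ≤ r := by
          rw [div_le_iff₀ (by linarith), div_mul_eq_mul_div, div_le_iff₀ (by positivity)]
          linarith
  · have h1 : lam ≤ Real.log (r * L) := by
      rw [hlam]
      exact Real.log_le_log (by linarith [log_three]) hrL
    have h2 : ε * s * lam ≤ C * r * L ^ 2 :=
      le_trans (mul_le_mul hk h1 hlam0.le hk0.le) h
    have h3 : ε * s * lam ≤ C * v * (256 * w) := by
      refine h2.trans ?_
      have h4 : C * r ≤ C * v := by nlinarith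
      exact mul_le_mul h4 hLw (by positivity) (by positivity)
    have hwB : w ≤ B := by
      rw [hB, le_div_iff₀ (by positivity)]
      have h5 : (v * w) * (w * (ε * lam)) ≤ (v * w) * (256 * C) := by
        have h6 : ε * s * lam = (v * w) * (w * (ε * lam)) := by
          rw [← hv2, ← hw2]
          ring
        have h7 : C * v * (256 * w) = (v * w) * (256 * C) := by ring
        rw [← h6, ← h7]
        exact h3
      exact le_of_mul_le_mul_left h5 (by positivity)
    have hsB : s ≤ B ^ 4 := by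
      rw [← hv2, ← hw2, show (w ^ 2) ^ 2 = w ^ 4 by ring]
      exact pow_le_pow_left₀ hw0.le hwB 4
    calc min (ε / (4 * C)) (1 / B ^ 4) * s / L ≤ 1 / B ^ 4 * s / L := by
          gcongr
          exact min_le_right _ _
      _ ≤ 1 := by
          rw [div_le_iff₀ (by linarith), div_mul_eq_mul_div, div_le_iff₀ (by positivity)]
          nlinarith [pow_pos hB0 4]
      _ ≤ r := hr1

end

end Pool.Agent.H1.BL
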