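import Pool.Agent.H1.BL.Prs
import Pool.Agent.H1.BL.Fin

/-!
Polynomials with a product support vanishing at `1` to order at least `ε * sqrt n`.
-/

namespace Pool.Agent.H1.BL

open Polynomial Finset

noncomputable section

theorem bounded {δ : ℝ} (hδ : 0 < δ) : ∃ B : ℝ, 1 ≤ B ∧ ∀ n : ℕ, 3 ≤ n →
    δ * Real.sqrt n ≤ Real.log n ^ 2 → Real.sqrt n ≤ B := by
  obtain ⟨D, hD⟩ : ∃ D : ℝ, D = 1 + 256 / δ := ⟨_, rfl⟩
  have hD1 : 1 ≤ D := by
    rw [hD]
    have : 0 < 256 / δ := by positivity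
    linarith
  refine ⟨D ^ 4, one_le_pow₀ hD1, fun n hn h => ?_⟩
  have hn3 : (3 : ℝ) ≤ n := by exact_mod_cast hn
  obtain ⟨L, hLd⟩ : ∃ L : ℝ, L = Real.log n := ⟨_, rfl⟩
  obtain ⟨s, hs⟩ : ∃ s : ℝ, s = Real.sqrt n := ⟨_, rfl⟩
  obtain ⟨v, hv⟩ : ∃ v : ℝ, v = Real.sqrt s := ⟨_, rfl⟩
  obtain ⟨w, hw⟩ : ∃ w : ℝ, w = Real.sqrt v := ⟨_, rfl⟩
  obtain ⟨x, hx⟩ : ∃ x : ℝ, x = Real.sqrt w := ⟨_, rfl⟩
  have hs0 : 0 < s := hs ▸ Real.sqrt_pos.2 (by linarith)
  have hv0 : 0 < v := hv ▸ Real.sqrt_pos.2 hs0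
  have hw0 : 0 < w := hw ▸ Real.sqrt_pos.2 hv0
  have hx0 : 0 < x := hx ▸ Real.sqrt_pos.2 hw0
  have hs2 : s ^ 2 = n := by rw [hs, Real.sq_sqrt (by linarith)]
  have hv2 : v ^ 2 = s := by rw [hv, Real.sq_sqrt hs0.le]
  have hw2 : w ^ 2 = v := by rw [hw, Real.sq_sqrt hv0.le]
  have hx2 : x ^ 2 = w := by rw [hx, Real.sq_sqrt hw0.le]
  have hL1 : 1 < L := by
    rw [hLd]
    exact lt_of_lt_of_le log_three (Real.log_le_log (by norm_num) hn3)
  have hLx : L = 16 * Real.log x := by
    rw [hLd, show (n : ℝ) = x ^ 16 by rw [← hs2, ← hv2, ← hw2, ← hx2]; ring, Real.log_pow]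
    norm_num
  have hLw : L ^ 2 ≤ 256 * w := by
    have h1 := Real.log_le_sub_one_of_pos hx0
    have h2 : L ≤ 16 * x := by linarith
    rw [← hx2]
    nlinarith
  rw [← hLd, ← hs] at h
  rw [← hs]
  have h1 : w ^ 3 ≤ 256 / δ := by
    rw [le_div_iff₀ hδ]
    have h2 : w * (w ^ 3 * δ) ≤ w * 256 := by
      calc w * (w ^ 3 * δ) = δ * s := by rw [← hv2, ← hw2]; ring
        _ ≤ L ^ 2 := h
        _ ≤ 256 * w := hLw
        _ = w * 256 := by ring
    exact le_of_mul_le_mul_left h2 hw0
  have hwD : w ≤ D := by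
    rcases le_or_gt w 1 with h2 | h2
    · exact h2.trans hD1
    · have h3 : w ≤ w ^ 3 := by nlinarith [mul_pos hw0 hw0]
      rw [hD]
      linarith
  rw [← hv2, ← hw2, show (w ^ 2) ^ 2 = w ^ 4 by ring]
  exact pow_le_pow_left₀ hw0.le hwD 4

theorem extremal {ε : ℝ} (hε : 0 < ε) : ∃ c C : ℝ, 0 < c ∧ 0 < C ∧
    ∀ (n L d r : ℕ) (A B : Finset ℕ) (p : ℤ[X]), 3 ≤ n → 1 ≤ d → d ≤ L → L ≤ n + 1 →
    p ≠ 0 → p.natDegree ≤ n → (∀ i, p.coeff i = -1 ∨ p.coeff i = 0 ∨ p.coeff i = 1) →
    (∀ b ∈ B, b < L) → (∀ j, p.coeff j ≠ 0 ↔ j / L ∈ A ∧ j % L ∈ B) →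
    (B.filter fun b => b < d ∨ b - d ∉ B).card ≤ r →
    ε * Real.sqrt n ≤ p.rootMultiplicity 1 →
    c * Real.sqrt n / Real.log n ≤ r ∨ (L : ℝ) ≤ C * r * Real.log n := by
  obtain ⟨C, hC, hmain⟩ := prs_core
  obtain ⟨c1, hc1, hmb⟩ := many_blocks (C := 4 * C) (ε := ε / 2) (by positivity) (by positivity)
  obtain ⟨e, he⟩ : ∃ e : ℝ, e = ε / (4 * C) := ⟨_, rfl⟩
  have he0 : 0 < e := by rw [he]; positivity
  obtain ⟨D, hD1, hbd⟩ := bounded (δ := e ^ 2 * Real.log 2)
    (mul_pos (pow_pos he0 2) (Real.log_pos (by norm_num)))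
  refine ⟨min c1 (1 / D), 8 / e ^ 2, lt_min hc1 (by positivity), by positivity, ?_⟩
  intro n L d r A B p hn hd hdL hLn hp hdeg hco hB hsup hr hk
  have hL : 0 < L := by omega
  have hn3 : (3 : ℝ) ≤ n := by exact_mod_cast hn
  have hln1 : 1 < Real.log n := lt_of_lt_of_le log_three (Real.log_le_log (by norm_num) hn3)
  have hLr : (0 : ℝ) < L := by exact_mod_cast hL
  have hBne : B.Nonempty := by
    obtain ⟨j, hj⟩ := support_nonempty.2 hp
    exact ⟨j % L, ((hsup j).1 (mem_support_iff.1 hj)).2⟩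
  have hr1 : 1 ≤ r := by
    refine le_trans (card_pos.2 ⟨B.min' hBne, ?_⟩) hr
    rw [mem_filter]
    refine ⟨min'_mem _ _, ?_⟩
    by_contra hcon
    push_neg at hcon
    have := min'_le B _ hcon.2
    omega
  have hr1' : (1 : ℝ) ≤ r := by exact_mod_cast hr1
  obtain ⟨M, hM⟩ : ∃ M, M = n / L + 1 := ⟨_, rfl⟩
  have hA : ∀ a ∈ A, a < M := by
    intro a ha
    obtain ⟨b, hb⟩ := hBne
    have hbL := hB b hb
    have h1 : p.coeff (a * L + b) ≠ 0 := by
      rw [hsup]
      rw [mul_comm, Nat.mul_add_div hL, Nat.div_eq_of_lt hbL, add_zero, Nat.mul_add_mod,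
        Nat.mod_eq_of_lt hbL]
      exact ⟨ha, hb⟩
    have h2 : a * L + b ≤ n := (le_natDegree_of_ne_zero h1).trans hdeg
    have h3 : a ≤ n / L := (Nat.le_div_iff_mul_le hL).2 (by omega)
    omega
  have hML : n < M * L := by
    rw [hM]
    have := Nat.lt_div_mul_add hL (a := n)
    rw [add_mul, one_mul]
    exact this
  have hML2 : M * L ≤ n + L := by
    rw [hM, add_mul, one_mul]
    exact Nat.add_le_add_right (Nat.div_mul_le_self n L) L
  have hMLr : (n : ℝ) < ((M * L : ℕ) : ℝ) := by exact_mod_cast hML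
  have hMLr2 : ((M * L : ℕ) : ℝ) ≤ 2 * n + 1 := by
    have : M * L ≤ 2 * n + 1 := by omega
    exact_mod_cast this
  have h1 := hmain L M d r A B p hd hdL (by omega) hp hco hA hB hsup hr
  obtain ⟨Y, hY⟩ : ∃ Y : ℝ, Y = Real.log ((M * L : ℕ) : ℝ) := ⟨_, rfl⟩
  have hY1 : Real.log n ≤ Y := by
    rw [hY]
    exact Real.log_le_log (by linarith) hMLr.le
  have hY2 : Y ≤ 2 * Real.log n := by
    rw [hY, show (2 : ℝ) * Real.log n = Real.log ((n : ℝ) ^ 2) by rw [Real.log_pow]; norm_num]
    refine Real.log_le_log (by linarith) (hMLr2.trans ?_)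
    nlinarith
  rw [← hY] at h1
  obtain ⟨R, hR⟩ : ∃ R : ℝ, R = (r : ℝ) * (M + 1) := ⟨_, rfl⟩
  have hM1 : (1 : ℝ) ≤ M := by
    have : 1 ≤ M := by
      rw [hM]
      exact Nat.le_add_left 1 _
    exact_mod_cast this
  have hR2 : 2 ≤ R := by
    rw [hR]
    nlinarith
  have hlR : 0 < Real.log R := Real.log_pos (by linarith)
  rw [← hR] at h1
  have hu1 : 1 < r * Real.log n := by nlinarith
  have hlu : 0 < Real.log (r * Real.log n) := Real.log_pos hu1
  have h2 : r * Y / Real.log (r * Y) ≤ 2 * (r * Real.log n / Real.log (r * Real.log n)) := by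
    have h3 : Real.log (r * Real.log n) ≤ Real.log (r * Y) :=
      Real.log_le_log (by linarith) (mul_le_mul_of_nonneg_left hY1 (by linarith))
    calc r * Y / Real.log (r * Y) ≤ r * Y / Real.log (r * Real.log n) := by
          refine div_le_div_of_nonneg_left ?_ hlu h3
          exact mul_nonneg (by linarith) (by linarith)
      _ ≤ (2 * (r * Real.log n)) / Real.log (r * Real.log n) := by
          refine div_le_div_of_nonneg_right ?_ hlu.le
          nlinarith
      _ = 2 * (r * Real.log n / Real.log (r * Real.log n)) := by ring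
  have hs0 : 0 ≤ Real.sqrt (R / Real.log R) := Real.sqrt_nonneg _
  have h3 : (p.rootMultiplicity 1 : ℝ) ≤ 2 * C * Real.log n * Real.sqrt (R / Real.log R)
      + 4 * C * (r * Real.log n ^ 2) / Real.log (r * Real.log n) := by
    have h4 : 0 ≤ r * Real.log n / Real.log (r * Real.log n) :=
      div_nonneg (by linarith) hlu.le
    calc (p.rootMultiplicity 1 : ℝ)
        ≤ C * Y * (Real.sqrt (R / Real.log R) + r * Y / Real.log (r * Y)) := h1
      _ ≤ C * (2 * Real.log n) * (Real.sqrt (R / Real.log R)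
          + 2 * (r * Real.log n / Real.log (r * Real.log n))) := by
          have h5 : 0 ≤ r * Y / Real.log (r * Y) := by
            refine div_nonneg (mul_nonneg (by linarith) (by linarith)) ?_
            exact Real.log_nonneg (by nlinarith)
          refine mul_le_mul ?_ (by linarith) (by linarith) (by positivity)
          exact mul_le_mul_of_nonneg_left hY2 hC.le
      _ = 2 * C * Real.log n * Real.sqrt (R / Real.log R)
          + 4 * C * (r * Real.log n ^ 2) / Real.log (r * Real.log n) := by ring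
  have hsn : 0 < Real.sqrt n := Real.sqrt_pos.2 (by linarith)
  rcases le_or_gt (ε / 2 * Real.sqrt n)
      (4 * C * (r * Real.log n ^ 2) / Real.log (r * Real.log n)) with h4 | h4
  · left
    rw [le_div_iff₀ hlu] at h4
    have h5 := hmb n r (ε / 2 * Real.sqrt n) hn hr1 le_rfl (by linarith)
    refine le_trans ?_ h5
    gcongr
    exact min_le_left _ _
  · have h5 : e * Real.sqrt n ≤ Real.log n * Real.sqrt (R / Real.log R) := by
      have h6 : ε / 2 * Real.sqrt n ≤ 2 * C * Real.log n * Real.sqrt (R / Real.log R) := by linarith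
      rw [he, div_mul_eq_mul_div, div_le_iff₀ (by positivity)]
      linarith
    have h6 : e ^ 2 * n ≤ Real.log n ^ 2 * (R / Real.log R) := by
      have h7 := pow_le_pow_left₀ (by positivity) h5 2
      rw [mul_pow, mul_pow, Real.sq_sqrt (by linarith), Real.sq_sqrt (by positivity)] at h7
      exact h7
    rcases le_or_gt (Real.sqrt n) R with h7 | h7
    · right
      have h8 : Real.log n / 2 ≤ Real.log R := by
        rw [← Real.log_sqrt (by linarith)]
        exact Real.log_le_log hsn h7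
      have h9 : e ^ 2 * n ≤ 2 * Real.log n * R := by
        refine h6.trans ?_
        rw [← mul_div_assoc, div_le_iff₀ hlR]
        have h10 : Real.log n * (2 * R * (Real.log n / 2)) ≤ Real.log n * (2 * R * Real.log R) :=
          mul_le_mul_of_nonneg_left (mul_le_mul_of_nonneg_left h8 (by linarith)) (by linarith)
        nlinarith
      have h10 : (M : ℝ) + 1 ≤ 4 * n / L := by
        have h11 : (M : ℝ) ≤ n / L + 1 := by
          rw [hM]
          push_cast
          have := @Nat.cast_div_le ℝ _ _ _ n L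
          linarith
        have h12 : (3 : ℝ) / 4 ≤ n / L := by
          rw [le_div_iff₀ hLr]
          have h13 : (L : ℝ) ≤ n + 1 := by exact_mod_cast hLn
          linarith
        rw [mul_div_assoc]
        linarith
      have h11 : e ^ 2 * n ≤ 2 * Real.log n * (r * (4 * n / L)) := by
        refine h9.trans ?_
        rw [hR]
        refine mul_le_mul_of_nonneg_left ?_ (by linarith)
        exact mul_le_mul_of_nonneg_left h10 (by linarith)
      rw [div_mul_eq_mul_div, div_mul_eq_mul_div, le_div_iff₀ (by positivity)]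
      have h12 : e ^ 2 * n * L ≤ 8 * r * Real.log n * n := by
        have h13 := mul_le_mul_of_nonneg_right h11 hLr.le
        have h14 : 2 * Real.log n * (r * (4 * n / L)) * L = 8 * r * Real.log n * n := by
          field_simp
          ring
        rw [h14] at h13
        exact h13
      have h13 : n * (L * e ^ 2) ≤ n * (8 * r * Real.log n) := by linarith
      exact le_of_mul_le_mul_left h13 (by linarith)
    · left
      have hl2 : Real.log 2 ≤ Real.log R := Real.log_le_log (by norm_num) hR2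
      have hl20 : 0 < Real.log 2 := Real.log_pos (by norm_num)
      have h8 : R / Real.log R ≤ Real.sqrt n / Real.log 2 :=
        div_le_div₀ hsn.le h7.le hl20 hl2
      have h9 : e ^ 2 * Real.log 2 * Real.sqrt n ≤ Real.log n ^ 2 := by
        have h10 : e ^ 2 * n ≤ Real.log n ^ 2 * (Real.sqrt n / Real.log 2) :=
          h6.trans (mul_le_mul_of_nonneg_left h8 (by positivity))
        rw [← mul_div_assoc, le_div_iff₀ hl20] at h10
        have h11 : (n : ℝ) = Real.sqrt n * Real.sqrt n := (Real.mul_self_sqrt (by linarith)).symm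
        have h12 : Real.sqrt n * (e ^ 2 * Real.log 2 * Real.sqrt n)
            ≤ Real.sqrt n * Real.log n ^ 2 := by
          calc Real.sqrt n * (e ^ 2 * Real.log 2 * Real.sqrt n)
              = e ^ 2 * (Real.sqrt n * Real.sqrt n) * Real.log 2 := by ring
            _ = e ^ 2 * n * Real.log 2 := by rw [← h11]
            _ ≤ Real.log n ^ 2 * Real.sqrt n := h10
            _ = Real.sqrt n * Real.log n ^ 2 := by ring
        exact le_of_mul_le_mul_left h12 hsn
      have h10 := hbd n hn h9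
      have hD0 : 0 < D := by linarith
      calc min c1 (1 / D) * Real.sqrt n / Real.log n ≤ 1 / D * Real.sqrt n / Real.log n := by
            gcongr
            exact min_le_right _ _
        _ ≤ 1 := by
            rw [div_le_iff₀ (by linarith), div_mul_eq_mul_div, div_le_iff₀ hD0]
            nlinarith
        _ ≤ r := hr1'

end

end Pool.Agent.H1.BL
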