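import Pool.Agent.H1.BL.Uni

/-!
The final optimisation, and the theorem for exponents in two residue classes modulo `L`.
-/

namespace Pool.Agent.H1.BL

open Polynomial Finset

noncomputable section

theorem finish : ∃ C : ℝ, 0 < C ∧ ∀ (H : ℝ) (k : ℕ) (m' Λ : ℝ), 2 ≤ H → 2 ≤ m' → 1 < Λ →
    (∀ y : ℝ, 2 ≤ y → (∀ q : ℕ, q.Prime → (q : ℝ) ≤ y →
        ((q : ℝ) - 1) * Real.log H < k * Real.log q) →
      ∃ V : Finset ℕ, (∀ q ∈ V, q.Prime ∧ (q : ℝ) ≤ y) ∧ ∑ q ∈ V, (q : ℝ) ≤ 2 * m' ∧
        Chebyshev.theta y ≤ ∑ q ∈ V, Real.log q + 7 * Λ) →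
    (k : ℝ) ≤ C * Real.log H * (Real.sqrt (m' / Real.log m') + Λ / Real.log Λ) := by
  obtain ⟨c, hc0, hc1, hc⟩ := real_theta
  obtain ⟨D, hD1, hD⟩ := sq_le (show (0 : ℝ) < 128 / c ^ 2 by positivity)
  refine ⟨4 * D + 28 / c, by positivity, ?_⟩
  intro H k m' Λ hH2 hm2' hΛ1 hstep
  have hH0 : 0 < Real.log H := Real.log_pos (by linarith)
  have hl2' := Real.log_two_gt_d9
  have hRR : 0 < Real.log Λ := Real.log_pos hΛ1
  have hlm : 0 < Real.log m' := Real.log_pos (by linarith)
  obtain ⟨A, hA⟩ : ∃ A : ℝ, A = 14 / c * Λ := ⟨_, rfl⟩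
  obtain ⟨B, hB⟩ : ∃ B : ℝ, B = D * Real.sqrt (m' * Real.log m') := ⟨_, rfl⟩
  have hc2 : 14 ≤ 14 / c := by
    rw [le_div_iff₀ hc0]
    linarith
  have hA2 : 14 * Λ ≤ A := by
    rw [hA]
    exact mul_le_mul_of_nonneg_right hc2 (by linarith)
  have fail : ∀ y : ℝ, A ≤ y → B < y → (k : ℝ) * Real.log y ≤ y * Real.log H := by
    intro y hAy hBy
    have hy2 : 2 ≤ y := by linarith
    have hly : 0 < Real.log y := Real.log_pos (by linarith)
    by_contra hcon'
    push_neg at hcon'
    have hforced : ∀ q : ℕ, q.Prime → (q : ℝ) ≤ y →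
        ((q : ℝ) - 1) * Real.log H < k * Real.log q := by
      intro q hq hqy
      have hq1 : (1 : ℝ) < q := by exact_mod_cast hq.one_lt
      have hlq : 0 < Real.log q := Real.log_pos hq1
      have h2 := log_mono hq1 hqy
      have h3 : ((q : ℝ) - 1) * Real.log H * Real.log y < k * Real.log q * Real.log y := by
        calc ((q : ℝ) - 1) * Real.log H * Real.log y
            = (((q : ℝ) - 1) * Real.log y) * Real.log H := by ring
          _ ≤ ((y - 1) * Real.log q) * Real.log H := mul_le_mul_of_nonneg_right h2 hH0.le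
          _ ≤ (y * Real.log q) * Real.log H := by
              refine mul_le_mul_of_nonneg_right ?_ hH0.le
              exact mul_le_mul_of_nonneg_right (by linarith) hlq.le
          _ = (y * Real.log H) * Real.log q := by ring
          _ < (k * Real.log y) * Real.log q := mul_lt_mul_of_pos_right hcon' hlq
          _ = k * Real.log q * Real.log y := by ring
      exact lt_of_mul_lt_mul_right h3 hly.le
    obtain ⟨V, hV, hV1, hV2⟩ := hstep y hy2 hforced
    have h1 := hc y hy2
    have h3 : 7 * Λ ≤ c * y / 2 := by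
      have h4 : 14 * Λ ≤ c * y := by
        rw [hA, div_mul_eq_mul_div, div_le_iff₀ hc0] at hAy
        linarith
      linarith
    have h5 : c * y / 2 ≤ ∑ q ∈ V, Real.log q := by linarith
    have h6 := sum_V_ge hc0 hy2 hV h5
    have h12 : y ^ 2 ≤ 128 / c ^ 2 * m' * Real.log y := by
      have h13 : c ^ 2 / 64 * y ^ 2 ≤ Real.log y * (2 * m') :=
        h6.trans (mul_le_mul_of_nonneg_left hV1 hly.le)
      calc y ^ 2 = 64 / c ^ 2 * (c ^ 2 / 64 * y ^ 2) := by field_simp
        _ ≤ 64 / c ^ 2 * (Real.log y * (2 * m')) := mul_le_mul_of_nonneg_left h13 (by positivity)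
        _ = 128 / c ^ 2 * m' * Real.log y := by ring
    have h14 := hD m' y hm2' hy2 h12
    rw [← hB] at h14
    linarith
  have hBm : Real.sqrt m' ≤ 2 * B := by
    rw [hB]
    have h1 : Real.sqrt m' ≤ 2 * Real.sqrt (m' * Real.log m') := by
      rw [show (2 : ℝ) = Real.sqrt (2 ^ 2) by rw [Real.sqrt_sq (by norm_num)],
        ← Real.sqrt_mul (by norm_num)]
      refine Real.sqrt_le_sqrt ?_
      have h3 : Real.log 2 ≤ Real.log m' := Real.log_le_log (by norm_num) hm2'
      nlinarith
    have h2 : 0 ≤ Real.sqrt (m' * Real.log m') := Real.sqrt_nonneg _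
    nlinarith
  have hsqm : 0 < Real.sqrt m' := Real.sqrt_pos.2 (by linarith)
  have hs0 : 0 ≤ Real.sqrt (m' / Real.log m') := Real.sqrt_nonneg _
  rcases le_or_gt B A with hBA | hAB
  · have h1 := fail (2 * A) (by linarith) (by linarith)
    have h2 : Real.log Λ ≤ Real.log (2 * A) := Real.log_le_log (by linarith) (by linarith)
    have h3 : (k : ℝ) * Real.log Λ ≤ 2 * A * Real.log H :=
      (mul_le_mul_of_nonneg_left h2 (by positivity)).trans h1
    have h4 : (k : ℝ) ≤ 2 * A * Real.log H / Real.log Λ := by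
      rw [le_div_iff₀ hRR]
      exact h3
    have h5 : 0 ≤ Λ / Real.log Λ := div_nonneg (by linarith) hRR.le
    calc (k : ℝ) ≤ 2 * A * Real.log H / Real.log Λ := h4
      _ = (28 / c) * Real.log H * (Λ / Real.log Λ) := by
          rw [hA]
          ring
      _ ≤ (4 * D + 28 / c) * Real.log H * (Real.sqrt (m' / Real.log m') + Λ / Real.log Λ) := by
          have h6 : (28 / c) * Real.log H ≤ (4 * D + 28 / c) * Real.log H :=
            mul_le_mul_of_nonneg_right (by linarith) hH0.le
          exact mul_le_mul h6 (by linarith) h5 (by positivity)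
  · have hB0 : 0 < B := by linarith
    have h1 := fail (2 * B) (by linarith) (by linarith)
    have h2 : Real.log m' / 2 ≤ Real.log (2 * B) := by
      rw [← Real.log_sqrt (by linarith)]
      exact Real.log_le_log hsqm hBm
    have h3 : (k : ℝ) * (Real.log m' / 2) ≤ 2 * B * Real.log H :=
      (mul_le_mul_of_nonneg_left h2 (by positivity)).trans h1
    have h4 : (k : ℝ) ≤ 4 * B * Real.log H / Real.log m' := by
      rw [le_div_iff₀ hlm]
      linarith
    have h5 : Real.sqrt (m' * Real.log m') / Real.log m' = Real.sqrt (m' / Real.log m') := by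
      rw [Real.sqrt_mul (by linarith), Real.sqrt_div (by linarith), mul_div_assoc]
      rw [Real.sqrt_div_self', mul_one_div]
    calc (k : ℝ) ≤ 4 * B * Real.log H / Real.log m' := h4
      _ = (4 * D) * Real.log H * (Real.sqrt (m' * Real.log m') / Real.log m') := by
          rw [hB]
          ring
      _ = (4 * D) * Real.log H * Real.sqrt (m' / Real.log m') := by rw [h5]
      _ ≤ (4 * D + 28 / c) * Real.log H * (Real.sqrt (m' / Real.log m') + Λ / Real.log Λ) := by
          have h6 : 0 ≤ Λ / Real.log Λ := div_nonneg (by linarith) hRR.le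
          have h7 : (4 * D) * Real.log H ≤ (4 * D + 28 / c) * Real.log H := by
            refine mul_le_mul_of_nonneg_right ?_ hH0.le
            have : 0 < 28 / c := by positivity
            linarith
          exact mul_le_mul h7 (by linarith) hs0 (by positivity)

end

end Pool.Agent.H1.BL
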