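import Pool.Agent.H35.V1.CycNorm

/-!
Forced divisors: an integer polynomial of small length divisible by a high power of `X - 1` is
divisible by `X ^ q - 1` for many primes `q`.
-/

namespace Pool.Agent.H1.BL

open Polynomial Finset
open Pool.Agent.H35.V1 (Nm)

noncomputable section

theorem norm_aeval_le {z : ℂ} (hz : ‖z‖ = 1) (p : ℤ[X]) :
    ‖aeval z p‖ ≤ ∑ i ∈ p.support, |(p.coeff i : ℝ)| := by
  rw [aeval_eq_sum_range' (n := p.natDegree + 1) (Nat.lt_succ_self _)]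
  refine (norm_sum_le _ _).trans ?_
  have h1 : ∀ i ∈ range (p.natDegree + 1), ‖p.coeff i • z ^ i‖ = |(p.coeff i : ℝ)| := by
    intro i _
    rw [zsmul_eq_mul, norm_mul, norm_pow, hz, one_pow, mul_one, Complex.norm_intCast]
  rw [sum_congr rfl h1]
  refine le_of_eq (sum_subset (fun i hi => ?_) fun i _ hi => ?_).symm
  · exact mem_range.2 (Nat.lt_succ_of_le (le_natDegree_of_mem_supp i hi))
  · rw [notMem_support_iff.1 hi]
    simp

theorem Nm_le {q : ℕ} (hq : 0 < q) (p : ℤ[X]) {H : ℝ}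
    (hH : ∑ i ∈ p.support, |(p.coeff i : ℝ)| ≤ H) : Nm q p ≤ H ^ q.totient := by
  unfold Pool.Agent.H35.V1.Nm
  refine (prod_le_prod (fun _ _ => norm_nonneg _) (g := fun _ => H) fun z hz => ?_).trans ?_
  · exact (norm_aeval_le (Pool.Agent.H35.V1.norm_prim hq hz) p).trans hH
  · rw [prod_const, Complex.card_primitiveRoots]

theorem Nm_X_sub_one {q : ℕ} (hq : q.Prime) : Nm q (X - 1) = q := by
  have hz : IsPrimitiveRoot (Complex.exp (2 * Real.pi * Complex.I / q)) q :=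
    Complex.isPrimitiveRoot_exp q hq.ne_zero
  have h1 := congrArg (eval (1 : ℂ)) (cyclotomic_eq_prod_X_sub_primitiveRoots hz)
  haveI : Fact q.Prime := ⟨hq⟩
  rw [eval_one_cyclotomic_prime, eval_prod] at h1
  have h2 : ‖((q : ℕ) : ℂ)‖ = ∏ z ∈ primitiveRoots q ℂ, ‖(1 : ℂ) - z‖ := by
    rw [h1, norm_prod]
    simp
  rw [Complex.norm_natCast] at h2
  rw [h2]
  unfold Pool.Agent.H35.V1.Nm
  refine prod_congr rfl fun z _ => ?_
  rw [map_sub, aeval_X, map_one, norm_sub_rev]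

theorem cyc_dvd {q : ℕ} (hq : q.Prime) {p : ℤ[X]} {k : ℕ} (hk : (X - 1) ^ k ∣ p) {H : ℝ}
    (hH : ∑ i ∈ p.support, |(p.coeff i : ℝ)| ≤ H) (hlt : H ^ (q - 1) < (q : ℝ) ^ k) :
    cyclotomic q ℤ ∣ p := by
  by_contra hc
  obtain ⟨g, rfl⟩ := hk
  have hg : ¬ cyclotomic q ℤ ∣ g := fun h => hc (h.mul_left _)
  have h1 := Pool.Agent.H35.V1.one_le_Nm hq.pos hg
  have h2 := Nm_le hq.pos _ hH
  rw [Pool.Agent.H35.V1.Nm_mul, Pool.Agent.H35.V1.Nm_pow, Nm_X_sub_one hq,
    Nat.totient_prime hq] at h2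
  have h3 : (q : ℝ) ^ k ≤ (q : ℝ) ^ k * Nm q g := le_mul_of_one_le_right (by positivity) h1
  linarith

theorem X_pow_sub_one_dvd {q : ℕ} (hq : q.Prime) {p : ℤ[X]} (h1 : X - 1 ∣ p)
    (h2 : cyclotomic q ℤ ∣ p) : X ^ q - 1 ∣ p := by
  haveI : Fact q.Prime := ⟨hq⟩
  obtain ⟨A, rfl⟩ := h2
  have hX : (X - 1 : ℤ[X]) = X - C 1 := by simp
  have hp : Prime (X - 1 : ℤ[X]) := by
    rw [hX]
    exact prime_X_sub_C 1
  rcases hp.dvd_or_dvd h1 with h | h
  · exfalso
    rw [hX, dvd_iff_isRoot, IsRoot.def, eval_one_cyclotomic_prime] at h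
    exact hq.ne_zero (by exact_mod_cast h)
  · rw [← cyclotomic_prime_mul_X_sub_one]
    exact mul_dvd_mul_left _ h

theorem forced {q : ℕ} (hq : q.Prime) {p : ℤ[X]} {k : ℕ} (hk0 : k ≠ 0) (hk : (X - 1) ^ k ∣ p)
    {H : ℝ} (hH1 : 1 ≤ H) (hH : ∑ i ∈ p.support, |(p.coeff i : ℝ)| ≤ H)
    (hlt : ((q : ℝ) - 1) * Real.log H < k * Real.log q) : X ^ q - 1 ∣ p := by
  refine X_pow_sub_one_dvd hq ((dvd_pow_self _ hk0).trans hk) (cyc_dvd hq hk hH ?_)
  have hHp : 0 < H := lt_of_lt_of_le one_pos hH1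
  have hqp : (0 : ℝ) < q := by exact_mod_cast hq.pos
  rw [← Real.log_lt_log_iff (by positivity) (by positivity), Real.log_pow, Real.log_pow,
    Nat.cast_sub hq.one_lt.le, Nat.cast_one]
  exact hlt

theorem sum_telescope {R : Type*} [CommRing R] (G : R[X]) {q c : ℕ} (hc : c < q) (A : ℕ) :
    ∑ a ∈ range (A + 1), ((X ^ q - 1) * G).coeff (c + q * a) = - G.coeff (c + q * A) := by
  have hco : ∀ j, ((X ^ q - 1) * G).coeff j = (if q ≤ j then G.coeff (j - q) else 0) - G.coeff j := by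
    intro j
    rw [sub_mul, one_mul, coeff_sub, coeff_X_pow_mul']
  induction A with
  | zero =>
    rw [zero_add, sum_range_one, hco, if_neg (by simpa using hc)]
    simp
  | succ A ih =>
    rw [sum_range_succ, ih, hco, if_pos (by nlinarith)]
    have : c + q * (A + 1) - q = c + q * A := by
      rw [mul_add, mul_one]
      omega
    rw [this]
    ring

theorem exists_partner {R : Type*} [CommRing R] {F : R[X]} {q : ℕ} (hq : 0 < q)
    (h : X ^ q - 1 ∣ F) {i : ℕ} (hi : F.coeff i ≠ 0) :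
    ∃ j, j ≠ i ∧ F.coeff j ≠ 0 ∧ (q : ℤ) ∣ (i : ℤ) - j := by
  by_contra hno
  push_neg at hno
  obtain ⟨G, rfl⟩ := h
  have h1 := sum_telescope G (Nat.mod_lt i hq) (G.natDegree + 1 + i / q)
  have h2 : G.coeff (i % q + q * (G.natDegree + 1 + i / q)) = 0 := by
    refine coeff_eq_zero_of_natDegree_lt ?_
    have : G.natDegree + 1 ≤ q * (G.natDegree + 1 + i / q) := by
      calc G.natDegree + 1 ≤ 1 * (G.natDegree + 1 + i / q) := by
            rw [one_mul]
            exact Nat.le_add_right _ _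
        _ ≤ q * (G.natDegree + 1 + i / q) := Nat.mul_le_mul_right _ hq
    omega
  rw [h2, neg_zero, sum_eq_single (i / q)] at h1
  · rw [Nat.mod_add_div] at h1
    exact hi h1
  · intro a _ ha
    by_contra hne
    refine hno (i % q + q * a) ?_ hne ?_
    · intro he
      apply ha
      have h3 := Nat.mod_add_div i q
      have h4 : q * a = q * (i / q) := by omega
      exact Nat.eq_of_mul_eq_mul_left hq h4
    · refine ⟨(i / q : ℕ) - a, ?_⟩
      have h3 : ((i % q : ℕ) : ℤ) + q * (i / q : ℕ) = i := by exact_mod_cast Nat.mod_add_div i q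
      push_cast
      push_cast at h3
      linear_combination -h3
  · intro hni
    exact absurd (mem_range.2 (by omega)) hni

end

end Pool.Agent.H1.BL
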