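import Pool.Agent.H1.BL.Tcl

/-!
The `w × w` Hankel determinant of the polynomials `G (X ^ (1 + i + j))` is not zero if `G` has at
least `w` terms.
-/

namespace Pool.Agent.H1.BL

open Polynomial Finset

noncomputable section

variable {K : Type*} [Field K]

/-- If the coefficient of `∑ a i * X ^ (i * r)` at the largest possible degree vanishes, this degree
is attained by two different indices. -/
theorem trop {I : Finset ℕ} {a : ℕ → K[X]} (ha : ∀ i ∈ I, a i ≠ 0) (hI : I.Nonempty) (r : ℕ)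
    (h : ∀ i ∈ I, (∀ i' ∈ I, (a i').natDegree + i' * r ≤ (a i).natDegree + i * r) →
      (∑ i ∈ I, a i * X ^ (i * r)).coeff ((a i).natDegree + i * r) = 0) :
    ∃ i ∈ I, ∃ i0 ∈ I, i0 < i ∧
      (∀ i' ∈ I, (a i').natDegree + i' * r ≤ (a i).natDegree + i * r) ∧
      (∀ i' ∈ I, (a i').natDegree + i' * r ≤ (a i0).natDegree + i0 * r) := by
  obtain ⟨i1, hi1, hmax⟩ := exists_max_image I (fun i => (a i).natDegree + i * r) hI
  have h0 := h i1 hi1 hmax
  by_cases hu : ∃ i2 ∈ I, i2 ≠ i1 ∧ (a i2).natDegree + i2 * r = (a i1).natDegree + i1 * r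
  · obtain ⟨i2, hi2, hne, heq⟩ := hu
    have hmax2 : ∀ i' ∈ I, (a i').natDegree + i' * r ≤ (a i2).natDegree + i2 * r := by
      intro i' hi'
      rw [heq]
      exact hmax i' hi'
    rcases lt_or_gt_of_ne hne with hlt | hlt
    · exact ⟨i1, hi1, i2, hi2, hlt, hmax, hmax2⟩
    · exact ⟨i2, hi2, i1, hi1, hlt, hmax2, hmax⟩
  · push_neg at hu
    exfalso
    rw [finset_sum_coeff, sum_eq_single i1] at h0
    · rw [coeff_mul_X_pow, coeff_natDegree, leadingCoeff_eq_zero] at h0
      exact ha i1 hi1 h0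
    · intro i hi hne
      refine coeff_eq_zero_of_natDegree_lt ?_
      have h1 : (a i).natDegree + i * r < (a i1).natDegree + i1 * r :=
        lt_of_le_of_ne (hmax i hi) (hu i hi hne)
      refine lt_of_le_of_lt (natDegree_mul_le.trans ?_) h1
      rw [natDegree_X_pow]
    · intro hn
      exact absurd hi1 hn

theorem mono_max {I : Finset ℕ} {d : ℕ → ℕ} {r r' i i' : ℕ} (hr : r < r') (hi : i ∈ I)
    (hi' : i' ∈ I) (h : ∀ a ∈ I, d a + a * r ≤ d i + i * r)
    (h' : ∀ a ∈ I, d a + a * r' ≤ d i' + i' * r') : i ≤ i' := by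
  have h1 := h i' hi'
  have h2 := h' i hi
  by_contra hc
  push_neg at hc
  obtain ⟨c, rfl⟩ := Nat.exists_eq_add_of_lt hr
  obtain ⟨e, rfl⟩ := Nat.exists_eq_add_of_lt hc
  nlinarith

theorem hankel_ne {G : K[X]} {w : ℕ} (hw : w ≤ G.support.card) :
    Matrix.det (Matrix.of fun i j : Fin w => expand K (1 + (i : ℕ) + j) G) ≠ 0 := by
  classical
  intro hdet
  obtain ⟨v0, hv0, hv⟩ := Matrix.exists_mulVec_eq_zero_iff.2 hdet
  obtain ⟨v, hvv⟩ : ∃ v : ℕ → K[X], v = fun j => if h : j < w then v0 ⟨j, h⟩ else 0 := ⟨_, rfl⟩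
  have hv' : ∀ j : Fin w, v0 j = v j := by
    intro j
    rw [hvv]
    simp [j.2]
  obtain ⟨P, hP⟩ : ∃ P : ℕ → K[X], P = fun b => ∑ j ∈ range w, v j * X ^ (j * b) := ⟨_, rfl⟩
  -- the relations
  have hrel : ∀ r < w, ∑ b ∈ G.support, (C (G.coeff b) * X ^ b * P b) * X ^ (b * r) = 0 := by
    intro r hr
    have h1 := congrFun hv ⟨r, hr⟩
    rw [Matrix.mulVec, dotProduct, Pi.zero_apply] at h1
    rw [← h1]
    calc ∑ b ∈ G.support, (C (G.coeff b) * X ^ b * P b) * X ^ (b * r)
        = ∑ b ∈ G.support, ∑ j ∈ range w, (C (G.coeff b) * X ^ (b * (1 + r + j))) * v j := by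
          refine sum_congr rfl fun b _ => ?_
          rw [hP]
          simp only
          rw [mul_sum, sum_mul]
          refine sum_congr rfl fun j _ => ?_
          rw [show b * (1 + r + j) = b + b * r + j * b by ring, pow_add, pow_add]
          ring
      _ = ∑ j ∈ range w, (expand K (1 + r + j) G) * v j := by
          rw [sum_comm]
          refine sum_congr rfl fun j _ => ?_
          rw [← sum_mul, expand_eq_sum, Polynomial.sum]
          congr 1
          refine sum_congr rfl fun b _ => ?_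
          rw [← pow_mul, mul_comm b]
      _ = ∑ j : Fin w, (expand K (1 + r + j) G) * v j :=
          (Fin.sum_univ_eq_sum_range (fun j => (expand K (1 + r + j) G) * v j) w).symm
      _ = _ := by
          refine sum_congr rfl fun j _ => ?_
          rw [Matrix.of_apply, hv']
  -- some `P b` is not zero
  have hPne : ∃ b ∈ G.support, P b ≠ 0 := by
    by_contra hno
    push_neg at hno
    obtain ⟨T, hTs, hTc⟩ := exists_subset_card_eq hw
    apply hv0
    refine Matrix.eq_zero_of_forall_index_sum_pow_mul_eq_zero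
      (f := fun j : Fin w => (X : K[X]) ^ (T.orderEmbOfFin hTc j)) ?_ ?_
    · intro i j hij
      have h1 := congrArg natDegree hij
      simp only [natDegree_X_pow] at h1
      exact (T.orderEmbOfFin hTc).injective h1
    · intro j
      have h1 := hno _ (hTs (T.orderEmbOfFin_mem hTc j))
      rw [hP] at h1
      simp only at h1
      rw [← Fin.sum_univ_eq_sum_range (fun i => v i * X ^ (i * (T.orderEmbOfFin hTc j))) w] at h1
      rw [← h1]
      refine sum_congr rfl fun i _ => ?_
      rw [← pow_mul, hv', mul_comm (T.orderEmbOfFin hTc j : ℕ), mul_comm]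
  obtain ⟨I, hI⟩ : ∃ I, I = G.support.filter fun b => P b ≠ 0 := ⟨_, rfl⟩
  have hIne : I.Nonempty := by
    obtain ⟨b, hb, hbP⟩ := hPne
    exact ⟨b, by rw [hI, mem_filter]; exact ⟨hb, hbP⟩⟩
  have hmI : ∀ b ∈ I, G.coeff b ≠ 0 ∧ P b ≠ 0 := by
    intro b hb
    rw [hI, mem_filter, mem_support_iff] at hb
    exact hb
  obtain ⟨a, haa⟩ : ∃ a : ℕ → K[X], a = fun b => C (G.coeff b) * X ^ b * P b := ⟨_, rfl⟩
  have ha : ∀ b ∈ I, a b ≠ 0 := by
    intro b hb
    rw [haa]
    exact mul_ne_zero (mul_ne_zero (C_ne_zero.2 (hmI b hb).1) (pow_ne_zero _ X_ne_zero))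
      (hmI b hb).2
  have had : ∀ b ∈ I, (a b).natDegree = b + (P b).natDegree := by
    intro b hb
    rw [haa]
    simp only
    rw [natDegree_mul (mul_ne_zero (C_ne_zero.2 (hmI b hb).1) (pow_ne_zero _ X_ne_zero))
      (hmI b hb).2, natDegree_C_mul_X_pow _ _ (hmI b hb).1]
  have hsum0 : ∀ r < w, ∑ b ∈ I, a b * X ^ (b * r) = 0 := by
    intro r hr
    rw [← hrel r hr, hI, haa]
    refine sum_subset (filter_subset _ _) fun b hb hb' => ?_
    rw [mem_filter, not_and, not_not] at hb'
    simp only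
    rw [hb' hb, mul_zero, zero_mul]
  have h1 : ∀ r : ℕ, ∃ b b0 : ℕ, r < w → b ∈ I ∧ b0 ∈ I ∧ b0 < b ∧
      (∀ b' ∈ I, (a b').natDegree + b' * r ≤ (a b).natDegree + b * r) ∧
      (∀ b' ∈ I, (a b').natDegree + b' * r ≤ (a b0).natDegree + b0 * r) := by
    intro r
    by_cases hr : r < w
    · obtain ⟨b, hb, b0, hb0, h2, h3, h4⟩ := trop ha hIne r fun i _ _ => by
        rw [hsum0 r hr, coeff_zero]
      exact ⟨b, b0, fun _ => ⟨hb, hb0, h2, h3, h4⟩⟩
    · exact ⟨0, 0, fun h => absurd h hr⟩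
  choose β β0 hβ using h1
  -- the indices of the vector
  obtain ⟨J, hJ⟩ : ∃ J, J = (range w).filter fun j => v j ≠ 0 := ⟨_, rfl⟩
  have hJne : J.Nonempty := by
    by_contra hno
    rw [not_nonempty_iff_eq_empty] at hno
    apply hv0
    funext j
    rw [hv']
    by_contra hj
    have : (j : ℕ) ∈ J := by
      rw [hJ, mem_filter, mem_range]
      exact ⟨j.2, hj⟩
    rw [hno] at this
    simp at this
  have hvJ : ∀ j ∈ J, v j ≠ 0 := by
    intro j hj
    rw [hJ, mem_filter] at hj
    exact hj.2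
  have hPJ : ∀ b, P b = ∑ j ∈ J, v j * X ^ (j * b) := by
    intro b
    rw [hP, hJ]
    symm
    refine sum_subset (filter_subset _ _) fun j hj hj' => ?_
    rw [mem_filter, not_and, not_not] at hj'
    rw [hj' hj, zero_mul]
  have h2 : ∀ r : ℕ, ∃ j j0 : ℕ, r < w → j ∈ J ∧ j0 ∈ J ∧ j0 < j ∧
      (∀ j' ∈ J, (v j').natDegree + j' * β r ≤ (v j).natDegree + j * β r) ∧
      (∀ j' ∈ J, (v j').natDegree + j' * β r ≤ (v j0).natDegree + j0 * β r) := by
    intro r
    by_cases hr : r < w
    · obtain ⟨hb, hb0, h3, h4, h5⟩ := hβ r hr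
      obtain ⟨j, hj, j0, hj0, h6, h7, h8⟩ := trop hvJ hJne (β r) fun j hj hjm => by
        rw [← hPJ]
        refine coeff_eq_zero_of_natDegree_lt ?_
        have h9 : (P (β r)).natDegree < (P (β0 r)).natDegree := by
          have h10 := h5 _ hb
          rw [had _ hb, had _ hb0] at h10
          have h11 : β0 r * r ≤ β r * r := Nat.mul_le_mul_right _ h3.le
          omega
        refine lt_of_lt_of_le h9 ?_
        rw [hPJ]
        refine natDegree_sum_le_of_forall_le _ _ fun j' hj' => ?_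
        refine (natDegree_mul_le.trans ?_).trans (hjm j' hj')
        rw [natDegree_X_pow]
        exact Nat.add_le_add_left (Nat.mul_le_mul_left _ h3.le) _
      exact ⟨j, j0, fun _ => ⟨hj, hj0, h6, h7, h8⟩⟩
    · exact ⟨0, 0, fun h => absurd h hr⟩
  choose γ γ0 hγ using h2
  have h3 : ∀ r, r < w → r + 1 ≤ γ r := by
    intro r
    induction r with
    | zero =>
      intro hr
      have := (hγ 0 hr).2.2.1
      omega
    | succ r ih =>
      intro hr
      have h4 := ih (by omega)
      obtain ⟨hb, hb0, h5, h6, h7⟩ := hβ r (by omega)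
      obtain ⟨hb', hb0', h5', h6', h7'⟩ := hβ (r + 1) hr
      have h8 : β r < β (r + 1) :=
        lt_of_le_of_lt (mono_max (d := fun b => (a b).natDegree) (Nat.lt_succ_self r) hb hb0' h6 h7')
          h5'
      obtain ⟨hj, hj0, h9, h10, h11⟩ := hγ r (by omega)
      obtain ⟨hj', hj0', h9', h10', h11'⟩ := hγ (r + 1) hr
      have h12 : γ r < γ (r + 1) :=
        lt_of_le_of_lt (mono_max (d := fun j => (v j).natDegree) h8 hj hj0' h10 h11') h9'
      omega
  have hw0 : 0 < w := by
    obtain ⟨j, hj⟩ := hJne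
    rw [hJ, mem_filter, mem_range] at hj
    omega
  have h4 := h3 (w - 1) (by omega)
  have h5 := (hγ (w - 1) (by omega)).1
  rw [hJ, mem_filter, mem_range] at h5
  omega

end

end Pool.Agent.H1.BL
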