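import Pool.Agent.H1.BL.Core

/-!
Polynomials with coefficients in `{-1, 0, 1}` whose support splits into few arithmetic progressions
of the same difference, and polynomials with few zero coefficients.
-/

namespace Pool.Agent.H1.BL

open Polynomial Finset

noncomputable section

theorem odd_iff {a b : ℤ} (ha : a = -1 ∨ a = 0 ∨ a = 1) (hb : b = -1 ∨ b = 0 ∨ b = 1) :
    ¬ (2 : ℤ) ∣ b - a ↔ (a ≠ 0 ∧ b = 0) ∨ (b ≠ 0 ∧ a = 0) := by
  rcases ha with rfl | rfl | rfl <;> rcases hb with rfl | rfl | rfl <;> norm_num <;> decide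

theorem sum_abs_le {n : ℕ} {p : ℤ[X]} (hdeg : p.natDegree ≤ n)
    (hco : ∀ i, p.coeff i = -1 ∨ p.coeff i = 0 ∨ p.coeff i = 1) :
    ∑ i ∈ p.support, |(p.coeff i : ℝ)| ≤ (n : ℝ) + 1 := by
  calc ∑ i ∈ p.support, |(p.coeff i : ℝ)| ≤ ∑ _i ∈ p.support, (1 : ℝ) := by
        refine sum_le_sum fun i _ => ?_
        rcases hco i with h | h | h <;> simp [h]
    _ = p.support.card := by simp
    _ ≤ (n : ℝ) + 1 := by
        have h1 : p.support ⊆ range (n + 1) := by
          intro i hi
          rw [mem_range]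
          have := le_natDegree_of_mem_supp i hi
          omega
        have := card_le_card h1
        rw [card_range] at this
        exact_mod_cast this

/-- The number of odd coefficients of `p * (X ^ d - 1)` is at most twice the number of elements `j`
of the support of `p` such that `j - d` is not in the support. -/
theorem card_odd_le {p : ℤ[X]} {d N : ℕ}
    (hco : ∀ i, p.coeff i = -1 ∨ p.coeff i = 0 ∨ p.coeff i = 1) :
    ((range (N + 1)).filter fun j => ¬ ((2 : ℕ) : ℤ) ∣ (p * (X ^ d - 1)).coeff j).card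
      ≤ 2 * (p.support.filter fun j => j < d ∨ p.coeff (j - d) = 0).card := by
  set A := p.support with hA
  set B := A.image (fun j => j + d) with hB
  have hBc : B.card = A.card := card_image_of_injective _ (add_left_injective d)
  have hmB : ∀ j, j ∈ B ↔ d ≤ j ∧ p.coeff (j - d) ≠ 0 := by
    intro j
    rw [hB, mem_image]
    constructor
    · rintro ⟨i, hi, rfl⟩
      refine ⟨by omega, ?_⟩
      rw [Nat.add_sub_cancel]
      exact mem_support_iff.1 hi
    · rintro ⟨h1, h2⟩
      exact ⟨j - d, mem_support_iff.2 h2, by omega⟩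
  have h1 : A \ B = A.filter fun j => j < d ∨ p.coeff (j - d) = 0 := by
    ext j
    rw [mem_sdiff, mem_filter, hmB]
    constructor
    · rintro ⟨h2, h3⟩
      refine ⟨h2, ?_⟩
      by_contra h4
      push_neg at h4
      exact h3 h4
    · rintro ⟨h2, h3⟩
      refine ⟨h2, ?_⟩
      rintro ⟨h4, h5⟩
      rcases h3 with h3 | h3
      · omega
      · exact h5 h3
  have h2 : (B \ A).card = (A \ B).card := card_sdiff_comm hBc
  have h3 : ((range (N + 1)).filter fun j => ¬ ((2 : ℕ) : ℤ) ∣ (p * (X ^ d - 1)).coeff j)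
      ⊆ (A \ B) ∪ (B \ A) := by
    intro j hj
    rw [mem_filter] at hj
    have h4 : (p * (X ^ d - 1)).coeff j = (if d ≤ j then p.coeff (j - d) else 0) - p.coeff j := by
      rw [mul_sub, mul_one, coeff_sub, coeff_mul_X_pow']
    have h5 := hj.2
    rw [h4] at h5
    have h6 : (if d ≤ j then p.coeff (j - d) else 0) = -1
        ∨ (if d ≤ j then p.coeff (j - d) else 0) = 0
        ∨ (if d ≤ j then p.coeff (j - d) else 0) = 1 := by
      split_ifs
      · exact hco _
      · simp
    have h7 : (if d ≤ j then p.coeff (j - d) else 0) ≠ 0 ↔ j ∈ B := by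
      rw [hmB]
      split_ifs with h
      · simp [h]
      · simp [h]
    rw [Nat.cast_ofNat, odd_iff (hco j) h6] at h5
    rw [mem_union, mem_sdiff, mem_sdiff]
    rcases h5 with ⟨h8, h9⟩ | ⟨h8, h9⟩
    · left
      refine ⟨mem_support_iff.2 h8, ?_⟩
      rw [← h7]
      exact not_not.2 h9
    · right
      exact ⟨h7.1 h8, fun h => mem_support_iff.1 h h9⟩
  calc _ ≤ ((A \ B) ∪ (B \ A)).card := card_le_card h3
    _ ≤ (A \ B).card + (B \ A).card := card_union_le _ _
    _ = 2 * (A \ B).card := by rw [h2]; ring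
    _ = _ := by rw [h1]

theorem exists_odd {p : ℤ[X]} (hp : p ≠ 0) {d : ℕ} (hd : 1 ≤ d)
    (hco : ∀ i, p.coeff i = -1 ∨ p.coeff i = 0 ∨ p.coeff i = 1) :
    ∃ j, ¬ ((2 : ℕ) : ℤ) ∣ (p * (X ^ d - 1)).coeff j := by
  refine ⟨p.natDegree + d, ?_⟩
  have h4 : (p * (X ^ d - 1)).coeff (p.natDegree + d) = p.leadingCoeff := by
    rw [mul_sub, mul_one, coeff_sub, coeff_mul_X_pow,
      coeff_eq_zero_of_natDegree_lt (show p.natDegree < p.natDegree + d by omega), sub_zero,
      leadingCoeff]
  rw [h4]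
  have h5 : p.leadingCoeff ≠ 0 := leadingCoeff_ne_zero.2 hp
  rcases hco p.natDegree with h | h | h
  · rw [leadingCoeff, h]
    decide
  · exact absurd h h5
  · rw [leadingCoeff, h]
    decide

theorem natDegree_le {n d : ℕ} {p : ℤ[X]} (hdeg : p.natDegree ≤ n) :
    (p * (X ^ d - 1)).natDegree ≤ n + d := by
  refine natDegree_mul_le.trans ?_
  have : (X ^ d - 1 : ℤ[X]).natDegree ≤ d := by
    refine (natDegree_sub_le _ _).trans ?_
    simp
  omega

theorem progressions {C : ℝ} (hC : 0 < C)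
    (core : ∀ l : ℕ, l.Prime → ∀ (p h : ℤ[X]) (H : ℝ) (N t k : ℕ), 2 ≤ H →
      3 ≤ N → ∑ i ∈ p.support, |(p.coeff i : ℝ)| ≤ H → (p * h).natDegree ≤ N →
      (∃ j, ¬ (l : ℤ) ∣ (p * h).coeff j) →
      ((range (N + 1)).filter fun j => ¬ (l : ℤ) ∣ (p * h).coeff j).card ≤ t →
      (X - 1) ^ k ∣ p →
      (k : ℝ) * Real.log (t * Real.log N) ≤ C * t * Real.log N * Real.log H)
    {n d r : ℕ} (hn : 3 ≤ n) (hd : 1 ≤ d) (hdn : d ≤ n) {p : ℤ[X]} (hp : p ≠ 0)
    (hdeg : p.natDegree ≤ n) (hco : ∀ i, p.coeff i = -1 ∨ p.coeff i = 0 ∨ p.coeff i = 1)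
    (hr : (p.support.filter fun j => j < d ∨ p.coeff (j - d) = 0).card ≤ r) :
    (p.rootMultiplicity 1 : ℝ) * Real.log (r * Real.log n)
      ≤ 8 * C * r * Real.log n ^ 2 := by
  have hn3 : (3 : ℝ) ≤ n := by exact_mod_cast hn
  have hL : 1 < Real.log n := by
    rw [Real.lt_log_iff_exp_lt (by linarith)]
    linarith [Real.exp_one_lt_d9]
  rcases Nat.eq_zero_or_pos r with rfl | hr0
  · simp
  have hr1 : (1 : ℝ) ≤ r := by exact_mod_cast hr0
  have hk : (X - 1) ^ p.rootMultiplicity 1 ∣ p := by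
    have := pow_rootMultiplicity_dvd p 1
    rwa [map_one] at this
  have h1 := core 2 Nat.prime_two p (X ^ d - 1) ((n : ℝ) + 1) (2 * n) (2 * r)
    (p.rootMultiplicity 1) (by linarith) (by omega) (sum_abs_le hdeg hco)
    ((natDegree_le hdeg).trans (by omega)) (exists_odd hp hd hco)
    ((card_odd_le hco).trans (by omega)) hk
  have h2 : Real.log ((2 * n : ℕ) : ℝ) ≤ 2 * Real.log n := by
    rw [show (2 : ℝ) * Real.log n = Real.log ((n : ℝ) ^ 2) by rw [Real.log_pow]; norm_num]
    refine Real.log_le_log (by push_cast; linarith) ?_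
    push_cast
    nlinarith
  have h3 : Real.log ((n : ℝ) + 1) ≤ 2 * Real.log n := by
    rw [show (2 : ℝ) * Real.log n = Real.log ((n : ℝ) ^ 2) by rw [Real.log_pow]; norm_num]
    refine Real.log_le_log (by linarith) ?_
    nlinarith
  have h4 : Real.log n ≤ Real.log ((2 * n : ℕ) : ℝ) := by
    refine Real.log_le_log (by linarith) ?_
    push_cast
    linarith
  have h5 : 0 ≤ Real.log ((n : ℝ) + 1) := Real.log_nonneg (by linarith)
  calc (p.rootMultiplicity 1 : ℝ) * Real.log (r * Real.log n)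
      ≤ p.rootMultiplicity 1 * Real.log ((2 * r : ℕ) * Real.log ((2 * n : ℕ) : ℝ)) := by
        refine mul_le_mul_of_nonneg_left (Real.log_le_log (by positivity) ?_) (by positivity)
        refine mul_le_mul ?_ h4 (by linarith) (by positivity)
        push_cast
        linarith
    _ ≤ C * (2 * r : ℕ) * Real.log ((2 * n : ℕ) : ℝ) * Real.log ((n : ℝ) + 1) := h1
    _ ≤ C * (2 * r : ℕ) * (2 * Real.log n) * (2 * Real.log n) := by
        have h6 : (0 : ℝ) ≤ C * (2 * r : ℕ) := by positivity
        have h7 : C * (2 * r : ℕ) * Real.log ((2 * n : ℕ) : ℝ) ≤ C * (2 * r : ℕ) * (2 * Real.log n) :=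
          mul_le_mul_of_nonneg_left h2 h6
        exact mul_le_mul h7 h3 h5 (by positivity)
    _ = 8 * C * r * Real.log n ^ 2 := by
        push_cast
        ring

/-- With at most `m` zero coefficients there are at most `m + 1` blocks. -/
theorem blocks_le {n m : ℕ} {p : ℤ[X]} (hdeg : p.natDegree ≤ n)
    (hm : ((range (n + 1)).filter fun j => p.coeff j = 0).card ≤ m) :
    (p.support.filter fun j => j < 1 ∨ p.coeff (j - 1) = 0).card ≤ m + 1 := by
  have h1 : (p.support.filter fun j => j < 1 ∨ p.coeff (j - 1) = 0)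
      ⊆ insert 0 (((range (n + 1)).filter fun j => p.coeff j = 0).image (fun j => j + 1)) := by
    intro j hj
    rw [mem_filter] at hj
    rw [mem_insert, mem_image]
    rcases Nat.eq_zero_or_pos j with h | h
    · exact Or.inl h
    · right
      refine ⟨j - 1, ?_, by omega⟩
      rw [mem_filter, mem_range]
      have h2 := le_natDegree_of_mem_supp j hj.1
      refine ⟨by omega, ?_⟩
      rcases hj.2 with h3 | h3
      · omega
      · exact h3
  refine (card_le_card h1).trans ((card_insert_le _ _).trans ?_)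
  exact Nat.add_le_add_right (card_image_le.trans hm) 1

end

end Pool.Agent.H1.BL
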