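import Pool.Agent.H1.BL.Uni
import Pool.Agent.H1.BL.Spt

/-!
Polynomials with coefficients in `{-1, 0, 1}` whose support is a product set
`{a * L + b : a ∈ A, b ∈ B}`, `A ⊆ [0, M)`, `B ⊆ [0, L)`.
-/

namespace Pool.Agent.H1.BL

open Polynomial Finset

noncomputable section

/-- The polynomial with coefficients `0, 1` and support `A`. -/
def ind (A : Finset ℕ) : ℤ[X] := ∑ a ∈ A, X ^ a

theorem ind_coeff (A : Finset ℕ) (j : ℕ) : (ind A).coeff j = if j ∈ A then 1 else 0 := by
  unfold ind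
  rw [finset_sum_coeff]
  simp only [coeff_X_pow]
  rw [sum_ite_eq A j]

theorem ind_natDegree {A : Finset ℕ} {M : ℕ} (hA : ∀ a ∈ A, a ≤ M) : (ind A).natDegree ≤ M := by
  rw [natDegree_le_iff_coeff_eq_zero]
  intro j hj
  rw [ind_coeff, if_neg]
  intro h
  have := hA j h
  omega

theorem ind_prod_coeff {A B : Finset ℕ} {L : ℕ} (hL : 0 < L) (hB : ∀ b ∈ B, b < L) (j : ℕ) :
    (ind B * (ind A).comp (X ^ L)).coeff j = if j / L ∈ A ∧ j % L ∈ B then 1 else 0 := by
  have h1 : ind B * (ind A).comp (X ^ L) = ∑ a ∈ A, ∑ b ∈ B, X ^ (a * L + b) := by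
    have h0 : (ind A).comp (X ^ L) = ∑ a ∈ A, (X : ℤ[X]) ^ (L * a) := by
      unfold ind
      rw [← coe_compRingHom_apply, map_sum]
      refine sum_congr rfl fun a _ => ?_
      rw [coe_compRingHom_apply, X_pow_comp, ← pow_mul]
    rw [h0, mul_comm, sum_mul]
    refine sum_congr rfl fun a _ => ?_
    unfold ind
    rw [mul_sum]
    refine sum_congr rfl fun b _ => ?_
    rw [← pow_add, mul_comm L a]
  rw [h1, finset_sum_coeff]
  simp only [finset_sum_coeff, coeff_X_pow]
  have h2 : ∀ a ∈ A, ∀ b ∈ B, (j = a * L + b ↔ j / L = a ∧ j % L = b) := by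
    intro a _ b hb
    have hbL := hB b hb
    constructor
    · rintro rfl
      constructor
      · rw [mul_comm, Nat.mul_add_div hL, Nat.div_eq_of_lt hbL, add_zero]
      · rw [mul_comm, Nat.mul_add_mod, Nat.mod_eq_of_lt hbL]
    · rintro ⟨h3, h4⟩
      rw [← h3, ← h4, mul_comm]
      exact (Nat.div_add_mod j L).symm
  have h3 : ∀ a ∈ A, (∑ b ∈ B, if j = a * L + b then (1 : ℤ) else 0)
      = if j / L = a then (if j % L ∈ B then 1 else 0) else 0 := by
    intro a ha
    rw [sum_congr rfl fun b hb => if_congr (h2 a ha b hb) rfl rfl]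
    by_cases h : j / L = a
    · simp only [h, true_and, if_true]
      rw [sum_ite_eq B (j % L)]
    · simp only [h, false_and, if_false, sum_const_zero]
  rw [sum_congr rfl h3, sum_ite_eq A (j / L)]
  by_cases h4 : j / L ∈ A <;> by_cases h5 : j % L ∈ B <;> simp [h4, h5]

theorem prs_core : ∃ C : ℝ, 0 < C ∧ ∀ (L M d r : ℕ) (A B : Finset ℕ) (p : ℤ[X]), 1 ≤ d → d ≤ L →
    3 ≤ M * L → p ≠ 0 → (∀ i, p.coeff i = -1 ∨ p.coeff i = 0 ∨ p.coeff i = 1) →
    (∀ a ∈ A, a < M) → (∀ b ∈ B, b < L) →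
    (∀ j, p.coeff j ≠ 0 ↔ j / L ∈ A ∧ j % L ∈ B) →
    (B.filter fun b => b < d ∨ b - d ∉ B).card ≤ r →
    (p.rootMultiplicity 1 : ℝ) ≤ C * Real.log ((M * L : ℕ) : ℝ) *
      (Real.sqrt ((r : ℝ) * (M + 1) / Real.log ((r : ℝ) * (M + 1)))
        + r * Real.log ((M * L : ℕ) : ℝ) / Real.log (r * Real.log ((M * L : ℕ) : ℝ))) := by
  obtain ⟨C, hC, huni⟩ := uni
  refine ⟨6 * C, by positivity, ?_⟩
  intro L M d r A B p hd hdL hML hp hco hA hB hsup hr
  have hL : 0 < L := by omega
  have hM : 0 < M := Nat.pos_of_ne_zero fun h => by rw [h] at hML; omega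
  obtain ⟨n, hn⟩ : ∃ n, n = M * L := ⟨_, rfl⟩
  rw [← hn] at hML ⊢
  have hn3 : (3 : ℝ) ≤ n := by exact_mod_cast hML
  have hL1 : 1 < Real.log n := by
    rw [Real.lt_log_iff_exp_lt (by linarith)]
    linarith [Real.exp_one_lt_d9]
  have hLn : L ≤ n := by
    rw [hn]
    exact Nat.le_mul_of_pos_left L hM
  -- the support lies in `[0, n)`
  have hlt : ∀ j ∈ p.support, j < n := by
    intro j hj
    have h1 := (hsup j).1 (mem_support_iff.1 hj)
    have h2 := hA _ h1.1
    rw [hn]
    exact (Nat.div_lt_iff_lt_mul hL).1 h2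
  have hsum : ∑ i ∈ p.support, |(p.coeff i : ℝ)| ≤ n := by
    calc ∑ i ∈ p.support, |(p.coeff i : ℝ)| ≤ ∑ _i ∈ p.support, (1 : ℝ) := by
          refine sum_le_sum fun i _ => ?_
          rcases hco i with h | h | h <;> simp [h]
      _ = p.support.card := by simp
      _ ≤ n := by
          have h1 : p.support ⊆ range n := fun i hi => mem_range.2 (hlt i hi)
          have := card_le_card h1
          rw [card_range] at this
          exact_mod_cast this
  -- `1 ≤ r`
  have hBne : B.Nonempty := by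
    obtain ⟨j, hj⟩ := support_nonempty.2 hp
    exact ⟨j % L, ((hsup j).1 (mem_support_iff.1 hj)).2⟩
  have hr1 : 1 ≤ r := by
    refine le_trans (card_pos.2 ⟨B.min' hBne, ?_⟩) hr
    rw [mem_filter]
    refine ⟨min'_mem _ _, ?_⟩
    by_contra hcon
    push_neg at hcon
    have := min'_le B _ hcon.2
    omega
  have hr1' : (1 : ℝ) ≤ r := by exact_mod_cast hr1
  have hM1 : (1 : ℝ) ≤ M := by exact_mod_cast hM
  -- coefficients of `ind B`
  have hcoB : ∀ i, (ind B).coeff i = -1 ∨ (ind B).coeff i = 0 ∨ (ind B).coeff i = 1 := by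
    intro i
    rw [ind_coeff]
    split_ifs <;> simp
  have hsuppB : (ind B).support = B := by
    ext j
    rw [mem_support_iff, ind_coeff]
    split_ifs with h <;> simp [h]
  have hBN : (ind B).natDegree ≤ L := ind_natDegree fun b hb => (hB b hb).le
  have hcount : ((range (2 * n + 1)).filter fun j => ¬ ((2 : ℕ) : ℤ) ∣
      (ind B * (X ^ d - 1)).coeff j).card ≤ 2 * r := by
    refine (card_odd_le hcoB).trans (Nat.mul_le_mul_left 2 ?_)
    rw [hsuppB]
    refine le_trans (le_of_eq ?_) hr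
    congr 1
    ext b
    rw [mem_filter, mem_filter, ind_coeff]
    constructor
    · rintro ⟨h1, h2⟩
      refine ⟨h1, ?_⟩
      rcases h2 with h2 | h2
      · exact Or.inl h2
      · right
        intro h3
        rw [if_pos h3] at h2
        exact one_ne_zero h2
    · rintro ⟨h1, h2⟩
      refine ⟨h1, ?_⟩
      rcases h2 with h2 | h2
      · exact Or.inl h2
      · right
        rw [if_neg h2]
  -- the congruence
  have hcong : ∀ j, ((2 : ℕ) : ℤ) ∣ (p * (X ^ d - 1)
      - (ind B * (X ^ d - 1)) * ∏ i ∈ range 1, (ind A).comp (X ^ L)).coeff j := by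
    intro j
    have h1 : p * (X ^ d - 1) - (ind B * (X ^ d - 1)) * ∏ i ∈ range 1, (ind A).comp (X ^ L)
        = (p - ind B * (ind A).comp (X ^ L)) * (X ^ d - 1) := by
      rw [prod_range_one]
      ring
    rw [h1, coeff_mul]
    refine dvd_sum fun x _ => Dvd.dvd.mul_right ?_ _
    rw [coeff_sub, ind_prod_coeff hL hB]
    by_cases h2 : p.coeff x.1 ≠ 0
    · rw [if_pos ((hsup x.1).1 h2)]
      rcases hco x.1 with h3 | h3 | h3
      · rw [h3]
        decide
      · exact absurd h3 h2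
      · rw [h3]
        decide
    · rw [if_neg (fun h3 => h2 ((hsup x.1).2 h3))]
      push_neg at h2
      rw [h2]
      simp
  have hk : (X - 1) ^ p.rootMultiplicity 1 ∣ p := by
    have := pow_rootMultiplicity_dvd p 1
    rwa [map_one] at this
  have hlog2n : Real.log ((2 * n : ℕ) : ℝ) ≤ 2 * Real.log n := by
    rw [show (2 : ℝ) * Real.log n = Real.log ((n : ℝ) ^ 2) by rw [Real.log_pow]; norm_num]
    refine Real.log_le_log (by push_cast; linarith) ?_
    push_cast
    nlinarith
  have hΛ : ((2 * r : ℕ) : ℝ) * Real.log ((2 * n : ℕ) : ℝ)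
      + Real.log ((2 * ∏ i ∈ range 1, L : ℕ) : ℝ) ≤ 6 * (r * Real.log n) := by
    have h1 : Real.log ((2 * ∏ i ∈ range 1, L : ℕ) : ℝ) ≤ 2 * Real.log n := by
      refine le_trans (Real.log_le_log ?_ ?_) hlog2n
      · rw [prod_range_one]
        have : 0 < 2 * L := by omega
        exact_mod_cast this
      · rw [prod_range_one]
        have : 2 * L ≤ 2 * n := by omega
        exact_mod_cast this
    have h2 : ((2 * r : ℕ) : ℝ) * Real.log ((2 * n : ℕ) : ℝ) ≤ (2 * r) * (2 * Real.log n) := by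
      push_cast
      push_cast at hlog2n
      exact mul_le_mul_of_nonneg_left hlog2n (by positivity)
    nlinarith
  have hm : (2 : ℝ) + ∑ i ∈ range 1, ((ind A).natDegree : ℝ) ≤ M + 1 := by
    rw [sum_range_one]
    have h1 : (ind A).natDegree ≤ M - 1 := ind_natDegree fun a ha => by have := hA a ha; omega
    have h2 : ((ind A).natDegree : ℝ) ≤ M - 1 := by
      rw [← Nat.cast_one, ← Nat.cast_sub hM]
      exact_mod_cast h1
    linarith
  have h1 := huni 2 Nat.prime_two p (X ^ d - 1) (ind B * (X ^ d - 1)) (fun _ => ind A) (fun _ => L)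
    n (2 * n) (2 * r) 1 (p.rootMultiplicity 1) (M + 1) (6 * (r * Real.log n)) (by linarith)
    (by omega) hsum ((natDegree_le hBN).trans (by omega)) hcount (fun _ _ => hL)
    hcong (exists_odd hp hd hco) hk hm hΛ
  obtain ⟨R, hR⟩ : ∃ R : ℝ, R = (r : ℝ) * (M + 1) := ⟨_, rfl⟩
  have hR2 : 2 ≤ R := by
    rw [hR]
    nlinarith
  have hlR : 0 < Real.log R := Real.log_pos (by linarith)
  obtain ⟨u, hu⟩ : ∃ u : ℝ, u = r * Real.log n := ⟨_, rfl⟩
  have hu1 : 1 < u := by
    rw [hu]
    nlinarith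
  have hlu : 0 < Real.log u := Real.log_pos hu1
  have h2 : ((2 * r : ℕ) : ℝ) * ((M : ℝ) + 1) = 2 * R := by
    rw [hR]
    push_cast
    ring
  rw [h2, ← hu] at h1
  rw [← hR, ← hu]
  have h3 : Real.sqrt (2 * R / Real.log (2 * R)) ≤ 2 * Real.sqrt (R / Real.log R) := by
    rw [show (2 : ℝ) * Real.sqrt (R / Real.log R) = Real.sqrt (2 ^ 2 * (R / Real.log R)) by
      rw [Real.sqrt_mul (by norm_num), Real.sqrt_sq (by norm_num)]]
    refine Real.sqrt_le_sqrt ?_
    have h4 : Real.log R ≤ Real.log (2 * R) := Real.log_le_log (by linarith) (by linarith)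
    calc 2 * R / Real.log (2 * R) ≤ 2 * R / Real.log R :=
          div_le_div_of_nonneg_left (by linarith) hlR h4
      _ ≤ 2 ^ 2 * (R / Real.log R) := by
          have : 0 ≤ R / Real.log R := div_nonneg (by linarith) hlR.le
          rw [mul_div_assoc]
          nlinarith
  have h4 : 6 * u / Real.log (6 * u) ≤ 6 * (u / Real.log u) := by
    have h5 : Real.log u ≤ Real.log (6 * u) := Real.log_le_log (by linarith) (by linarith)
    rw [← mul_div_assoc]
    exact div_le_div_of_nonneg_left (by linarith) hlu h5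
  have h5 : 0 ≤ Real.sqrt (R / Real.log R) := Real.sqrt_nonneg _
  have h6 : 0 ≤ u / Real.log u := div_nonneg (by linarith) hlu.le
  calc (p.rootMultiplicity 1 : ℝ)
      ≤ C * Real.log n * (Real.sqrt (2 * R / Real.log (2 * R)) + 6 * u / Real.log (6 * u)) := h1
    _ ≤ C * Real.log n * (6 * (Real.sqrt (R / Real.log R) + u / Real.log u)) := by
        refine mul_le_mul_of_nonneg_left ?_ (by positivity)
        linarith
    _ = 6 * C * Real.log n * (Real.sqrt (R / Real.log R) + u / Real.log u) := by ring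

end

end Pool.Agent.H1.BL
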