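import Pool.Agent.H35.V1.Asymp
import Pool.Agent.H1.BL.Prs

/-!
Lower bound for polynomials whose support is a union of aligned blocks of length `L`.
-/

namespace Pool.Agent.H1.BL

open Polynomial Finset

noncomputable section

/-- The bound of the hand-in LogLogGain. -/
theorem loglog : ∃ c : ℝ, 0 < c ∧ ∀ n : ℕ, 3 ≤ n →
    ∃ p : ℤ[X], p ≠ 0 ∧ p.natDegree ≤ n ∧
      (∀ i, p.coeff i = -1 ∨ p.coeff i = 0 ∨ p.coeff i = 1) ∧
      c * Real.sqrt (n * Real.log (Real.log n) / Real.log n) ≤ (p.rootMultiplicity 1 : ℝ) := by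
  obtain ⟨c, hc, h⟩ := Pool.Agent.H35.V1.large
  obtain ⟨N, hN⟩ := Filter.eventually_atTop.1 h
  refine ⟨min c (1 / (N + 1)), by positivity, fun n hn => ?_⟩
  rcases le_total N n with hNn | hNn
  · obtain ⟨p, hp0, hpdeg, hpc, k, hk, hck⟩ := hN n hNn
    refine ⟨p, hp0, hpdeg, fun i => ?_, ?_⟩
    · have h1 := abs_le.1 (hpc i)
      have h2 := h1.1
      have h3 := h1.2
      omega
    · have h1 : k ≤ p.rootMultiplicity 1 := by
        rw [le_rootMultiplicity_iff hp0]
        simpa using hk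
      have h2 : (k : ℝ) ≤ (p.rootMultiplicity 1 : ℝ) := by exact_mod_cast h1
      refine le_trans ?_ h2
      refine le_trans ?_ hck
      exact mul_le_mul_of_nonneg_right (min_le_left _ _) (Real.sqrt_nonneg _)
  · have hX : (X - C (1 : ℤ)) ≠ 0 := X_sub_C_ne_zero 1
    refine ⟨X - C (1 : ℤ), hX, ?_, fun i => ?_, ?_⟩
    · rw [natDegree_X_sub_C]
      omega
    · rw [coeff_sub, coeff_X, coeff_C]
      split_ifs <;> simp
    · rw [rootMultiplicity_X_sub_C_self]
      have hn3 : (3 : ℝ) ≤ n := by exact_mod_cast hn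
      have hlog1 : 1 ≤ Real.log n := by
        rw [Real.le_log_iff_exp_le (by linarith)]
        have := Real.exp_one_lt_d9
        linarith
      have hll : Real.log (Real.log n) ≤ Real.log n := by
        have := Real.log_le_sub_one_of_pos (show 0 < Real.log n by linarith)
        linarith
      have h1 : (n : ℝ) * Real.log (Real.log n) / Real.log n ≤ n := by
        rw [div_le_iff₀ (by linarith)]
        exact mul_le_mul_of_nonneg_left hll (by linarith)
      have h2 : Real.sqrt (n * Real.log (Real.log n) / Real.log n) ≤ n := by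
        calc Real.sqrt (n * Real.log (Real.log n) / Real.log n) ≤ Real.sqrt n :=
              Real.sqrt_le_sqrt h1
          _ ≤ n := by
              rw [Real.sqrt_le_left (by linarith)]
              nlinarith
      have h3 : (n : ℝ) ≤ N := by exact_mod_cast hNn
      calc min c (1 / ((N : ℝ) + 1)) * Real.sqrt (n * Real.log (Real.log n) / Real.log n)
          ≤ (1 / ((N : ℝ) + 1)) * N := by
            apply mul_le_mul (min_le_right _ _) (h2.trans h3) (Real.sqrt_nonneg _)
            positivity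
        _ ≤ ((1 : ℕ) : ℝ) := by
            rw [one_div, inv_mul_le_iff₀ (by positivity)]
            push_cast
            linarith

theorem block_coeff {L : ℕ} (hL : 0 < L) (Q : ℤ[X]) (j : ℕ) :
    (ind (range L) * expand ℤ L Q).coeff j = Q.coeff (j / L) := by
  unfold ind
  rw [sum_mul, finset_sum_coeff]
  simp only [coeff_X_pow_mul', coeff_expand hL]
  rw [sum_eq_single (j % L)]
  · rw [if_pos (Nat.mod_le j L), if_pos]
    · congr 1
      have h1 : j - j % L = L * (j / L) := by
        have := Nat.div_add_mod j L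
        omega
      rw [h1, Nat.mul_div_cancel_left _ hL]
    · exact (Nat.dvd_sub_mod j)
  · intro b hb hne
    rw [mem_range] at hb
    by_cases h1 : b ≤ j
    · rw [if_pos h1, if_neg]
      intro h2
      apply hne
      have h3 : b % L = j % L := (Nat.modEq_iff_dvd' h1).2 h2
      rw [Nat.mod_eq_of_lt hb] at h3
      exact h3
    · rw [if_neg h1]
  · intro h
    exact absurd (mem_range.2 (Nat.mod_lt j hL)) h

theorem lower_blocks : ∃ c : ℝ, 0 < c ∧ ∀ L M : ℕ, 1 ≤ L → 3 ≤ M →
    ∃ (A : Finset ℕ) (p : ℤ[X]), p ≠ 0 ∧ p.natDegree < (M + 1) * L ∧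
      (∀ i, p.coeff i = -1 ∨ p.coeff i = 0 ∨ p.coeff i = 1) ∧
      (∀ j, p.coeff j ≠ 0 ↔ j / L ∈ A) ∧
      c * Real.sqrt (M * Real.log (Real.log M) / Real.log M) ≤ (p.rootMultiplicity 1 : ℝ) := by
  obtain ⟨c, hc, h⟩ := loglog
  refine ⟨c, hc, fun L M hL hM => ?_⟩
  obtain ⟨Q, hQ0, hQdeg, hQco, hQ⟩ := h M hM
  obtain ⟨p, hp⟩ : ∃ p : ℤ[X], p = ind (range L) * expand ℤ L Q := ⟨_, rfl⟩
  have hpc : ∀ j, p.coeff j = Q.coeff (j / L) := fun j => by rw [hp, block_coeff hL]
  have hp0 : p ≠ 0 := by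
    intro h0
    apply hQ0
    ext i
    have h1 := hpc (i * L)
    rw [Nat.mul_div_cancel _ hL, h0, coeff_zero] at h1
    rw [← h1, coeff_zero]
  refine ⟨Q.support, p, hp0, ?_, fun i => ?_, fun j => ?_, ?_⟩
  · have h1 : p.natDegree ∈ p.support := natDegree_mem_support_of_nonzero hp0
    rw [mem_support_iff, hpc] at h1
    have h2 : p.natDegree / L ≤ M := (le_natDegree_of_ne_zero h1).trans hQdeg
    exact (Nat.div_lt_iff_lt_mul hL).1 (by omega)
  · rw [hpc]
    exact hQco _
  · rw [hpc, mem_support_iff]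
  · refine hQ.trans ?_
    have h1 : Q.rootMultiplicity 1 ≤ p.rootMultiplicity 1 := by
      rw [le_rootMultiplicity_iff hp0]
      have h2 : (X - C (1 : ℤ)) ^ Q.rootMultiplicity 1 ∣ Q := pow_rootMultiplicity_dvd Q 1
      have h3 : (X ^ L - C (1 : ℤ)) ^ Q.rootMultiplicity 1 ∣ expand ℤ L Q := by
        have := map_dvd (expand ℤ L) h2
        simpa using this
      have h4 : (X - C (1 : ℤ)) ∣ X ^ L - C (1 : ℤ) := by
        rw [map_one]
        simpa using sub_dvd_pow_sub_pow (X : ℤ[X]) 1 L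
      rw [hp]
      exact ((pow_dvd_pow_of_dvd h4 _).trans h3).mul_left _
    exact_mod_cast h1

end

end Pool.Agent.H1.BL
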