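import Pool.Agent.H1.BL.Tcl

/-!
The determinant of a `w × w` matrix of polynomials whose value at `z` has rank at most `t` is
divisible by `(X - z) ^ (w - t)`.
-/

namespace Pool.Agent.H1.BL

open Polynomial Finset

noncomputable section

variable {K : Type*} [Field K]

theorem exists_rel {w : ℕ} {s : Finset (Fin w)} {B : Finset ℕ} (hs : B.card < s.card)
    (U : ℕ → Fin w → K) : ∃ c : Fin w → K, c ≠ 0 ∧ (∀ i ∉ s, c i = 0) ∧
      ∀ a ∈ B, ∑ i ∈ s, c i * U a i = 0 := by
  classical
  obtain ⟨f, hf⟩ : ∃ f : (s → K) →ₗ[K] (B → K),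
      ∀ x b, f x b = ∑ i : s, x i * U b i := by
    refine ⟨{ toFun := fun x b => ∑ i : s, x i * U b i, map_add' := ?_, map_smul' := ?_ },
      fun _ _ => rfl⟩
    · intro x y
      funext b
      simp only [Pi.add_apply]
      rw [← sum_add_distrib]
      exact sum_congr rfl fun i _ => by ring
    · intro c x
      funext b
      simp only [Pi.smul_apply, smul_eq_mul, RingHom.id_apply]
      rw [mul_sum]
      exact sum_congr rfl fun i _ => by ring
  have h1 : LinearMap.ker f ≠ ⊥ := by
    refine LinearMap.ker_ne_bot_of_finrank_lt ?_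
    rw [Module.finrank_fintype_fun_eq_card, Module.finrank_fintype_fun_eq_card,
      Fintype.card_coe, Fintype.card_coe]
    exact hs
  obtain ⟨x, hx, hx0⟩ := Submodule.exists_mem_ne_zero_of_ne_bot h1
  rw [LinearMap.mem_ker] at hx
  refine ⟨fun i => if h : i ∈ s then x ⟨i, h⟩ else 0, ?_, fun i hi => by simp [hi], ?_⟩
  · intro h0
    apply hx0
    funext i
    have := congrFun h0 i.1
    simp only [i.2, dif_pos, Pi.zero_apply] at this
    rw [Pi.zero_apply]
    exact this
  · intro a ha
    have h2 := congrFun hx ⟨a, ha⟩
    rw [hf, Pi.zero_apply] at h2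
    rw [← h2, ← sum_attach s]
    refine sum_congr rfl fun i _ => ?_
    simp [i.2]

theorem det_dvd {w : ℕ} (M : Matrix (Fin w) (Fin w) K[X]) (z : K) {B : Finset ℕ}
    (U V : ℕ → Fin w → K) (h : ∀ i j, (M i j).eval z = ∑ a ∈ B, U a i * V a j) :
    (X - C z) ^ (w - B.card) ∣ M.det := by
  classical
  choose N hN using fun i j => X_sub_C_dvd_sub_C_eval (a := z) (p := M i j)
  obtain ⟨A, hA⟩ : ∃ A : Fin w → Fin w → K[X], A = fun i j => C ((M i j).eval z) := ⟨_, rfl⟩
  have hM : M = A + fun i => (X - C z) • (fun j => N i j) := by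
    funext i j
    rw [Pi.add_apply, Pi.add_apply, Pi.smul_apply, smul_eq_mul, ← hN, hA]
    ring
  have hdet : M.det = ∑ s : Finset (Fin w), (Matrix.detRowAlternating (R := K[X]))
      (s.piecewise A fun i => (X - C z) • (fun j => N i j)) := by
    conv_lhs => rw [hM]
    exact (Matrix.detRowAlternating (R := K[X])).map_add_univ A
      (fun i => (X - C z) • (fun j => N i j))
  rw [hdet]
  refine dvd_sum fun s _ => ?_
  rcases lt_or_ge B.card s.card with hs | hs
  · obtain ⟨c, hc0, hcs, hc⟩ := exists_rel hs U
    have h0 : (Matrix.detRowAlternating (R := K[X]))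
        (s.piecewise A fun i => (X - C z) • (fun j => N i j)) = 0 := by
      refine (Matrix.exists_vecMul_eq_zero_iff (A := K[X])
        (M := (s.piecewise A fun i => (X - C z) • (fun j => N i j) :
          Matrix (Fin w) (Fin w) K[X]))).1 ⟨fun i => C (c i), ?_, ?_⟩
      · intro h1
        apply hc0
        funext i
        have := congrFun h1 i
        simp only [Pi.zero_apply] at this
        rw [Pi.zero_apply]
        exact C_eq_zero.1 this
      · funext j
        rw [Matrix.vecMul, dotProduct, Pi.zero_apply]
        have h1 : ∑ i, C (c i) * (s.piecewise A (fun i => (X - C z) • (fun j => N i j)) :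
            Matrix (Fin w) (Fin w) K[X]) i j = ∑ i ∈ s, C (c i * (M i j).eval z) := by
          rw [← sum_subset (subset_univ s)]
          · refine sum_congr rfl fun i hi => ?_
            rw [piecewise_eq_of_mem _ _ _ hi, hA, C_mul]
          · intro i _ hi
            rw [hcs i hi, C_0, zero_mul]
        rw [h1, ← map_sum]
        have h2 : ∑ i ∈ s, c i * (M i j).eval z = 0 := by
          calc ∑ i ∈ s, c i * (M i j).eval z = ∑ i ∈ s, ∑ a ∈ B, V a j * (c i * U a i) := by
                refine sum_congr rfl fun i _ => ?_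
                rw [h, mul_sum]
                exact sum_congr rfl fun a _ => by ring
            _ = ∑ a ∈ B, V a j * ∑ i ∈ s, c i * U a i := by
                rw [sum_comm]
                exact sum_congr rfl fun a _ => by rw [mul_sum]
            _ = 0 := sum_eq_zero fun a ha => by rw [hc a ha, mul_zero]
        rw [h2, C_0]
    rw [h0]
    exact dvd_zero _
  · have h1 : (s.piecewise A fun i => (X - C z) • (fun j => N i j) : Fin w → Fin w → K[X])
        = sᶜ.piecewise (fun i => (X - C z) • (s.piecewise A (fun i => fun j => N i j) :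
            Fin w → Fin w → K[X]) i) (s.piecewise A (fun i => fun j => N i j)) := by
      funext i
      by_cases hi : i ∈ s
      · rw [piecewise_eq_of_mem _ _ _ hi, piecewise_eq_of_notMem _ _ _ (by simp [hi]),
          piecewise_eq_of_mem _ _ _ hi]
      · rw [piecewise_eq_of_notMem _ _ _ hi, piecewise_eq_of_mem _ _ _ (by simp [hi]),
          piecewise_eq_of_notMem _ _ _ hi]
    rw [h1]
    have h2 := (Matrix.detRowAlternating (n := Fin w) (R := K[X])).toMultilinearMap.map_piecewise_smul
      (fun _ => X - C z) (s.piecewise A (fun i => fun j => N i j)) sᶜ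
    rw [prod_const, card_compl, Fintype.card_fin] at h2
    have h3 : (Matrix.detRowAlternating (n := Fin w) (R := K[X]))
        (sᶜ.piecewise (fun i => (X - C z) • (s.piecewise A (fun i => fun j => N i j) :
            Fin w → Fin w → K[X]) i) (s.piecewise A (fun i => fun j => N i j)))
        = (X - C z) ^ (w - s.card) • (Matrix.detRowAlternating (n := Fin w) (R := K[X]))
          (s.piecewise A (fun i => fun j => N i j)) := h2
    rw [h3, smul_eq_mul]
    exact (pow_dvd_pow _ (by omega)).mul_right _

end

end Pool.Agent.H1.BL
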