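import Pool.Agent.H1.BL.Frc

/-!
Every exponent of the reduction of `p * h` modulo `l` has a partner modulo every forced prime, and
the product of the differences is divisible by all these primes.
-/

namespace Pool.Agent.H1.BL

open Polynomial Finset

noncomputable section

theorem primorial_le {N y : ℕ} {S : Finset ℕ} (hS : ∀ j ∈ S, j ≤ N) {i : ℕ} (hi : i ∈ S)
    (h : ∀ q : ℕ, q.Prime → q ≤ y → ∃ j ∈ S, j ≠ i ∧ (q : ℤ) ∣ (i : ℤ) - j) :
    primorial y ≤ N ^ (S.card - 1) := by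
  have hpos : 0 < ∏ j ∈ S.erase i, ((i : ℤ) - j).natAbs := by
    refine prod_pos fun j hj => ?_
    rw [Int.natAbs_pos, sub_ne_zero]
    exact_mod_cast (ne_of_mem_erase hj).symm
  have hdvd : primorial y ∣ ∏ j ∈ S.erase i, ((i : ℤ) - j).natAbs := by
    unfold primorial
    refine prod_primes_dvd _ (fun q hq => ?_) fun q hq => ?_
    · exact (Nat.prime_iff).1 (mem_filter.1 hq).2
    · rw [mem_filter, mem_range] at hq
      obtain ⟨j, hj, hji, hd⟩ := h q hq.2 (by omega)
      refine dvd_trans ?_ (dvd_prod_of_mem _ (mem_erase.2 ⟨hji, hj⟩))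
      exact Int.natCast_dvd.1 hd
  refine (Nat.le_of_dvd hpos hdvd).trans ?_
  rw [← card_erase_of_mem hi]
  refine (prod_le_pow_card _ _ N fun j hj => ?_)
  have h1 := hS i hi
  have h2 := hS j (mem_of_mem_erase hj)
  omega

theorem log_primorial_le {l : ℕ} (hl : l.Prime) {p h : ℤ[X]} {k N t : ℕ} (hk0 : k ≠ 0)
    (hk : (X - 1) ^ k ∣ p) {H : ℝ} (hH1 : 1 ≤ H)
    (hH : ∑ i ∈ p.support, |(p.coeff i : ℝ)| ≤ H) (hN : 1 ≤ N) (hdeg : (p * h).natDegree ≤ N)
    (hne : ∃ j, ¬ (l : ℤ) ∣ (p * h).coeff j)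
    (ht : ((range (N + 1)).filter fun j => ¬ (l : ℤ) ∣ (p * h).coeff j).card ≤ t) {y : ℕ}
    (hy : ∀ q : ℕ, q.Prime → q ≤ y → ((q : ℝ) - 1) * Real.log H < k * Real.log q) :
    Real.log (primorial y) ≤ t * Real.log N := by
  obtain ⟨i, hi⟩ := hne
  set S : Finset ℕ := (range (N + 1)).filter fun j => ¬ (l : ℤ) ∣ (p * h).coeff j with hS
  have hmem : ∀ j, ¬ (l : ℤ) ∣ (p * h).coeff j → j ∈ S := by
    intro j hj
    rw [hS, mem_filter, mem_range]
    refine ⟨?_, hj⟩
    by_contra hc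
    exact hj (by rw [coeff_eq_zero_of_natDegree_lt (by omega)]; exact dvd_zero _)
  have hco : ∀ j, ((p * h).map (Int.castRingHom (ZMod l))).coeff j ≠ 0 ↔
      ¬ (l : ℤ) ∣ (p * h).coeff j := by
    intro j
    rw [coeff_map, eq_intCast, Ne, ZMod.intCast_zmod_eq_zero_iff_dvd]
  have h1 : primorial y ≤ N ^ (S.card - 1) := by
    refine primorial_le (fun j hj => ?_) (hmem i hi) fun q hq hqy => ?_
    · rw [hS, mem_filter, mem_range] at hj
      omega
    · have h2 : X ^ q - 1 ∣ p * h := (forced hq hk0 hk hH1 hH (hy q hq hqy)).mul_right h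
      have h3 : X ^ q - 1 ∣ (p * h).map (Int.castRingHom (ZMod l)) := by
        have := Polynomial.map_dvd (Int.castRingHom (ZMod l)) h2
        simpa using this
      obtain ⟨j, hji, hj, hd⟩ := exists_partner hq.pos h3 ((hco i).2 hi)
      exact ⟨j, hmem j ((hco j).1 hj), hji, hd⟩
  have hN1 : (1 : ℝ) ≤ N := by exact_mod_cast hN
  calc Real.log (primorial y) ≤ Real.log ((N : ℝ) ^ (S.card - 1)) := by
        refine Real.log_le_log (by exact_mod_cast primorial_pos y) ?_
        exact_mod_cast h1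
    _ = (S.card - 1 : ℕ) * Real.log N := Real.log_pow _ _
    _ ≤ t * Real.log N := by
        refine mul_le_mul_of_nonneg_right ?_ (Real.log_nonneg hN1)
        exact_mod_cast (Nat.sub_le _ _).trans ht

end

end Pool.Agent.H1.BL
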