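import Pool.Agent.H1.BL.Hkn
import Pool.Agent.H1.BL.Mlt

/-!
Reductions modulo `l` all of whose exponents but `t` lie in one residue class modulo `L`: counting.
-/

namespace Pool.Agent.H1.BL

open Polynomial Finset

noncomputable section

variable {K : Type*} [Field K]

theorem det_natDegree_le (G : K[X]) (w : ℕ) :
    (Matrix.det (Matrix.of fun i j : Fin w => expand K (1 + (i : ℕ) + j) G)).natDegree
      ≤ w ^ 2 * G.natDegree := by
  classical
  rw [Matrix.det_apply]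
  refine natDegree_sum_le_of_forall_le _ _ fun σ _ => ?_
  refine (natDegree_smul_le _ _).trans ?_
  refine (natDegree_prod_le _ _).trans ?_
  have h1 : ∀ i : Fin w, (Matrix.of (fun i j : Fin w => expand K (1 + (i : ℕ) + j) G) (σ i) i).natDegree
      = (1 + (σ i : ℕ) + i) * G.natDegree := by
    intro i
    rw [Matrix.of_apply, natDegree_expand, mul_comm]
  rw [sum_congr rfl fun i _ => h1 i, ← sum_mul]
  refine Nat.mul_le_mul_right _ ?_
  rw [sum_add_distrib, sum_add_distrib, Equiv.sum_comp σ (fun i : Fin w => (i : ℕ)),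
    Fin.sum_univ_eq_sum_range (fun i => i) w]
  simp only [sum_const, card_univ, Fintype.card_fin, smul_eq_mul, mul_one]
  have h2 := sum_range_id_mul_two w
  rcases Nat.eq_zero_or_pos w with rfl | hw
  · simp
  · obtain ⟨v, rfl⟩ : ∃ v, w = v + 1 := ⟨w - 1, by omega⟩
    rw [Nat.add_sub_cancel] at h2
    nlinarith

theorem sum_mult_le {D : K[X]} (hD : D ≠ 0) {t : ℕ} {Q : Finset ℕ}
    (h : ∀ q ∈ Q, ∀ z ∈ primitiveRoots q K, (X - C z) ^ t ∣ D) :
    t * ∑ q ∈ Q, (primitiveRoots q K).card ≤ D.natDegree := by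
  classical
  obtain ⟨Z, hZ⟩ : ∃ Z, Z = Q.biUnion fun q => primitiveRoots q K := ⟨_, rfl⟩
  have hZc : Z.card = ∑ q ∈ Q, (primitiveRoots q K).card := by
    rw [hZ]
    exact card_biUnion fun q _ q' _ hne => IsPrimitiveRoot.disjoint hne
  have h1 : ∏ z ∈ Z, (X - C z) ^ t ∣ D := by
    refine Finset.prod_dvd_of_coprime ?_ fun z hz => ?_
    · intro z _ z' _ hne
      exact (isCoprime_X_sub_C_of_isUnit_sub (sub_ne_zero.2 hne).isUnit).pow
    · rw [hZ, mem_biUnion] at hz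
      obtain ⟨q, hq, hz⟩ := hz
      exact h q hq z hz
  have h2 := natDegree_le_of_dvd h1 hD
  rw [natDegree_prod_of_monic _ _ fun z _ => (monic_X_sub_C z).pow t] at h2
  simp only [natDegree_pow, natDegree_X_sub_C, mul_one, sum_const, smul_eq_mul] at h2
  rw [hZc] at h2
  linarith

theorem rb_count {F : K[X]} {N L r t : ℕ} (hL : 0 < L) (hdeg : F.natDegree ≤ N) (ht : 1 ≤ t)
    (hB : (F.support.filter fun i => ¬ i ≡ r [MOD L]).card ≤ t) (hbig : 3 * t < F.support.card)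
    {Q : Finset ℕ}
    (hQ : ∀ q ∈ Q, q.Prime ∧ Nat.Coprime L q ∧ ∃ x : K, IsPrimitiveRoot x q)
    (hvan : ∀ q ∈ Q, ∀ x : K, x ^ q = 1 → F.eval x = 0) :
    ∑ q ∈ Q, (q - 1) ≤ 4 * t * (N / L) := by
  classical
  obtain ⟨B, hBd⟩ : ∃ B, B = F.support.filter fun i => ¬ i ≡ r [MOD L] := ⟨_, rfl⟩
  obtain ⟨A, hA⟩ : ∃ A, A = F.support.filter fun i => i ≡ r [MOD L] := ⟨_, rfl⟩
  rw [← hBd] at hB
  have hcard : A.card + B.card = F.support.card := by
    rw [hA, hBd]
    exact card_filter_add_card_filter_not _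
  have hAc : 2 * t ≤ A.card := by omega
  have hAne : A.Nonempty := card_pos.1 (by omega)
  obtain ⟨s, hs⟩ : ∃ s, s = A.min' hAne := ⟨_, rfl⟩
  have hsA : s ∈ A := hs ▸ A.min'_mem hAne
  have hsmin : ∀ a ∈ A, s ≤ a := fun a ha => hs ▸ A.min'_le a ha
  have hmA : ∀ a, a ∈ A ↔ F.coeff a ≠ 0 ∧ a ≡ r [MOD L] := by
    intro a
    rw [hA, mem_filter, mem_support_iff]
  have hmB : ∀ a, a ∈ B ↔ F.coeff a ≠ 0 ∧ ¬ a ≡ r [MOD L] := by
    intro a
    rw [hBd, mem_filter, mem_support_iff]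
  have hAs : ∀ a ∈ A, s ≤ a ∧ L ∣ a - s := by
    intro a ha
    refine ⟨hsmin a ha, (Nat.modEq_iff_dvd' (hsmin a ha)).1 ?_⟩
    exact ((hmA s).1 hsA).2.trans ((hmA a).1 ha).2.symm
  obtain ⟨G, hG⟩ := exists_cls F hL hdeg s
  have hG0 : G ≠ 0 := by
    rintro rfl
    have := hG 0
    rw [mul_zero, add_zero, coeff_zero] at this
    exact ((hmA s).1 hsA).1 this.symm
  have hd := cls_deg hdeg hG hG0
  have hd' : G.natDegree ≤ N / L := (Nat.le_div_iff_mul_le hL).2 (by rw [mul_comm]; omega)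
  have hGc : 2 * t ≤ G.support.card := by
    refine hAc.trans ?_
    refine (card_le_card (t := G.support.image fun i => s + L * i) ?_).trans card_image_le
    intro a ha
    obtain ⟨h1, c, hc⟩ := hAs a ha
    rw [mem_image]
    refine ⟨c, ?_, by omega⟩
    rw [mem_support_iff, hG]
    have h2 : s + L * c = a := by omega
    rw [h2]
    exact ((hmA a).1 ha).1
  have hF : F = X ^ s * expand K L G + ∑ a ∈ B, C (F.coeff a) * X ^ a := by
    ext i
    rw [coeff_add, part_coeff hL hG, finset_sum_coeff]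
    simp only [coeff_C_mul_X_pow]
    rw [sum_ite_eq B i]
    by_cases hi : F.coeff i = 0
    · rw [hi]
      simp
    · by_cases h1 : i ≡ r [MOD L]
      · have h2 : i ∈ A := (hmA i).2 ⟨hi, h1⟩
        rw [if_pos (hAs i h2), if_neg, add_zero]
        rw [hmB]
        exact fun h3 => h3.2 h1
      · rw [if_neg, if_pos ((hmB i).2 ⟨hi, h1⟩), zero_add]
        rintro ⟨h3, h4⟩
        apply h1
        exact ((Nat.modEq_iff_dvd' h3).2 h4).symm.trans ((hmA s).1 hsA).2
  have hdvd : ∀ q ∈ Q, ∀ z ∈ primitiveRoots q K, (X - C z) ^ t ∣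
      Matrix.det (Matrix.of fun i j : Fin (2 * t) => expand K (1 + (i : ℕ) + j) G) := by
    intro q hq z hz
    obtain ⟨hqp, hqL, -⟩ := hQ q hq
    have hzq := ((mem_primitiveRoots hqp.pos).1 hz).pow_eq_one
    obtain ⟨L', -, hL'⟩ := Nat.exists_mul_mod_eq_one_of_coprime hqL hqp.one_lt
    obtain ⟨x, hx⟩ : ∃ x : K, x = z ^ L' := ⟨_, rfl⟩
    have hxq : x ^ q = 1 := by rw [hx, ← pow_mul, mul_comm, pow_mul, hzq, one_pow]
    have hxL : x ^ L = z := by
      rw [hx, ← pow_mul, mul_comm, ← Nat.div_add_mod (L * L') q, hL', pow_add, pow_mul, hzq,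
        one_pow, one_mul, pow_one]
    have hx0 : x ≠ 0 := by
      rintro h0
      rw [h0, zero_pow hqp.ne_zero] at hxq
      exact zero_ne_one hxq
    have hseq : ∀ m : ℕ, G.eval (z ^ m) = ∑ a ∈ B, -(F.coeff a) * (x ^ a * x⁻¹ ^ s) ^ m := by
      intro m
      have h1 : F.eval (x ^ m) = 0 := hvan q hq _ (by rw [← pow_mul, mul_comm, pow_mul, hxq, one_pow])
      rw [hF, eval_add, eval_mul, expand_eval, eval_pow, eval_X, eval_finset_sum,
        pow_right_comm x m L, hxL] at h1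
      have h2 : ∑ a ∈ B, eval (x ^ m) (C (F.coeff a) * X ^ a) = ∑ a ∈ B, F.coeff a * (x ^ m) ^ a := by
        refine sum_congr rfl fun a _ => ?_
        rw [eval_mul, eval_C, eval_pow, eval_X]
      rw [h2] at h1
      have h3 : (x ^ m) ^ s ≠ 0 := pow_ne_zero _ (pow_ne_zero _ hx0)
      apply mul_left_cancel₀ h3
      rw [mul_sum, eq_neg_of_add_eq_zero_left h1, ← sum_neg_distrib]
      refine sum_congr rfl fun a _ => ?_
      have h4 : (x ^ m) ^ s * (x⁻¹ ^ s) ^ m = 1 := by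
        rw [pow_right_comm x m s, ← mul_pow, ← mul_pow, mul_inv_cancel₀ hx0, one_pow, one_pow]
      rw [mul_pow, pow_right_comm x a m]
      linear_combination (F.coeff a * (x ^ m) ^ a) * h4
    have h1 := det_dvd (B := B) (Matrix.of fun i j : Fin (2 * t) => expand K (1 + (i : ℕ) + j) G) z
      (fun a i => -(F.coeff a) * (x ^ a * x⁻¹ ^ s) ^ (1 + (i : ℕ)))
      (fun a j => (x ^ a * x⁻¹ ^ s) ^ (j : ℕ)) (by
        intro i j
        rw [Matrix.of_apply, expand_eval, hseq]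
        refine sum_congr rfl fun a _ => ?_
        rw [mul_assoc, ← pow_add])
    exact (pow_dvd_pow _ (by omega)).trans h1
  have h1 := sum_mult_le (hankel_ne hGc) hdvd
  have h2 := h1.trans (det_natDegree_le G (2 * t))
  have h3 : ∑ q ∈ Q, (primitiveRoots q K).card = ∑ q ∈ Q, (q - 1) := by
    refine sum_congr rfl fun q hq => ?_
    obtain ⟨hqp, -, x0, hx0⟩ := hQ q hq
    rw [hx0.card_primitiveRoots, Nat.totient_prime hqp]
  rw [h3] at h2
  have h4 : t * ∑ q ∈ Q, (q - 1) ≤ t * (4 * t * (N / L)) := by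
    calc t * ∑ q ∈ Q, (q - 1) ≤ (2 * t) ^ 2 * G.natDegree := h2
      _ ≤ (2 * t) ^ 2 * (N / L) := Nat.mul_le_mul_left _ hd'
      _ = t * (4 * t * (N / L)) := by ring
  exact Nat.le_of_mul_le_mul_left h4 (by omega)

end

end Pool.Agent.H1.BL
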