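import Pool.Agent.H1.BL.Rbs
import Pool.Agent.H1.BL.Ext

/-!
Polynomials with coefficients in `{-1, 0, 1}` all of whose endpoints (of maximal progressions of
difference `d` in the support) but `t` lie in one residue class modulo `L`.
-/

namespace Pool.Agent.H1.BL

open Polynomial Finset

noncomputable section

theorem rb_ends : ∃ C : ℝ, 0 < C ∧ ∀ (n L d r t : ℕ) (p : ℤ[X]), 3 ≤ n → 1 ≤ L → L ≤ n →
    1 ≤ d → d ≤ n → 1 ≤ t → p ≠ 0 → p.natDegree ≤ n →
    (∀ i, p.coeff i = -1 ∨ p.coeff i = 0 ∨ p.coeff i = 1) →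
    ((range (n + d + 1)).filter fun j => ¬ (p.coeff j ≠ 0 ↔ d ≤ j ∧ p.coeff (j - d) ≠ 0) ∧
      ¬ j ≡ r [MOD L]).card ≤ t →
    (p.rootMultiplicity 1 : ℝ) ≤ C * Real.log n *
      (Real.sqrt (t * ((n : ℝ) / L + 2) / Real.log (t * ((n : ℝ) / L + 2)))
        + t * Real.log n / Real.log (t * Real.log n)) := by
  obtain ⟨C, hC, hrb⟩ := rb
  refine ⟨6 * C, by positivity, ?_⟩
  intro n L d r t p hn hL hLn hd hdn ht hp hdeg hco hcount
  have hn3 : (3 : ℝ) ≤ n := by exact_mod_cast hn
  have ht1 : (1 : ℝ) ≤ t := by exact_mod_cast ht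
  have hL1 : 1 < Real.log n := by
    rw [Real.lt_log_iff_exp_lt (by linarith)]
    linarith [Real.exp_one_lt_d9]
  have hL0 : (0 : ℝ) < L := by exact_mod_cast hL
  have hk : (X - 1) ^ p.rootMultiplicity 1 ∣ p := by
    have := pow_rootMultiplicity_dvd p 1
    rwa [map_one] at this
  have hcon : ((range (2 * n + 1)).filter fun j => ¬ ((2 : ℕ) : ℤ) ∣ (p * (X ^ d - 1)).coeff j ∧
      ¬ j ≡ r [MOD L]).card ≤ t := by
    refine (card_le_card ?_).trans hcount
    intro j hj
    rw [mem_filter] at hj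
    obtain ⟨-, hj, hjr⟩ := hj
    have hjN : j ≤ n + d := by
      by_contra hc
      apply hj
      rw [coeff_eq_zero_of_natDegree_lt (lt_of_le_of_lt (natDegree_le hdeg) (by omega))]
      exact dvd_zero _
    rw [mem_filter, mem_range]
    refine ⟨by omega, ?_, hjr⟩
    have h4 : (p * (X ^ d - 1)).coeff j = (if d ≤ j then p.coeff (j - d) else 0) - p.coeff j := by
      rw [mul_sub, mul_one, coeff_sub, coeff_mul_X_pow']
    rw [h4] at hj
    have h6 : (if d ≤ j then p.coeff (j - d) else 0) = -1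
        ∨ (if d ≤ j then p.coeff (j - d) else 0) = 0
        ∨ (if d ≤ j then p.coeff (j - d) else 0) = 1 := by
      split_ifs
      · exact hco _
      · simp
    rw [Nat.cast_ofNat, odd_iff (hco j) h6] at hj
    intro hiff
    rcases hj with ⟨h8, h9⟩ | ⟨h8, h9⟩
    · obtain ⟨h10, h11⟩ := hiff.1 h8
      rw [if_pos h10] at h9
      exact h11 h9
    · by_cases h : d ≤ j
      · rw [if_pos h] at h8
        exact hiff.2 ⟨h, h8⟩ h9
      · rw [if_neg h] at h8
        exact h8 rfl
  have h1 := hrb 2 Nat.prime_two p (X ^ d - 1) ((n : ℝ) + 1) (2 * n) L r t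
    (p.rootMultiplicity 1) (by linarith) (by omega) hL (by omega) ht (sum_abs_le hdeg hco)
    ((natDegree_le hdeg).trans (by omega)) (exists_odd hp hd hco) hcon hk
  have hNL : (0 : ℝ) ≤ (n : ℝ) / L := by positivity
  obtain ⟨m, hm⟩ : ∃ m : ℝ, m = t * ((n : ℝ) / L + 2) := ⟨_, rfl⟩
  have hm2 : 2 ≤ m := by
    rw [hm]
    nlinarith
  have hlm : 0 < Real.log m := Real.log_pos (by linarith)
  rw [← hm]
  have h2 : Real.log ((n : ℝ) + 1) ≤ 2 * Real.log n := by
    rw [show (2 : ℝ) * Real.log n = Real.log ((n : ℝ) ^ 2) by rw [Real.log_pow]; norm_num]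
    exact Real.log_le_log (by linarith) (by nlinarith)
  have h20 : 0 ≤ Real.log ((n : ℝ) + 1) := Real.log_nonneg (by linarith)
  obtain ⟨M, hM⟩ : ∃ M : ℝ, M = t * (((2 * n : ℕ) : ℝ) / L + 2) := ⟨_, rfl⟩
  have hM1 : m ≤ M := by
    rw [hm, hM]
    refine mul_le_mul_of_nonneg_left ?_ (by linarith)
    have : ((2 * n : ℕ) : ℝ) / L = 2 * ((n : ℝ) / L) := by
      push_cast
      ring
    linarith
  have hM2 : M ≤ 4 * m := by
    rw [hm, hM]
    have h5 : ((2 * n : ℕ) : ℝ) / L = 2 * ((n : ℝ) / L) := by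
      push_cast
      ring
    rw [h5]
    nlinarith
  rw [← hM] at h1
  have h3 : Real.sqrt (M / Real.log M) ≤ 2 * Real.sqrt (m / Real.log m) := by
    rw [show (2 : ℝ) * Real.sqrt (m / Real.log m) = Real.sqrt (2 ^ 2 * (m / Real.log m)) by
      rw [Real.sqrt_mul (by norm_num), Real.sqrt_sq (by norm_num)]]
    refine Real.sqrt_le_sqrt ?_
    have h5 : Real.log m ≤ Real.log M := Real.log_le_log (by linarith) hM1
    calc M / Real.log M ≤ M / Real.log m :=
          div_le_div_of_nonneg_left (by linarith) hlm h5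
      _ ≤ (4 * m) / Real.log m := div_le_div_of_nonneg_right hM2 hlm.le
      _ = 2 ^ 2 * (m / Real.log m) := by ring
  obtain ⟨R, hR⟩ : ∃ R : ℝ, R = t * Real.log (((2 : ℕ) : ℝ) * ((2 * n : ℕ) : ℝ)) := ⟨_, rfl⟩
  obtain ⟨S, hS⟩ : ∃ S : ℝ, S = t * Real.log n := ⟨_, rfl⟩
  have hS1 : 1 < S := by
    rw [hS]
    nlinarith
  have hLL : 0 < Real.log S := Real.log_pos hS1
  have hR1 : S ≤ R := by
    rw [hR, hS]
    refine mul_le_mul_of_nonneg_left (Real.log_le_log (by linarith) ?_) (by linarith)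
    push_cast
    linarith
  have hR3 : R ≤ 3 * S := by
    have h5 : Real.log (((2 : ℕ) : ℝ) * ((2 * n : ℕ) : ℝ)) ≤ 3 * Real.log n := by
      rw [show (3 : ℝ) * Real.log n = Real.log ((n : ℝ) ^ 3) by rw [Real.log_pow]; norm_num]
      refine Real.log_le_log (by push_cast; linarith) ?_
      push_cast
      nlinarith [mul_nonneg (sub_nonneg.2 hn3) (sub_nonneg.2 hn3)]
    rw [hR, hS]
    nlinarith
  have h4 : R / Real.log R ≤ 3 * (S / Real.log S) := by
    have h5 : Real.log S ≤ Real.log R := Real.log_le_log (by linarith) hR1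
    calc R / Real.log R ≤ R / Real.log S :=
          div_le_div_of_nonneg_left (by linarith) hLL h5
      _ ≤ 3 * S / Real.log S := div_le_div_of_nonneg_right hR3 hLL.le
      _ = 3 * (S / Real.log S) := by ring
  rw [← hR] at h1
  rw [← hS]
  have h5 : 0 ≤ Real.sqrt (m / Real.log m) := Real.sqrt_nonneg _
  have h6 : 0 ≤ S / Real.log S := div_nonneg (by linarith) hLL.le
  have h7 : 0 ≤ R / Real.log R := div_nonneg (by linarith) (Real.log_nonneg (by linarith))
  calc (p.rootMultiplicity 1 : ℝ)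
      ≤ C * Real.log ((n : ℝ) + 1) * (Real.sqrt (M / Real.log M) + R / Real.log R) := h1
    _ ≤ C * (2 * Real.log n) * (2 * Real.sqrt (m / Real.log m) + 3 * (S / Real.log S)) := by
        refine mul_le_mul (mul_le_mul_of_nonneg_left h2 hC.le) (add_le_add h3 h4) ?_
          (by positivity)
        exact add_nonneg (Real.sqrt_nonneg _) h7
    _ ≤ 6 * C * Real.log n * (Real.sqrt (m / Real.log m) + S / Real.log S) := by
        have h8 : 0 ≤ C * Real.log n := by positivity
        nlinarith [mul_nonneg h8 h5, mul_nonneg h8 h6]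

theorem rb_extremal {ε : ℝ} (hε : 0 < ε) : ∃ c : ℝ, 0 < c ∧ ∀ (n L d r : ℕ) (p : ℤ[X]), 3 ≤ n →
    1 ≤ L → L ≤ n → 1 ≤ d → d ≤ n → p ≠ 0 → p.natDegree ≤ n →
    (∀ i, p.coeff i = -1 ∨ p.coeff i = 0 ∨ p.coeff i = 1) →
    ε * Real.sqrt n ≤ p.rootMultiplicity 1 →
    c * min (L : ℝ) (Real.sqrt n) / Real.log n ≤
      ((range (n + d + 1)).filter fun j => ¬ (p.coeff j ≠ 0 ↔ d ≤ j ∧ p.coeff (j - d) ≠ 0) ∧
        ¬ j ≡ r [MOD L]).card + 1 := by
  obtain ⟨C, hC, hmain⟩ := rb_ends
  obtain ⟨c1, hc1, hmb⟩ := many_blocks hC (show 0 < ε / 2 by positivity)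
  obtain ⟨e, he⟩ : ∃ e : ℝ, e = ε / (2 * C) := ⟨_, rfl⟩
  have he0 : 0 < e := by rw [he]; positivity
  obtain ⟨D, hD1, hbd⟩ := bounded (δ := e ^ 2 * Real.log 2)
    (mul_pos (pow_pos he0 2) (Real.log_pos (by norm_num)))
  refine ⟨min c1 (min (e ^ 2 / 6) (1 / D)), lt_min hc1 (lt_min (by positivity) (by positivity)), ?_⟩
  intro n L d r p hn hL hLn hd hdn hp hdeg hco hk
  obtain ⟨t0, ht0⟩ : ∃ t0, t0 = ((range (n + d + 1)).filter fun j =>
    ¬ (p.coeff j ≠ 0 ↔ d ≤ j ∧ p.coeff (j - d) ≠ 0) ∧ ¬ j ≡ r [MOD L]).card := ⟨_, rfl⟩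
  rw [← ht0]
  have h1 := hmain n L d r (t0 + 1) p hn hL hLn hd hdn (by omega) hp hdeg hco
    (by rw [← ht0]; omega)
  obtain ⟨t, ht⟩ : ∃ t : ℕ, t = t0 + 1 := ⟨_, rfl⟩
  rw [← ht] at h1
  have htc : (t0 : ℝ) + 1 = t := by
    rw [ht]
    push_cast
    ring
  rw [htc]
  have ht1 : (1 : ℝ) ≤ t := by
    rw [ht]
    push_cast
    linarith [Nat.cast_nonneg (α := ℝ) t0]
  have hn3 : (3 : ℝ) ≤ n := by exact_mod_cast hn
  have hln1 : 1 < Real.log n := lt_of_lt_of_le log_three (Real.log_le_log (by norm_num) hn3)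
  have hL0 : (0 : ℝ) < L := by exact_mod_cast hL
  have hLn' : (L : ℝ) ≤ n := by exact_mod_cast hLn
  have hsn : 0 < Real.sqrt n := Real.sqrt_pos.2 (by linarith)
  have hsq : Real.sqrt n * Real.sqrt n = n := Real.mul_self_sqrt (by linarith)
  have hmin0 : 0 ≤ min (L : ℝ) (Real.sqrt n) := le_min hL0.le hsn.le
  have low : ∀ {c x : ℝ}, min c1 (min (e ^ 2 / 6) (1 / D)) ≤ c → min (L : ℝ) (Real.sqrt n) ≤ x →
      0 ≤ c → c * x / Real.log n ≤ t → min c1 (min (e ^ 2 / 6) (1 / D)) *
        min (L : ℝ) (Real.sqrt n) / Real.log n ≤ t := by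
    intro c x hc hx hc0 h
    refine le_trans (div_le_div_of_nonneg_right ?_ (by linarith)) h
    exact mul_le_mul hc hx hmin0 hc0
  obtain ⟨m, hm⟩ : ∃ m : ℝ, m = t * ((n : ℝ) / L + 2) := ⟨_, rfl⟩
  have hNL : (1 : ℝ) ≤ (n : ℝ) / L := by
    rw [le_div_iff₀ hL0]
    linarith
  have hm2 : 2 ≤ m := by
    rw [hm]
    nlinarith
  have hlm : 0 < Real.log m := Real.log_pos (by linarith)
  have hS1 : 1 < t * Real.log n := by nlinarith
  have hLL : 0 < Real.log (t * Real.log n) := Real.log_pos hS1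
  rw [← hm] at h1
  rcases le_or_gt (ε / 2 * Real.sqrt n)
    (C * Real.log n * (t * Real.log n / Real.log (t * Real.log n))) with h2 | h2
  · have h3 := hmb n t (ε / 2 * Real.sqrt n) hn (by omega) le_rfl (by
      rw [← mul_div_assoc, le_div_iff₀ hLL] at h2
      calc ε / 2 * Real.sqrt n * Real.log (t * Real.log n)
          ≤ C * Real.log n * (t * Real.log n) := h2
        _ = C * t * Real.log n ^ 2 := by ring)
    exact low (min_le_left _ _) (min_le_right _ _) hc1.le h3
  · have h5 : e * Real.sqrt n ≤ Real.log n * Real.sqrt (m / Real.log m) := by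
      have h6 : ε / 2 * Real.sqrt n ≤ C * Real.log n * Real.sqrt (m / Real.log m) := by
        linarith
      rw [he, div_mul_eq_mul_div, div_le_iff₀ (by positivity)]
      linarith
    have h6 : e ^ 2 * n ≤ Real.log n ^ 2 * (m / Real.log m) := by
      have h7 := pow_le_pow_left₀ (by positivity) h5 2
      rw [mul_pow, mul_pow, Real.sq_sqrt (by linarith), Real.sq_sqrt (by positivity)] at h7
      exact h7
    rcases le_or_gt (Real.sqrt n) m with h7 | h7
    · have h8 : Real.log n / 2 ≤ Real.log m := by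
        rw [← Real.log_sqrt (by linarith)]
        exact Real.log_le_log hsn h7
      have h9 : e ^ 2 * n ≤ 2 * Real.log n * m := by
        refine h6.trans ?_
        rw [← mul_div_assoc, div_le_iff₀ hlm]
        have h10 : Real.log n * (2 * m * (Real.log n / 2)) ≤ Real.log n * (2 * m * Real.log m) :=
          mul_le_mul_of_nonneg_left (mul_le_mul_of_nonneg_left h8 (by linarith)) (by linarith)
        nlinarith
      have h10 : m ≤ t * (3 * (n / L)) := by
        rw [hm]
        exact mul_le_mul_of_nonneg_left (by linarith) (by linarith)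
      have h11 : e ^ 2 * n ≤ 2 * Real.log n * (t * (3 * (n / L))) :=
        h9.trans (mul_le_mul_of_nonneg_left h10 (by linarith))
      have h12 : e ^ 2 * n * L ≤ 6 * Real.log n * t * n := by
        have h13 := mul_le_mul_of_nonneg_right h11 hL0.le
        have h14 : 2 * Real.log n * (t * (3 * (n / L))) * L = 6 * Real.log n * t * n := by
          field_simp
          ring
        rw [h14] at h13
        exact h13
      have h13 : n * (L * e ^ 2) ≤ n * (6 * Real.log n * t) := by linarith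
      have h14 : L * e ^ 2 ≤ 6 * Real.log n * t := le_of_mul_le_mul_left h13 (by linarith)
      refine low ((min_le_right _ _).trans (min_le_left _ _)) (min_le_left _ _) (by positivity) ?_
      rw [div_le_iff₀ (by linarith)]
      linarith
    · refine low ((min_le_right _ _).trans (min_le_right _ _)) (min_le_right _ _) (by positivity) ?_
      have hl2 : Real.log 2 ≤ Real.log m := Real.log_le_log (by norm_num) hm2
      have hl20 : 0 < Real.log 2 := Real.log_pos (by norm_num)
      have h8 : m / Real.log m ≤ Real.sqrt n / Real.log 2 :=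
        div_le_div₀ hsn.le h7.le hl20 hl2
      have h10 : e ^ 2 * n ≤ Real.log n ^ 2 * (Real.sqrt n / Real.log 2) :=
        h6.trans (mul_le_mul_of_nonneg_left h8 (by positivity))
      rw [← mul_div_assoc, le_div_iff₀ hl20] at h10
      have h12 : Real.sqrt n * (e ^ 2 * Real.log 2 * Real.sqrt n)
          ≤ Real.sqrt n * Real.log n ^ 2 := by
        calc Real.sqrt n * (e ^ 2 * Real.log 2 * Real.sqrt n)
            = e ^ 2 * (Real.sqrt n * Real.sqrt n) * Real.log 2 := by ring
          _ = e ^ 2 * n * Real.log 2 := by rw [hsq]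
          _ ≤ Real.log n ^ 2 * Real.sqrt n := h10
          _ = Real.sqrt n * Real.log n ^ 2 := by ring
      have h13 := hbd n hn (le_of_mul_le_mul_left h12 hsn)
      have hD0 : 0 < D := by linarith
      calc 1 / D * Real.sqrt n / Real.log n ≤ 1 / D * D / Real.log n := by
            refine div_le_div_of_nonneg_right ?_ (by linarith)
            exact mul_le_mul_of_nonneg_left h13 (by positivity)
        _ = 1 / Real.log n := by rw [one_div_mul_cancel hD0.ne']
        _ ≤ 1 := by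
            rw [div_le_one (by linarith)]
            exact hln1.le
        _ ≤ t := ht1

end

end Pool.Agent.H1.BL
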