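import Pool.Agent.H1.BL.Rbc

/-!
Reductions modulo `l` all of whose exponents but `t` lie in one residue class modulo `L`.
-/

namespace Pool.Agent.H1.BL

open Polynomial Finset

noncomputable section

theorem rb_step {l : ℕ} (hl : l.Prime) {p h : ℤ[X]} {k N L r t : ℕ} (hk0 : k ≠ 0)
    (hk : (X - 1) ^ k ∣ p) {H : ℝ} (hH1 : 1 ≤ H)
    (hH : ∑ i ∈ p.support, |(p.coeff i : ℝ)| ≤ H) (hN : 3 ≤ N) (hL : 1 ≤ L) (hLN : L ≤ N)
    (ht : 1 ≤ t) (hdeg : (p * h).natDegree ≤ N) (hne : ∃ j, ¬ (l : ℤ) ∣ (p * h).coeff j)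
    (hcon : ((range (N + 1)).filter fun j => ¬ (l : ℤ) ∣ (p * h).coeff j ∧ ¬ j ≡ r [MOD L]).card ≤ t)
    {y : ℝ} (hy0 : 0 ≤ y)
    (hy : ∀ q : ℕ, q.Prime → (q : ℝ) ≤ y → ((q : ℝ) - 1) * Real.log H < k * Real.log q) :
    ∃ V : Finset ℕ, (∀ q ∈ V, q.Prime ∧ (q : ℝ) ≤ y) ∧
      ∑ q ∈ V, (q : ℝ) ≤ 8 * t * ((N : ℝ) / L) ∧
      Chebyshev.theta y ≤ ∑ q ∈ V, Real.log q + 3 * t * Real.log (l * N) := by
  classical
  haveI : Fact l.Prime := ⟨hl⟩
  obtain ⟨φ, hφ⟩ : ∃ φ : ℤ →+* AlgebraicClosure (ZMod l),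
    φ = Int.castRingHom (AlgebraicClosure (ZMod l)) := ⟨_, rfl⟩
  have hφ0 : ∀ a : ℤ, φ a = 0 ↔ (l : ℤ) ∣ a := by
    intro a
    rw [hφ, eq_intCast, CharP.intCast_eq_zero_iff (AlgebraicClosure (ZMod l)) l]
  obtain ⟨F, hF⟩ : ∃ F : (AlgebraicClosure (ZMod l))[X], F = (p * h).map φ := ⟨_, rfl⟩
  have hco : ∀ j, F.coeff j ≠ 0 ↔ ¬ (l : ℤ) ∣ (p * h).coeff j := by
    intro j
    rw [hF, coeff_map, Ne, hφ0]
  have hFdeg : F.natDegree ≤ N := by
    rw [hF]
    exact natDegree_map_le.trans hdeg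
  have hB : (F.support.filter fun i => ¬ i ≡ r [MOD L]).card ≤ t := by
    refine (card_le_card ?_).trans hcon
    intro j hj
    rw [mem_filter, mem_support_iff] at hj
    rw [mem_filter, mem_range]
    have h1 := le_natDegree_of_ne_zero hj.1
    exact ⟨by omega, (hco j).1 hj.1, hj.2⟩
  have hN1 : (1 : ℝ) ≤ N := by exact_mod_cast (by omega : 1 ≤ N)
  have hl1 : (1 : ℝ) ≤ l := by exact_mod_cast hl.one_lt.le
  have ht1 : (1 : ℝ) ≤ t := by exact_mod_cast ht
  have hlN : Real.log N ≤ Real.log (l * N) := Real.log_le_log (by linarith) (by nlinarith)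
  have hlN0 : 0 ≤ Real.log N := Real.log_nonneg hN1
  have hvan : ∀ q : ℕ, q.Prime → (q : ℝ) ≤ y → X ^ q - 1 ∣ F := by
    intro q hq hqy
    have := Polynomial.map_dvd φ ((forced hq hk0 hk hH1 hH (hy q hq hqy)).mul_right h)
    rw [hF]
    simpa using this
  rcases le_or_gt F.support.card (3 * t) with hfew | hbig
  · refine ⟨∅, by simp, ?_, ?_⟩
    · rw [sum_empty]
      positivity
    · obtain ⟨i, hi⟩ := hne
      have hiF : i ∈ F.support := mem_support_iff.2 ((hco i).2 hi)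
      have h1 := log_prod_le (N := N) (t := 3 * t) (S := F.support)
        (Q := (Ioc 0 ⌊y⌋₊).filter Nat.Prime) (by omega)
        (fun j hj => (le_natDegree_of_mem_supp j hj).trans hFdeg) hfew hiF
        (fun q hq => (mem_filter.1 hq).2) (fun q hq => by
          rw [mem_filter, mem_Ioc] at hq
          have h2 : (q : ℝ) ≤ y := le_trans (by exact_mod_cast hq.1.2) (Nat.floor_le hy0)
          obtain ⟨j, hji, hj, hd⟩ := exists_partner hq.2.pos (hvan q hq.2 h2)
            (mem_support_iff.1 hiF)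
          exact ⟨j, mem_support_iff.2 hj, hji, hd⟩)
      rw [sum_empty, zero_add]
      calc Chebyshev.theta y = ∑ q ∈ (Ioc 0 ⌊y⌋₊).filter Nat.Prime, Real.log q := rfl
        _ ≤ (3 * t : ℕ) * Real.log N := h1
        _ = 3 * t * Real.log N := by push_cast; ring
        _ ≤ 3 * t * Real.log (l * N) := mul_le_mul_of_nonneg_left hlN (by positivity)
  · obtain ⟨d, hd⟩ : ∃ d, d = l * L := ⟨_, rfl⟩
    have hd0 : 0 < d := by
      rw [hd]
      exact Nat.mul_pos hl.pos hL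
    have hQ : ∀ q ∈ W d y, q.Prime ∧ Nat.Coprime L q ∧
        ∃ x : AlgebraicClosure (ZMod l), IsPrimitiveRoot x q := by
      intro q hq
      rw [mem_W hy0] at hq
      obtain ⟨hqp, hqd, hqy⟩ := hq
      refine ⟨hqp, ?_, ?_⟩
      · rw [Nat.coprime_comm, Nat.Prime.coprime_iff_not_dvd hqp]
        intro h1
        apply hqd
        rw [hd]
        exact h1.mul_left l
      · haveI : NeZero (q : AlgebraicClosure (ZMod l)) := by
          refine ⟨fun h0 => hqd ?_⟩
          rw [CharP.cast_eq_zero_iff (AlgebraicClosure (ZMod l)) l] at h0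
          rcases (Nat.dvd_prime hqp).1 h0 with h3 | h3
          · exact absurd h3 hl.one_lt.ne'
          · rw [hd, ← h3]
            exact dvd_mul_right _ _
        exact HasEnoughRootsOfUnity.exists_primitiveRoot _ q
    have hvan' : ∀ q ∈ W d y, ∀ x : AlgebraicClosure (ZMod l), x ^ q = 1 → F.eval x = 0 := by
      intro q hq x hx
      rw [mem_W hy0] at hq
      obtain ⟨A, hA⟩ := hvan q hq.1 hq.2.2
      rw [hA, eval_mul, eval_sub, eval_pow, eval_X, eval_one, hx, sub_self, zero_mul]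
    have hsum := rb_count hL hFdeg ht hB hbig hQ hvan'
    refine ⟨W d y, fun q hq => ?_, ?_, ?_⟩
    · rw [mem_W hy0] at hq
      exact ⟨hq.1, hq.2.2⟩
    · have h1 : ∑ q ∈ W d y, q ≤ 2 * (4 * t * (N / L)) := by
        calc ∑ q ∈ W d y, q ≤ ∑ q ∈ W d y, 2 * (q - 1) := by
              refine sum_le_sum fun q hq => ?_
              rw [mem_W hy0] at hq
              have := hq.1.two_le
              omega
          _ = 2 * ∑ q ∈ W d y, (q - 1) := by rw [mul_sum]
          _ ≤ 2 * (4 * t * (N / L)) := Nat.mul_le_mul_left 2 hsum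
      have h2 := (Nat.cast_le (α := ℝ)).2 h1
      push_cast at h2
      have h3 : ((N / L : ℕ) : ℝ) ≤ (N : ℝ) / L := Nat.cast_div_le
      have h4 : 8 * (t : ℝ) * ((N / L : ℕ) : ℝ) ≤ 8 * t * ((N : ℝ) / L) :=
        mul_le_mul_of_nonneg_left h3 (by positivity)
      linarith
    · have h1 := theta_le_W hd0 y
      have h2 : Real.log (d : ℝ) ≤ Real.log (l * N) := by
        rw [hd]
        push_cast
        refine Real.log_le_log (by positivity) ?_
        exact mul_le_mul_of_nonneg_left (by exact_mod_cast hLN) (by linarith)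
      have h3 : Real.log (l * N) ≤ 3 * t * Real.log (l * N) := by
        have : 0 ≤ Real.log (l * N) := by linarith
        nlinarith
      linarith

theorem rb : ∃ C : ℝ, 0 < C ∧ ∀ l : ℕ, l.Prime → ∀ (p h : ℤ[X]) (H : ℝ) (N L r t k : ℕ),
    2 ≤ H → 3 ≤ N → 1 ≤ L → L ≤ N → 1 ≤ t → ∑ i ∈ p.support, |(p.coeff i : ℝ)| ≤ H →
    (p * h).natDegree ≤ N → (∃ j, ¬ (l : ℤ) ∣ (p * h).coeff j) →
    ((range (N + 1)).filter fun j => ¬ (l : ℤ) ∣ (p * h).coeff j ∧ ¬ j ≡ r [MOD L]).card ≤ t →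
    (X - 1) ^ k ∣ p →
    (k : ℝ) ≤ C * Real.log H *
      (Real.sqrt (t * ((N : ℝ) / L + 2) / Real.log (t * ((N : ℝ) / L + 2)))
        + t * Real.log (l * N) / Real.log (t * Real.log (l * N))) := by
  obtain ⟨C, hC, hfin⟩ := finish
  refine ⟨2 * C, by positivity, ?_⟩
  intro l hl p h H N L r t k hH2 hN hL hLN ht hH hdeg hne hcon hk
  have hN3 : (3 : ℝ) ≤ N := by exact_mod_cast hN
  have hl2 : (2 : ℝ) ≤ l := by exact_mod_cast hl.two_le
  have ht1 : (1 : ℝ) ≤ t := by exact_mod_cast ht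
  have hH0 : 0 < Real.log H := Real.log_pos (by linarith)
  have hL0 : (0 : ℝ) < L := by exact_mod_cast hL
  have hR1 : 1 < Real.log (l * N) := by
    rw [Real.lt_log_iff_exp_lt (by positivity)]
    nlinarith [Real.exp_one_lt_d9]
  obtain ⟨R, hR⟩ : ∃ R : ℝ, R = t * Real.log (l * N) := ⟨_, rfl⟩
  have hR1' : 1 < R := by
    rw [hR]
    nlinarith
  have hRR : 0 < Real.log R := Real.log_pos hR1'
  obtain ⟨m, hm⟩ : ∃ m : ℝ, m = t * ((N : ℝ) / L + 2) := ⟨_, rfl⟩
  have hNL : (0 : ℝ) ≤ (N : ℝ) / L := by positivity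
  have hm2 : 2 ≤ m := by
    rw [hm]
    nlinarith
  have hlm : 0 < Real.log m := Real.log_pos (by linarith)
  rw [← hm, ← hR]
  have hs0 : 0 ≤ Real.sqrt (m / Real.log m) := Real.sqrt_nonneg _
  have hR0 : 0 ≤ R / Real.log R := div_nonneg (by linarith) hRR.le
  rcases Nat.eq_zero_or_pos k with rfl | hk0
  · simp only [Nat.cast_zero]
    positivity
  have h1 := hfin H k (4 * m) R hH2 (by linarith) hR1' (by
    intro y hy2 hy
    obtain ⟨V, hV, hV1, hV2⟩ := rb_step hl hk0.ne' hk (by linarith) hH hN hL hLN ht hdeg hne hcon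
      (by linarith) hy
    refine ⟨V, hV, ?_, ?_⟩
    · refine hV1.trans ?_
      rw [hm]
      nlinarith
    · rw [hR]
      rw [hR] at hR1'
      linarith)
  have h2 : Real.sqrt (4 * m / Real.log (4 * m)) ≤ 2 * Real.sqrt (m / Real.log m) := by
    rw [show (2 : ℝ) * Real.sqrt (m / Real.log m) = Real.sqrt (2 ^ 2 * (m / Real.log m)) by
      rw [Real.sqrt_mul (by norm_num), Real.sqrt_sq (by norm_num)]]
    refine Real.sqrt_le_sqrt ?_
    have h4 : Real.log m ≤ Real.log (4 * m) := Real.log_le_log (by linarith) (by linarith)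
    calc 4 * m / Real.log (4 * m) ≤ 4 * m / Real.log m :=
          div_le_div_of_nonneg_left (by linarith) hlm h4
      _ = 2 ^ 2 * (m / Real.log m) := by ring
  calc (k : ℝ) ≤ C * Real.log H * (Real.sqrt (4 * m / Real.log (4 * m)) + R / Real.log R) := h1
    _ ≤ C * Real.log H * (2 * (Real.sqrt (m / Real.log m) + R / Real.log R)) := by
        refine mul_le_mul_of_nonneg_left ?_ (by positivity)
        linarith
    _ = 2 * C * Real.log H * (Real.sqrt (m / Real.log m) + R / Real.log R) := by ring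

end

end Pool.Agent.H1.BL
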