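import Pool.Agent.H1.BL.Ext
import Pool.Agent.H1.BL.Low

/-!
The parts of the final statement about progressions and zero coefficients, with one constant.
-/

namespace Pool.Agent.H1.BL

open Polynomial Finset

noncomputable section

theorem one_le_starts {p : ℤ[X]} (hp : p ≠ 0) {d : ℕ} (hd : 1 ≤ d) :
    1 ≤ (p.support.filter fun j => j < d ∨ p.coeff (j - d) = 0).card := by
  refine card_pos.2 ⟨p.natTrailingDegree, ?_⟩
  rw [mem_filter, mem_support_iff]
  refine ⟨trailingCoeff_nonzero_iff_nonzero.2 hp, ?_⟩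
  by_contra hcon
  push_neg at hcon
  have := natTrailingDegree_le_of_ne_zero hcon.2
  omega

theorem prog : ∃ C : ℝ, 0 < C ∧ ∀ (n d r : ℕ) (p : ℤ[X]), 3 ≤ n → 1 ≤ d → d ≤ n → p ≠ 0 →
    p.natDegree ≤ n → (∀ i, p.coeff i = -1 ∨ p.coeff i = 0 ∨ p.coeff i = 1) →
    (p.support.filter fun j => j < d ∨ p.coeff (j - d) = 0).card ≤ r →
    (p.rootMultiplicity 1 : ℝ) * Real.log (r * Real.log n) ≤ C * r * Real.log n ^ 2 := by
  obtain ⟨C, hC, h⟩ := core
  exact ⟨8 * C, by positivity, fun n d r p hn hd hdn hp hdeg hco hr =>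
    progressions hC h hn hd hdn hp hdeg hco hr⟩

theorem extremal_prog {ε : ℝ} (hε : 0 < ε) : ∃ c : ℝ, 0 < c ∧ ∀ (n : ℕ) (p : ℤ[X]), 3 ≤ n →
    p ≠ 0 → p.natDegree ≤ n → (∀ i, p.coeff i = -1 ∨ p.coeff i = 0 ∨ p.coeff i = 1) →
    ε * Real.sqrt n ≤ p.rootMultiplicity 1 →
    (∀ d, 1 ≤ d → d ≤ n → c * Real.sqrt n / Real.log n
      ≤ (p.support.filter fun j => j < d ∨ p.coeff (j - d) = 0).card) ∧
    c * Real.sqrt n / Real.log n ≤ ((range (n + 1)).filter fun j => p.coeff j = 0).card + 1 := by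
  obtain ⟨C, hC, h⟩ := prog
  obtain ⟨c, hc, hmb⟩ := many_blocks hC hε
  refine ⟨c, hc, fun n p hn hp hdeg hco hk => ?_⟩
  have key : ∀ d, 1 ≤ d → d ≤ n → c * Real.sqrt n / Real.log n
      ≤ (p.support.filter fun j => j < d ∨ p.coeff (j - d) = 0).card :=
    fun d hd hdn => hmb n _ _ hn (one_le_starts hp hd) hk (h n d _ p hn hd hdn hp hdeg hco le_rfl)
  refine ⟨key, (key 1 le_rfl (by omega)).trans ?_⟩
  exact_mod_cast blocks_le hdeg le_rfl

end

end Pool.Agent.H1.BL
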