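import Pool.Agent.H1.BL.Two2
import Pool.Agent.H1.BL.Fns

/-!
Reductions modulo `l` whose exponents lie in at most two residue classes modulo `L`.
-/

namespace Pool.Agent.H1.BL

open Polynomial Finset

noncomputable section

variable {K : Type*} [Field K]

theorem exists_cls (F : K[X]) {N L : ℕ} (hL : 0 < L) (hdeg : F.natDegree ≤ N) (s : ℕ) :
    ∃ G : K[X], ∀ i, G.coeff i = F.coeff (s + L * i) := by
  refine ⟨∑ i ∈ range (N + 1), monomial i (F.coeff (s + L * i)), fun i => ?_⟩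
  rw [finset_sum_coeff]
  simp only [coeff_monomial]
  rw [sum_ite_eq' (range (N + 1)) i]
  split_ifs with h
  · rfl
  · rw [mem_range] at h
    rw [coeff_eq_zero_of_natDegree_lt]
    have : i ≤ L * i := Nat.le_mul_of_pos_left i hL
    omega

theorem part_coeff {F G : K[X]} {L s : ℕ} (hL : 0 < L) (hG : ∀ i, G.coeff i = F.coeff (s + L * i))
    (j : ℕ) : (X ^ s * expand K L G).coeff j = if s ≤ j ∧ L ∣ j - s then F.coeff j else 0 := by
  rw [coeff_X_pow_mul', coeff_expand hL]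
  by_cases h1 : s ≤ j
  · by_cases h2 : L ∣ j - s
    · rw [if_pos h1, if_pos h2, if_pos ⟨h1, h2⟩, hG, Nat.mul_div_cancel' h2, Nat.add_sub_cancel' h1]
    · rw [if_pos h1, if_neg h2, if_neg (fun h => h2 h.2)]
  · rw [if_neg h1, if_neg (fun h => h1 h.1)]

theorem cls_deg {F G : K[X]} {N L s : ℕ} (hdeg : F.natDegree ≤ N)
    (hG : ∀ i, G.coeff i = F.coeff (s + L * i)) (h0 : G ≠ 0) : s + L * G.natDegree ≤ N := by
  have h1 : F.coeff (s + L * G.natDegree) ≠ 0 := by
    rw [← hG]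
    exact leadingCoeff_ne_zero.2 h0
  exact (le_natDegree_of_ne_zero h1).trans hdeg

theorem tc_count [IsAlgClosed K] {j : ℕ} (hj : j.Prime) (hjK : (j : K) ≠ 0) {F : K[X]}
    (hF : F ≠ 0) {N L e1 e2 : ℕ} (hN : 1 ≤ N) (hL : 0 < L) (hdeg : F.natDegree ≤ N)
    (hcon : ∀ i, F.coeff i ≠ 0 → i ≡ e1 [MOD L] ∨ i ≡ e2 [MOD L]) :
    ∃ E : ℕ, 0 < E ∧ E ≤ N ∧ ∀ Q : Finset ℕ,
      (∀ q ∈ Q, q.Prime ∧ Nat.Coprime L q ∧ q ≠ j ∧ ¬ q ∣ E ∧ ∃ x : K, IsPrimitiveRoot x q) →
      (∀ q ∈ Q, ∀ x : K, x ^ q = 1 → F.eval x = 0) →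
      ∑ q ∈ Q, (q - 2) ≤ (2 * j + 2) * (N / L) := by
  classical
  obtain ⟨s1, hs1⟩ : ∃ s1, s1 = F.natTrailingDegree := ⟨_, rfl⟩
  have hs1F : F.coeff s1 ≠ 0 := by
    rw [hs1]
    exact trailingCoeff_nonzero_iff_nonzero.2 hF
  have hmin : ∀ i, F.coeff i ≠ 0 → s1 ≤ i := fun i hi => hs1 ▸ natTrailingDegree_le_of_ne_zero hi
  obtain ⟨G1, hG1⟩ := exists_cls F hL hdeg s1
  have hG10 : G1 ≠ 0 := by
    rintro rfl
    have := hG1 0
    rw [mul_zero, add_zero, coeff_zero] at this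
    exact hs1F this.symm
  have hd1 := cls_deg hdeg hG1 hG10
  have hd1' : G1.natDegree ≤ N / L := (Nat.le_div_iff_mul_le hL).2 (by rw [mul_comm]; omega)
  by_cases hone : ∀ i, F.coeff i ≠ 0 → i ≡ s1 [MOD L]
  · refine ⟨1, one_pos, hN, fun Q hQ hvan => ?_⟩
    have hF1 : F = X ^ s1 * expand K L G1 := by
      ext i
      rw [part_coeff hL hG1]
      by_cases hi : F.coeff i = 0
      · split_ifs
        · rfl
        · exact hi
      · rw [if_pos]
        exact ⟨hmin i hi, (Nat.modEq_iff_dvd' (hmin i hi)).1 (hone i hi).symm⟩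
    have hcard : ∀ q ∈ Q, q - 2 ≤ (Zs G1 1 q).card := by
      intro q hq
      obtain ⟨hqp, hqL, -, -, x0, hx0⟩ := hQ q hq
      have hsub : primitiveRoots q K ⊆ Zs G1 1 q := by
        intro z hz
        rw [Zs, mem_filter, pow_one]
        refine ⟨hz, ?_⟩
        have hzq := ((mem_primitiveRoots hqp.pos).1 hz).pow_eq_one
        obtain ⟨L', -, hL'⟩ := Nat.exists_mul_mod_eq_one_of_coprime hqL hqp.one_lt
        have hx : (z ^ L') ^ q = 1 := by rw [← pow_mul, mul_comm, pow_mul, hzq, one_pow]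
        have hxL : (z ^ L') ^ L = z := by
          rw [← pow_mul, mul_comm, ← Nat.div_add_mod (L * L') q, hL', pow_add, pow_mul, hzq,
            one_pow, one_mul, pow_one]
        have h5 := hvan q hq _ hx
        rw [hF1, eval_mul, expand_eval, hxL, eval_pow, eval_X] at h5
        refine (mul_eq_zero.1 h5).resolve_left (pow_ne_zero _ ?_)
        intro h6
        rw [h6, zero_pow hqp.ne_zero] at hx
        exact zero_ne_one hx
      have h4 := card_le_card hsub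
      rw [hx0.card_primitiveRoots, Nat.totient_prime hqp] at h4
      omega
    calc ∑ q ∈ Q, (q - 2) ≤ ∑ q ∈ Q, (Zs G1 1 q).card := sum_le_sum hcard
      _ ≤ G1.natDegree := sum_Zs_le hG10 fun q hq => (hQ q hq).1.pos
      _ ≤ N / L := hd1'
      _ ≤ (2 * j + 2) * (N / L) := Nat.le_mul_of_pos_left _ (by omega)
  · push_neg at hone
    obtain ⟨s2, ⟨hs2F, hs2n⟩, hs2min⟩ : ∃ s2, (F.coeff s2 ≠ 0 ∧ ¬ s2 ≡ s1 [MOD L]) ∧
        ∀ i, F.coeff i ≠ 0 ∧ ¬ i ≡ s1 [MOD L] → s2 ≤ i :=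
      ⟨Nat.find hone, Nat.find_spec hone, fun i hi => Nat.find_min' hone hi⟩
    obtain ⟨G2, hG2⟩ := exists_cls F hL hdeg s2
    have hG20 : G2 ≠ 0 := by
      rintro rfl
      have := hG2 0
      rw [mul_zero, add_zero, coeff_zero] at this
      exact hs2F this.symm
    have hd2 := cls_deg hdeg hG2 hG20
    have hd2' : G2.natDegree ≤ N / L := (Nat.le_div_iff_mul_le hL).2 (by rw [mul_comm]; omega)
    have hcl : ∀ i, F.coeff i ≠ 0 → ¬ i ≡ s1 [MOD L] → i ≡ s2 [MOD L] := by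
      intro i hi hn
      have h1 := hcon i hi
      have h2 := hcon s1 hs1F
      have h3 := hcon s2 hs2F
      rcases h2 with h2 | h2
      · rcases h1 with h1 | h1
        · exact absurd (h1.trans h2.symm) hn
        · rcases h3 with h3 | h3
          · exact absurd (h3.trans h2.symm) hs2n
          · exact h1.trans h3.symm
      · rcases h1 with h1 | h1
        · rcases h3 with h3 | h3
          · exact h1.trans h3.symm
          · exact absurd (h3.trans h2.symm) hs2n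
        · exact absurd (h1.trans h2.symm) hn
    have hF2 : F = X ^ s1 * expand K L G1 + X ^ s2 * expand K L G2 := by
      ext i
      rw [coeff_add, part_coeff hL hG1, part_coeff hL hG2]
      by_cases hi : F.coeff i = 0
      · rw [hi]
        simp
      · by_cases h1 : i ≡ s1 [MOD L]
        · rw [if_pos ⟨hmin i hi, (Nat.modEq_iff_dvd' (hmin i hi)).1 h1.symm⟩, if_neg, add_zero]
          rintro ⟨h2, h3⟩
          exact hs2n (((Nat.modEq_iff_dvd' h2).2 h3).trans h1)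
        · have h2 := hs2min i ⟨hi, h1⟩
          rw [if_neg, if_pos ⟨h2, (Nat.modEq_iff_dvd' h2).1 (hcl i hi h1).symm⟩, zero_add]
          rintro ⟨h3, h4⟩
          exact h1 ((Nat.modEq_iff_dvd' h3).2 h4).symm
    obtain ⟨E, hE0, hEN, hE⟩ := two_classes hj hjK hG10 hG20 (m := N / L) (L := L) (s1 := s1)
      (s2 := s2) (N := N) hd1' hd2' (fun h => hs2n h.symm) hN hd1 hd2
    refine ⟨E, hE0, hEN, fun Q hQ hvan => hE Q hQ fun q hq x hx => ?_⟩
    have h5 := hvan q hq x hx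
    rw [hF2, eval_add, eval_mul, eval_mul, expand_eval, expand_eval, eval_pow, eval_pow,
      eval_X] at h5
    exact h5

theorem tc_step {l : ℕ} (hl : l.Prime) {p h : ℤ[X]} {k N L e1 e2 : ℕ} (hk0 : k ≠ 0)
    (hk : (X - 1) ^ k ∣ p) {H : ℝ} (hH1 : 1 ≤ H)
    (hH : ∑ i ∈ p.support, |(p.coeff i : ℝ)| ≤ H) (hN : 3 ≤ N) (hL : 1 ≤ L) (hLN : L ≤ N)
    (hdeg : (p * h).natDegree ≤ N) (hne : ∃ j, ¬ (l : ℤ) ∣ (p * h).coeff j)
    (hcon : ∀ j, ¬ (l : ℤ) ∣ (p * h).coeff j → j ≡ e1 [MOD L] ∨ j ≡ e2 [MOD L])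
    {y : ℝ} (hy0 : 0 ≤ y)
    (hy : ∀ q : ℕ, q.Prime → (q : ℝ) ≤ y → ((q : ℝ) - 1) * Real.log H < k * Real.log q) :
    ∃ V : Finset ℕ, (∀ q ∈ V, q.Prime ∧ (q : ℝ) ≤ y) ∧
      ∑ q ∈ V, (q : ℝ) ≤ 24 * ((N : ℝ) / L) ∧
      Chebyshev.theta y ≤ ∑ q ∈ V, Real.log q + 3 * Real.log (l * N) := by
  classical
  haveI : Fact l.Prime := ⟨hl⟩
  obtain ⟨φ, hφ⟩ : ∃ φ : ℤ →+* AlgebraicClosure (ZMod l),
    φ = Int.castRingHom (AlgebraicClosure (ZMod l)) := ⟨_, rfl⟩
  have hφ0 : ∀ a : ℤ, φ a = 0 ↔ (l : ℤ) ∣ a := by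
    intro a
    rw [hφ, eq_intCast, CharP.intCast_eq_zero_iff (AlgebraicClosure (ZMod l)) l]
  obtain ⟨F, hF⟩ : ∃ F : (AlgebraicClosure (ZMod l))[X], F = (p * h).map φ := ⟨_, rfl⟩
  have hco : ∀ j, F.coeff j ≠ 0 ↔ ¬ (l : ℤ) ∣ (p * h).coeff j := by
    intro j
    rw [hF, coeff_map, Ne, hφ0]
  have hF0 : F ≠ 0 := by
    obtain ⟨j, hj⟩ := hne
    intro h0
    exact (hco j).2 hj (by rw [h0, coeff_zero])
  have hFdeg : F.natDegree ≤ N := by
    rw [hF]
    exact natDegree_map_le.trans hdeg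
  obtain ⟨j, hj, hj3, hj6, hjl⟩ : ∃ j : ℕ, j.Prime ∧ j ≤ 3 ∧ j ∣ 6 ∧ ¬ l ∣ j := by
    by_cases h3 : l = 3
    · exact ⟨2, Nat.prime_two, by norm_num, by norm_num, by rw [h3]; norm_num⟩
    · refine ⟨3, Nat.prime_three, le_rfl, by norm_num, fun h4 => ?_⟩
      rcases (Nat.dvd_prime Nat.prime_three).1 h4 with h5 | h5
      · exact hl.one_lt.ne' h5
      · exact h3 h5
  have hjK : (j : AlgebraicClosure (ZMod l)) ≠ 0 := by
    intro h0
    rw [CharP.cast_eq_zero_iff (AlgebraicClosure (ZMod l)) l] at h0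
    exact hjl h0
  obtain ⟨E, hE0, hEN, hE⟩ := tc_count hj hjK hF0 (by omega) hL hFdeg
    (fun i hi => hcon i ((hco i).1 hi))
  obtain ⟨d, hd⟩ : ∃ d, d = 6 * l * L * E := ⟨_, rfl⟩
  have hd0 : 0 < d := by
    rw [hd]
    exact Nat.mul_pos (Nat.mul_pos (Nat.mul_pos (by norm_num) hl.pos) hL) hE0
  have hQ : ∀ q ∈ W d y, q.Prime ∧ Nat.Coprime L q ∧ q ≠ j ∧ ¬ q ∣ E ∧
      ∃ x : AlgebraicClosure (ZMod l), IsPrimitiveRoot x q := by
    intro q hq
    rw [mem_W hy0] at hq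
    obtain ⟨hqp, hqd, hqy⟩ := hq
    refine ⟨hqp, ?_, ?_, ?_, ?_⟩
    · rw [Nat.coprime_comm, Nat.Prime.coprime_iff_not_dvd hqp]
      intro h1
      apply hqd
      rw [hd]
      exact (h1.mul_left (6 * l)).mul_right E
    · rintro rfl
      apply hqd
      rw [hd]
      exact ((hj6.mul_right l).mul_right L).mul_right E
    · intro h1
      apply hqd
      rw [hd]
      exact h1.mul_left _
    · haveI : NeZero (q : AlgebraicClosure (ZMod l)) := by
        refine ⟨fun h0 => hqd ?_⟩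
        rw [CharP.cast_eq_zero_iff (AlgebraicClosure (ZMod l)) l] at h0
        rcases (Nat.dvd_prime hqp).1 h0 with h3 | h3
        · exact absurd h3 hl.one_lt.ne'
        · rw [hd, ← h3]
          exact ((Dvd.intro_left 6 rfl).mul_right L).mul_right E
      exact HasEnoughRootsOfUnity.exists_primitiveRoot _ q
  have hvan : ∀ q ∈ W d y, ∀ x : AlgebraicClosure (ZMod l), x ^ q = 1 → F.eval x = 0 := by
    intro q hq x hx
    rw [mem_W hy0] at hq
    have h1 : X ^ q - 1 ∣ F := by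
      have := Polynomial.map_dvd φ ((forced hq.1 hk0 hk hH1 hH (hy q hq.1 hq.2.2)).mul_right h)
      rw [hF]
      simpa using this
    obtain ⟨A, hA⟩ := h1
    rw [hA, eval_mul, eval_sub, eval_pow, eval_X, eval_one, hx, sub_self, zero_mul]
  have hsum := hE (W d y) hQ hvan
  refine ⟨W d y, fun q hq => ?_, ?_, ?_⟩
  · rw [mem_W hy0] at hq
    exact ⟨hq.1, hq.2.2⟩
  · have h1 : ∑ q ∈ W d y, q ≤ 24 * (N / L) := by
      calc ∑ q ∈ W d y, q ≤ ∑ q ∈ W d y, 3 * (q - 2) := by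
            refine sum_le_sum fun q hq => ?_
            rw [mem_W hy0] at hq
            have h2 : q ≠ 2 := by
              rintro rfl
              apply hq.2.1
              rw [hd]
              exact (((by norm_num : 2 ∣ 6).mul_right l).mul_right L).mul_right E
            have := hq.1.two_le
            omega
        _ = 3 * ∑ q ∈ W d y, (q - 2) := by rw [mul_sum]
        _ ≤ 3 * ((2 * j + 2) * (N / L)) := Nat.mul_le_mul_left 3 hsum
        _ ≤ 24 * (N / L) := by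
            have h2 : (2 * j + 2) * (N / L) ≤ 8 * (N / L) := Nat.mul_le_mul_right _ (by omega)
            omega
    have h2 := (Nat.cast_le (α := ℝ)).2 h1
    push_cast at h2
    have h3 : ((N / L : ℕ) : ℝ) ≤ (N : ℝ) / L := Nat.cast_div_le
    linarith
  · have h1 := theta_le_W hd0 y
    have h2 : Real.log (d : ℝ) ≤ 3 * Real.log (l * N) := by
      have hlN : 6 ≤ l * N := by
        have := Nat.mul_le_mul hl.two_le hN
        omega
      have h3 : d ≤ (l * N) ^ 3 := by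
        calc d = 6 * (l * L) * E := by rw [hd]; ring
          _ ≤ (l * N) * (l * N) * (l * N) := by
              refine Nat.mul_le_mul (Nat.mul_le_mul hlN (Nat.mul_le_mul_left l hLN)) ?_
              exact hEN.trans (Nat.le_mul_of_pos_left N hl.pos)
          _ = (l * N) ^ 3 := by ring
      have h4 : (d : ℝ) ≤ ((l : ℝ) * N) ^ 3 := by exact_mod_cast h3
      calc Real.log (d : ℝ) ≤ Real.log (((l : ℝ) * N) ^ 3) :=
            Real.log_le_log (by exact_mod_cast hd0) h4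
        _ = 3 * Real.log (l * N) := by
            rw [Real.log_pow]
            norm_num
    linarith

theorem tc : ∃ C : ℝ, 0 < C ∧ ∀ l : ℕ, l.Prime → ∀ (p h : ℤ[X]) (H : ℝ) (N L e1 e2 k : ℕ),
    2 ≤ H → 3 ≤ N → 1 ≤ L → L ≤ N → ∑ i ∈ p.support, |(p.coeff i : ℝ)| ≤ H →
    (p * h).natDegree ≤ N → (∃ j, ¬ (l : ℤ) ∣ (p * h).coeff j) →
    (∀ j, ¬ (l : ℤ) ∣ (p * h).coeff j → j ≡ e1 [MOD L] ∨ j ≡ e2 [MOD L]) →
    (X - 1) ^ k ∣ p →
    (k : ℝ) ≤ C * Real.log H * (Real.sqrt (((N : ℝ) / L + 2) / Real.log ((N : ℝ) / L + 2))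
      + Real.log (l * N) / Real.log (Real.log (l * N))) := by
  obtain ⟨C, hC, hfin⟩ := finish
  refine ⟨4 * C, by positivity, ?_⟩
  intro l hl p h H N L e1 e2 k hH2 hN hL hLN hH hdeg hne hcon hk
  have hN3 : (3 : ℝ) ≤ N := by exact_mod_cast hN
  have hl2 : (2 : ℝ) ≤ l := by exact_mod_cast hl.two_le
  have hH0 : 0 < Real.log H := Real.log_pos (by linarith)
  have hL0 : (0 : ℝ) < L := by exact_mod_cast hL
  obtain ⟨R, hR⟩ : ∃ R : ℝ, R = Real.log (l * N) := ⟨_, rfl⟩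
  have hR1 : 1 < R := by
    rw [hR, Real.lt_log_iff_exp_lt (by positivity)]
    nlinarith [Real.exp_one_lt_d9]
  have hRR : 0 < Real.log R := Real.log_pos hR1
  obtain ⟨m, hm⟩ : ∃ m : ℝ, m = (N : ℝ) / L + 2 := ⟨_, rfl⟩
  have hNL : (0 : ℝ) ≤ (N : ℝ) / L := by positivity
  have hm2 : 2 ≤ m := by linarith
  have hlm : 0 < Real.log m := Real.log_pos (by linarith)
  rw [← hm, ← hR]
  have hs0 : 0 ≤ Real.sqrt (m / Real.log m) := Real.sqrt_nonneg _
  have hR0 : 0 ≤ R / Real.log R := div_nonneg (by linarith) hRR.le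
  rcases Nat.eq_zero_or_pos k with rfl | hk0
  · simp only [Nat.cast_zero]
    positivity
  have h1 := hfin H k (12 * m) R hH2 (by linarith) hR1 (by
    intro y hy2 hy
    obtain ⟨V, hV, hV1, hV2⟩ := tc_step hl hk0.ne' hk (by linarith) hH hN hL hLN hdeg hne hcon
      (by linarith) hy
    refine ⟨V, hV, ?_, ?_⟩
    · rw [hm]
      linarith
    · rw [hR]
      rw [hR] at hR1
      linarith)
  have h2 : Real.sqrt (12 * m / Real.log (12 * m)) ≤ 4 * Real.sqrt (m / Real.log m) := by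
    rw [show (4 : ℝ) * Real.sqrt (m / Real.log m) = Real.sqrt (4 ^ 2 * (m / Real.log m)) by
      rw [Real.sqrt_mul (by norm_num), Real.sqrt_sq (by norm_num)]]
    refine Real.sqrt_le_sqrt ?_
    have h4 : Real.log m ≤ Real.log (12 * m) := Real.log_le_log (by linarith) (by linarith)
    calc 12 * m / Real.log (12 * m) ≤ 12 * m / Real.log m :=
          div_le_div_of_nonneg_left (by linarith) hlm h4
      _ ≤ 4 ^ 2 * (m / Real.log m) := by
          have : 0 ≤ m / Real.log m := div_nonneg (by linarith) hlm.le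
          rw [mul_div_assoc]
          nlinarith
  calc (k : ℝ) ≤ C * Real.log H * (Real.sqrt (12 * m / Real.log (12 * m)) + R / Real.log R) := h1
    _ ≤ C * Real.log H * (4 * (Real.sqrt (m / Real.log m) + R / Real.log R)) := by
        refine mul_le_mul_of_nonneg_left ?_ (by positivity)
        linarith
    _ = 4 * C * Real.log H * (Real.sqrt (m / Real.log m) + R / Real.log R) := by ring

end

end Pool.Agent.H1.BL
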