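import Pool.Agent.H1.BL.Tcl
import Pool.Agent.H1.BL.Ext

/-!
Polynomials with coefficients in `{-1, 0, 1}` all of whose maximal progressions of difference `d`
start in one residue class modulo `L` and end in one residue class modulo `L`.
-/

namespace Pool.Agent.H1.BL

open Polynomial Finset

noncomputable section

theorem classes : ∃ C : ℝ, 0 < C ∧ ∀ (n L d u v : ℕ) (p : ℤ[X]), 3 ≤ n → 1 ≤ L → L ≤ n →
    1 ≤ d → d ≤ n → p ≠ 0 → p.natDegree ≤ n →
    (∀ i, p.coeff i = -1 ∨ p.coeff i = 0 ∨ p.coeff i = 1) →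
    (∀ j, p.coeff j ≠ 0 → j < d ∨ p.coeff (j - d) = 0 → j ≡ u [MOD L]) →
    (∀ j, p.coeff j ≠ 0 → p.coeff (j + d) = 0 → j + d ≡ v [MOD L]) →
    (p.rootMultiplicity 1 : ℝ) ≤ C * Real.log n *
      (Real.sqrt (((n : ℝ) / L + 2) / Real.log ((n : ℝ) / L + 2))
        + Real.log n / Real.log (Real.log n)) := by
  obtain ⟨C, hC, htc⟩ := tc
  refine ⟨6 * C, by positivity, ?_⟩
  intro n L d u v p hn hL hLn hd hdn hp hdeg hco hu hv
  have hn3 : (3 : ℝ) ≤ n := by exact_mod_cast hn
  have hL1 : 1 < Real.log n := by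
    rw [Real.lt_log_iff_exp_lt (by linarith)]
    linarith [Real.exp_one_lt_d9]
  have hLL : 0 < Real.log (Real.log n) := Real.log_pos hL1
  have hL0 : (0 : ℝ) < L := by exact_mod_cast hL
  have hk : (X - 1) ^ p.rootMultiplicity 1 ∣ p := by
    have := pow_rootMultiplicity_dvd p 1
    rwa [map_one] at this
  have hcon : ∀ j, ¬ ((2 : ℕ) : ℤ) ∣ (p * (X ^ d - 1)).coeff j → j ≡ u [MOD L] ∨ j ≡ v [MOD L] := by
    intro j hj
    have h4 : (p * (X ^ d - 1)).coeff j = (if d ≤ j then p.coeff (j - d) else 0) - p.coeff j := by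
      rw [mul_sub, mul_one, coeff_sub, coeff_mul_X_pow']
    rw [h4] at hj
    have h6 : (if d ≤ j then p.coeff (j - d) else 0) = -1
        ∨ (if d ≤ j then p.coeff (j - d) else 0) = 0
        ∨ (if d ≤ j then p.coeff (j - d) else 0) = 1 := by
      split_ifs
      · exact hco _
      · simp
    rw [Nat.cast_ofNat, odd_iff (hco j) h6] at hj
    rcases hj with ⟨h8, h9⟩ | ⟨h8, h9⟩
    · left
      refine hu j h8 ?_
      by_cases h : d ≤ j
      · rw [if_pos h] at h9
        exact Or.inr h9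
      · exact Or.inl (by omega)
    · right
      by_cases h : d ≤ j
      · rw [if_pos h] at h8
        have h10 := hv (j - d) h8 (by rw [Nat.sub_add_cancel h]; exact h9)
        rwa [Nat.sub_add_cancel h] at h10
      · rw [if_neg h] at h8
        exact absurd rfl h8
  have h1 := htc 2 Nat.prime_two p (X ^ d - 1) ((n : ℝ) + 1) (2 * n) L u v
    (p.rootMultiplicity 1) (by linarith) (by omega) hL (by omega) (sum_abs_le hdeg hco)
    ((natDegree_le hdeg).trans (by omega)) (exists_odd hp hd hco) hcon hk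
  obtain ⟨m, hm⟩ : ∃ m : ℝ, m = (n : ℝ) / L + 2 := ⟨_, rfl⟩
  have hNL : (0 : ℝ) ≤ (n : ℝ) / L := by positivity
  have hm2 : 2 ≤ m := by linarith
  have hlm : 0 < Real.log m := Real.log_pos (by linarith)
  rw [← hm]
  have h2 : Real.log ((n : ℝ) + 1) ≤ 2 * Real.log n := by
    rw [show (2 : ℝ) * Real.log n = Real.log ((n : ℝ) ^ 2) by rw [Real.log_pow]; norm_num]
    exact Real.log_le_log (by linarith) (by nlinarith)
  have h20 : 0 ≤ Real.log ((n : ℝ) + 1) := Real.log_nonneg (by linarith)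
  have h3 : Real.sqrt (((2 * n : ℕ) / L + 2 : ℝ) / Real.log ((2 * n : ℕ) / L + 2 : ℝ))
      ≤ 2 * Real.sqrt (m / Real.log m) := by
    rw [show (2 : ℝ) * Real.sqrt (m / Real.log m) = Real.sqrt (2 ^ 2 * (m / Real.log m)) by
      rw [Real.sqrt_mul (by norm_num), Real.sqrt_sq (by norm_num)]]
    refine Real.sqrt_le_sqrt ?_
    have h4 : ((2 * n : ℕ) / L + 2 : ℝ) = 2 * ((n : ℝ) / L) + 2 := by
      push_cast
      ring
    rw [h4]
    have h5 : Real.log m ≤ Real.log (2 * ((n : ℝ) / L) + 2) :=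
      Real.log_le_log (by linarith) (by linarith)
    calc (2 * ((n : ℝ) / L) + 2) / Real.log (2 * ((n : ℝ) / L) + 2)
        ≤ (2 * ((n : ℝ) / L) + 2) / Real.log m :=
          div_le_div_of_nonneg_left (by linarith) hlm h5
      _ ≤ (4 * m) / Real.log m := div_le_div_of_nonneg_right (by linarith) hlm.le
      _ = 2 ^ 2 * (m / Real.log m) := by ring
  obtain ⟨R, hR⟩ : ∃ R : ℝ, R = Real.log (((2 : ℕ) : ℝ) * ((2 * n : ℕ) : ℝ)) := ⟨_, rfl⟩
  have hR1 : Real.log n ≤ R := by
    rw [hR]
    refine Real.log_le_log (by linarith) ?_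
    push_cast
    linarith
  have hR3 : R ≤ 3 * Real.log n := by
    rw [hR, show (3 : ℝ) * Real.log n = Real.log ((n : ℝ) ^ 3) by rw [Real.log_pow]; norm_num]
    refine Real.log_le_log (by push_cast; linarith) ?_
    push_cast
    nlinarith [mul_nonneg (sub_nonneg.2 hn3) (sub_nonneg.2 hn3)]
  have h4 : R / Real.log R ≤ 3 * (Real.log n / Real.log (Real.log n)) := by
    have h5 : Real.log (Real.log n) ≤ Real.log R := Real.log_le_log (by linarith) hR1
    calc R / Real.log R ≤ R / Real.log (Real.log n) :=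
          div_le_div_of_nonneg_left (by linarith) hLL h5
      _ ≤ 3 * Real.log n / Real.log (Real.log n) := div_le_div_of_nonneg_right hR3 hLL.le
      _ = 3 * (Real.log n / Real.log (Real.log n)) := by ring
  rw [← hR] at h1
  have h5 : 0 ≤ Real.sqrt (m / Real.log m) := Real.sqrt_nonneg _
  have h6 : 0 ≤ Real.log n / Real.log (Real.log n) := div_nonneg (by linarith) hLL.le
  have h7 : 0 ≤ R / Real.log R := div_nonneg (by linarith) (Real.log_nonneg (by linarith))
  calc (p.rootMultiplicity 1 : ℝ)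
      ≤ C * Real.log ((n : ℝ) + 1) *
        (Real.sqrt (((2 * n : ℕ) / L + 2 : ℝ) / Real.log ((2 * n : ℕ) / L + 2 : ℝ))
          + R / Real.log R) := h1
    _ ≤ C * (2 * Real.log n) * (2 * Real.sqrt (m / Real.log m)
          + 3 * (Real.log n / Real.log (Real.log n))) := by
        refine mul_le_mul (mul_le_mul_of_nonneg_left h2 hC.le) (add_le_add h3 h4) ?_
          (by positivity)
        exact add_nonneg (Real.sqrt_nonneg _) h7
    _ ≤ 6 * C * Real.log n * (Real.sqrt (m / Real.log m)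
          + Real.log n / Real.log (Real.log n)) := by
        have h8 : 0 ≤ C * Real.log n := by positivity
        nlinarith [mul_nonneg h8 h5, mul_nonneg h8 h6]

theorem classes_extremal {ε : ℝ} (hε : 0 < ε) : ∃ C : ℝ, 0 < C ∧
    ∀ (n L d u v : ℕ) (p : ℤ[X]), 3 ≤ n → 1 ≤ L → L ≤ n →
    1 ≤ d → d ≤ n → p ≠ 0 → p.natDegree ≤ n →
    (∀ i, p.coeff i = -1 ∨ p.coeff i = 0 ∨ p.coeff i = 1) →
    (∀ j, p.coeff j ≠ 0 → j < d ∨ p.coeff (j - d) = 0 → j ≡ u [MOD L]) →
    (∀ j, p.coeff j ≠ 0 → p.coeff (j + d) = 0 → j + d ≡ v [MOD L]) →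
    ε * Real.sqrt n ≤ p.rootMultiplicity 1 → (L : ℝ) ≤ C * Real.log n := by
  obtain ⟨C, hC, hmain⟩ := classes
  obtain ⟨e, he⟩ : ∃ e : ℝ, e = ε / (2 * C) := ⟨_, rfl⟩
  have he0 : 0 < e := by rw [he]; positivity
  have hll3 : 0 < Real.log (Real.log 3) := Real.log_pos log_three
  obtain ⟨D1, hD11, hbd1⟩ := bounded (δ := e * Real.log (Real.log 3)) (mul_pos he0 hll3)
  obtain ⟨D2, hD21, hbd2⟩ := bounded (δ := e ^ 2 * Real.log 2)
    (mul_pos (pow_pos he0 2) (Real.log_pos (by norm_num)))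
  refine ⟨D1 ^ 2 + D2 ^ 2 + 6 / e ^ 2, by positivity, ?_⟩
  intro n L d u v p hn hL hLn hd hdn hp hdeg hco hu hv hk
  have hn3 : (3 : ℝ) ≤ n := by exact_mod_cast hn
  have hln1 : 1 < Real.log n := lt_of_lt_of_le log_three (Real.log_le_log (by norm_num) hn3)
  have hl3 : Real.log 3 ≤ Real.log n := Real.log_le_log (by norm_num) hn3
  have hLL3 : Real.log (Real.log 3) ≤ Real.log (Real.log n) :=
    Real.log_le_log (by linarith [log_three]) hl3
  have hLL : 0 < Real.log (Real.log n) := lt_of_lt_of_le hll3 hLL3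
  have hL0 : (0 : ℝ) < L := by exact_mod_cast hL
  have hLn' : (L : ℝ) ≤ n := by exact_mod_cast hLn
  have hsn : 0 < Real.sqrt n := Real.sqrt_pos.2 (by linarith)
  have hsq : Real.sqrt n * Real.sqrt n = n := Real.mul_self_sqrt (by linarith)
  have h1 := hmain n L d u v p hn hL hLn hd hdn hp hdeg hco hu hv
  obtain ⟨m, hm⟩ : ∃ m : ℝ, m = (n : ℝ) / L + 2 := ⟨_, rfl⟩
  have hNL : (1 : ℝ) ≤ (n : ℝ) / L := by
    rw [le_div_iff₀ hL0]
    linarith
  have hm2 : 2 ≤ m := by linarith
  have hlm : 0 < Real.log m := Real.log_pos (by linarith)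
  rw [← hm] at h1
  have small : ∀ {D : ℝ}, 1 ≤ D → D ^ 2 ≤ D1 ^ 2 + D2 ^ 2 + 6 / e ^ 2 → Real.sqrt n ≤ D →
      (L : ℝ) ≤ (D1 ^ 2 + D2 ^ 2 + 6 / e ^ 2) * Real.log n := by
    intro D hD1 hDC hD
    have h2 : (n : ℝ) ≤ D ^ 2 := by nlinarith
    have h3 : 0 ≤ D1 ^ 2 + D2 ^ 2 + 6 / e ^ 2 := by positivity
    nlinarith
  have he6 : 0 < 6 / e ^ 2 := by positivity
  rcases le_or_gt (ε / 2 * Real.sqrt n) (C * Real.log n * (Real.log n / Real.log (Real.log n)))
    with h2 | h2
  · refine small hD11 (by nlinarith [sq_nonneg D2]) (hbd1 n hn ?_)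
    have h3 : e * Real.sqrt n ≤ Real.log n * (Real.log n / Real.log (Real.log n)) := by
      rw [he, div_mul_eq_mul_div, div_le_iff₀ (by positivity)]
      linarith
    rw [← mul_div_assoc, le_div_iff₀ hLL] at h3
    calc e * Real.log (Real.log 3) * Real.sqrt n
        = e * Real.sqrt n * Real.log (Real.log 3) := by ring
      _ ≤ e * Real.sqrt n * Real.log (Real.log n) :=
          mul_le_mul_of_nonneg_left hLL3 (by positivity)
      _ ≤ Real.log n * Real.log n := h3
      _ = Real.log n ^ 2 := by ring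
  · have h5 : e * Real.sqrt n ≤ Real.log n * Real.sqrt (m / Real.log m) := by
      have h6 : ε / 2 * Real.sqrt n ≤ C * Real.log n * Real.sqrt (m / Real.log m) := by
        linarith
      rw [he, div_mul_eq_mul_div, div_le_iff₀ (by positivity)]
      linarith
    have h6 : e ^ 2 * n ≤ Real.log n ^ 2 * (m / Real.log m) := by
      have h7 := pow_le_pow_left₀ (by positivity) h5 2
      rw [mul_pow, mul_pow, Real.sq_sqrt (by linarith), Real.sq_sqrt (by positivity)] at h7
      exact h7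
    rcases le_or_gt (Real.sqrt n) m with h7 | h7
    · have h8 : Real.log n / 2 ≤ Real.log m := by
        rw [← Real.log_sqrt (by linarith)]
        exact Real.log_le_log hsn h7
      have h9 : e ^ 2 * n ≤ 2 * Real.log n * m := by
        refine h6.trans ?_
        rw [← mul_div_assoc, div_le_iff₀ hlm]
        have h10 : Real.log n * (2 * m * (Real.log n / 2)) ≤ Real.log n * (2 * m * Real.log m) :=
          mul_le_mul_of_nonneg_left (mul_le_mul_of_nonneg_left h8 (by linarith)) (by linarith)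
        nlinarith
      have h10 : m ≤ 3 * (n / L) := by
        rw [hm]
        linarith
      have h11 : e ^ 2 * n ≤ 2 * Real.log n * (3 * (n / L)) :=
        h9.trans (mul_le_mul_of_nonneg_left h10 (by linarith))
      have h12 : e ^ 2 * n * L ≤ 6 * Real.log n * n := by
        have h13 := mul_le_mul_of_nonneg_right h11 hL0.le
        have h14 : 2 * Real.log n * (3 * (n / L)) * L = 6 * Real.log n * n := by
          field_simp
          ring
        rw [h14] at h13
        exact h13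
      have h13 : n * (L * e ^ 2) ≤ n * (6 * Real.log n) := by linarith
      have h14 : L * e ^ 2 ≤ 6 * Real.log n := le_of_mul_le_mul_left h13 (by linarith)
      have h15 : (L : ℝ) ≤ 6 / e ^ 2 * Real.log n := by
        rw [div_mul_eq_mul_div, le_div_iff₀ (by positivity)]
        exact h14
      refine h15.trans (mul_le_mul_of_nonneg_right ?_ (by linarith))
      nlinarith [sq_nonneg D1, sq_nonneg D2]
    · refine small hD21 (by nlinarith [sq_nonneg D1]) (hbd2 n hn ?_)
      have hl2 : Real.log 2 ≤ Real.log m := Real.log_le_log (by norm_num) hm2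
      have hl20 : 0 < Real.log 2 := Real.log_pos (by norm_num)
      have h8 : m / Real.log m ≤ Real.sqrt n / Real.log 2 :=
        div_le_div₀ hsn.le h7.le hl20 hl2
      have h10 : e ^ 2 * n ≤ Real.log n ^ 2 * (Real.sqrt n / Real.log 2) :=
        h6.trans (mul_le_mul_of_nonneg_left h8 (by positivity))
      rw [← mul_div_assoc, le_div_iff₀ hl20] at h10
      have h12 : Real.sqrt n * (e ^ 2 * Real.log 2 * Real.sqrt n)
          ≤ Real.sqrt n * Real.log n ^ 2 := by
        calc Real.sqrt n * (e ^ 2 * Real.log 2 * Real.sqrt n)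
            = e ^ 2 * (Real.sqrt n * Real.sqrt n) * Real.log 2 := by ring
          _ = e ^ 2 * n * Real.log 2 := by rw [hsq]
          _ ≤ Real.log n ^ 2 * Real.sqrt n := h10
          _ = Real.sqrt n * Real.log n ^ 2 := by ring
      exact le_of_mul_le_mul_left h12 hsn

end

end Pool.Agent.H1.BL
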