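import Pool.Agent.H1.BL.Zrt

/-!
Polynomials `X ^ s₁ * G₁ (X ^ L) + X ^ s₂ * G₂ (X ^ L)` vanishing at the roots of unity of many
prime orders.
-/

namespace Pool.Agent.H1.BL

open Polynomial Finset

noncomputable section

variable {K : Type*} [Field K]

theorem no_roots [IsAlgClosed K] {j : ℕ} (hj : 2 ≤ j) (hjK : (j : K) ≠ 0) {U : K[X]} (hU : U ≠ 0)
    {c : K} (h : U.comp (X ^ j) = C c * U ^ j) : ∀ z : K, z ≠ 0 → U.eval z ≠ 0 := by
  classical
  haveI : NeZero (j : K) := ⟨hjK⟩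
  obtain ⟨w, hw⟩ := HasEnoughRootsOfUnity.exists_primitiveRoot K j
  obtain ⟨Z, hZ⟩ : ∃ Z : Finset K, Z = U.roots.toFinset.filter (fun z => z ≠ 0) := ⟨_, rfl⟩
  have hmem : ∀ z, z ∈ Z ↔ U.eval z = 0 ∧ z ≠ 0 := by
    intro z
    rw [hZ, mem_filter, Multiset.mem_toFinset, mem_roots hU, IsRoot.def]
  have hev : ∀ z : K, U.eval (z ^ j) = c * U.eval z ^ j := by
    intro z
    have := congrArg (eval z) h
    rwa [eval_comp, eval_pow, eval_X, eval_mul, eval_C, eval_pow] at this
  have hc : c ≠ 0 := by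
    rintro rfl
    rw [C_0, zero_mul] at h
    rw [comp_eq_zero_iff] at h
    rcases h with h | ⟨-, h2⟩
    · exact hU h
    · have h3 := congrArg natDegree h2
      rw [natDegree_X_pow, natDegree_C] at h3
      omega
  have hroot : ∀ z : K, z ^ j ∈ Z → z ∈ Z := by
    intro z hz
    rw [hmem] at hz ⊢
    rw [hev] at hz
    refine ⟨?_, ?_⟩
    · exact eq_zero_of_pow_eq_zero ((mul_eq_zero.1 hz.1).resolve_left hc)
    · rintro rfl
      exact hz.2 (zero_pow (by omega))
  choose r hr using fun z : K => IsAlgClosed.exists_pow_nat_eq z (show 0 < j by omega)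
  have hr' : ∀ z, (r z) ^ j = z := hr
  have hinj : (Z ×ˢ range 2).card ≤ Z.card := by
    refine card_le_card_of_injOn (fun x => r x.1 * w ^ x.2) ?_ ?_
    · intro x hx
      rw [mem_coe, mem_product] at hx
      rw [mem_coe]
      apply hroot
      rw [mul_pow, hr', ← pow_mul, mul_comm x.2 j, pow_mul, hw.pow_eq_one, one_pow, mul_one]
      exact hx.1
    · intro x hx y hy hxy
      rw [mem_coe, mem_product, mem_range] at hx hy
      simp only at hxy
      have h1 : x.1 = y.1 := by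
        have h2 := congrArg (fun a => a ^ j) hxy
        simp only [mul_pow, hr'] at h2
        rwa [← pow_mul, mul_comm x.2 j, pow_mul, hw.pow_eq_one, one_pow, mul_one, ← pow_mul,
          mul_comm y.2 j, pow_mul, hw.pow_eq_one, one_pow, mul_one] at h2
      rw [h1] at hxy
      have h3 : r y.1 ≠ 0 := by
        intro h4
        have h5 := hr' y.1
        rw [h4, zero_pow (by omega)] at h5
        exact ((hmem _).1 hy.1).2 h5.symm
      have h4 := mul_left_cancel₀ h3 hxy
      have h5 : x.2 = y.2 := hw.pow_inj (by omega) (by omega) h4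
      exact Prod.ext h1 h5
  rw [card_product, card_range] at hinj
  have hZ0 : Z = ∅ := by
    rw [← card_eq_zero]
    omega
  intro z hz hz0
  have : z ∈ Z := (hmem z).2 ⟨hz0, hz⟩
  rw [hZ0] at this
  simp at this

theorem eq_monomial [IsAlgClosed K] {U : K[X]} (hU : U ≠ 0)
    (h : ∀ z : K, z ≠ 0 → U.eval z ≠ 0) : ∃ (u : K) (e : ℕ), u ≠ 0 ∧ U = C u * X ^ e := by
  obtain ⟨q, hq, hnd⟩ := exists_eq_pow_rootMultiplicity_mul_and_not_dvd U hU 0
  have hq0 : q ≠ 0 := by
    rintro rfl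
    exact hnd (dvd_zero _)
  have hdeg : q.natDegree = 0 := by
    by_contra hd
    obtain ⟨z, hz⟩ := IsAlgClosed.exists_root q (fun h0 => hd (natDegree_eq_of_degree_eq_some h0))
    have hz0 : z ≠ 0 := by
      rintro rfl
      exact hnd (dvd_iff_isRoot.2 hz)
    apply h z hz0
    rw [hq, eval_mul, hz.eq_zero, mul_zero]
  obtain ⟨u, hu⟩ := natDegree_eq_zero.1 hdeg
  refine ⟨u, U.rootMultiplicity 0, ?_, ?_⟩
  · rintro rfl
    rw [C_0] at hu
    exact hq0 hu.symm
  · conv_lhs => rw [hq]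
    rw [← hu, C_0, sub_zero, mul_comm]

/-- Coprime solutions of the functional equation are monomials. -/
theorem functional [IsAlgClosed K] {j : ℕ} (hj : 2 ≤ j) (hjK : (j : K) ≠ 0) {U V : K[X]}
    (hU : U ≠ 0) (hV : V ≠ 0) (hcop : IsCoprime U V) {c : K} (hc : c ≠ 0)
    (h : U.comp (X ^ j) * V ^ j = C c * (V.comp (X ^ j) * U ^ j)) :
    (∃ (u : K) (e : ℕ), u ≠ 0 ∧ U = C u * X ^ e) ∧ (∃ (v : K) (e : ℕ), v ≠ 0 ∧ V = C v * X ^ e) := by
  have key : ∀ {U V : K[X]}, U ≠ 0 → IsCoprime U V → ∀ {A : K[X]},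
      U.comp (X ^ j) * V ^ j = A * U ^ j → ∃ (u : K) (e : ℕ), u ≠ 0 ∧ U = C u * X ^ e := by
    intro U V hU hcop A hA
    have h1 : U ^ j ∣ U.comp (X ^ j) := by
      have h2 : U ^ j ∣ U.comp (X ^ j) * V ^ j := by
        rw [hA]
        exact dvd_mul_left _ _
      exact (IsCoprime.pow hcop).dvd_of_dvd_mul_right h2
    obtain ⟨B, hB⟩ := h1
    have hcomp : U.comp (X ^ j) ≠ 0 := by
      intro h0
      rw [comp_eq_zero_iff] at h0
      rcases h0 with h0 | ⟨-, h2⟩
      · exact hU h0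
      · have h3 := congrArg natDegree h2
        rw [natDegree_X_pow, natDegree_C] at h3
        omega
    have hB0 : B ≠ 0 := by
      rintro rfl
      rw [mul_zero] at hB
      exact hcomp hB
    have hBd : B.natDegree = 0 := by
      have h3 := congrArg natDegree hB
      rw [natDegree_comp, natDegree_X_pow, natDegree_mul (pow_ne_zero _ hU) hB0, natDegree_pow,
        mul_comm j] at h3
      omega
    obtain ⟨b, hb⟩ := natDegree_eq_zero.1 hBd
    refine eq_monomial hU (no_roots hj hjK hU (c := b) ?_)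
    rw [hB, ← hb, mul_comm]
  refine ⟨key hU hcop (A := C c * V.comp (X ^ j)) (by rw [h]; ring), ?_⟩
  refine key hV hcop.symm (A := C c⁻¹ * U.comp (X ^ j)) ?_
  have h4 : C c⁻¹ * C c = (1 : K[X]) := by rw [← C_mul, inv_mul_cancel₀ hc, C_1]
  calc V.comp (X ^ j) * U ^ j = C c⁻¹ * C c * (V.comp (X ^ j) * U ^ j) := by rw [h4, one_mul]
    _ = C c⁻¹ * (C c * (V.comp (X ^ j) * U ^ j)) := by ring
    _ = C c⁻¹ * (U.comp (X ^ j) * V ^ j) := by rw [← h]
    _ = C c⁻¹ * U.comp (X ^ j) * V ^ j := by ring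

end

end Pool.Agent.H1.BL
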