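import Pool.Agent.H1.BL.Two

/-!
Counting for polynomials with exponents in two residue classes modulo `L`.
-/

namespace Pool.Agent.H1.BL

open Polynomial Finset

noncomputable section

variable {K : Type*} [Field K]

theorem exists_coprime {G1 G2 : K[X]} (h1 : G1 ≠ 0) (h2 : G2 ≠ 0) : ∃ D U V : K[X],
    D ≠ 0 ∧ U ≠ 0 ∧ V ≠ 0 ∧ G1 = D * U ∧ G2 = D * V ∧ IsCoprime U V := by
  classical
  have hD : EuclideanDomain.gcd G1 G2 ≠ 0 := by
    intro h
    exact h1 (EuclideanDomain.gcd_eq_zero_iff.1 h).1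
  obtain ⟨U, hU⟩ := EuclideanDomain.gcd_dvd_left G1 G2
  obtain ⟨V, hV⟩ := EuclideanDomain.gcd_dvd_right G1 G2
  refine ⟨EuclideanDomain.gcd G1 G2, U, V, hD, ?_, ?_, hU, hV, ?_⟩
  · rintro rfl
    rw [mul_zero] at hU
    exact h1 hU
  · rintro rfl
    rw [mul_zero] at hV
    exact h2 hV
  · have h3 := EuclideanDomain.gcd_eq_gcd_ab G1 G2
    refine ⟨EuclideanDomain.gcdA G1 G2, EuclideanDomain.gcdB G1 G2, ?_⟩
    have h4 : EuclideanDomain.gcd G1 G2 * 1 = EuclideanDomain.gcd G1 G2
        * (EuclideanDomain.gcdA G1 G2 * U + EuclideanDomain.gcdB G1 G2 * V) := by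
      rw [mul_one]
      conv_lhs => rw [h3]
      conv_lhs =>
        congr
        · congr
          · rw [hU]
        · congr
          · rw [hV]
      ring
    exact (mul_left_cancel₀ hD h4).symm

/-- An element of order dividing the prime `q`, two powers of which coincide. -/
theorem eq_of_pow {q a b : ℕ} (hq : q.Prime) (hE : ¬ q ∣ (((a : ℤ) - b).natAbs)) {y : K}
    (hy : y ^ q = 1) (hab : y ^ a = y ^ b) : y = 1 := by
  have hy0 : y ≠ 0 := by
    rintro rfl
    rw [zero_pow hq.ne_zero] at hy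
    exact zero_ne_one hy
  have h1 : y ^ (((a : ℤ) - b).natAbs) = 1 := by
    rcases le_total a b with h | h
    · have h2 : ((a : ℤ) - b).natAbs = b - a := by omega
      rw [h2]
      have h3 : y ^ a * y ^ (b - a) = y ^ a * 1 := by
        rw [← pow_add, Nat.add_sub_cancel' h, mul_one, hab]
      exact mul_left_cancel₀ (pow_ne_zero _ hy0) h3
    · have h2 : ((a : ℤ) - b).natAbs = a - b := by omega
      rw [h2]
      have h3 : y ^ b * y ^ (a - b) = y ^ b * 1 := by
        rw [← pow_add, Nat.add_sub_cancel' h, mul_one, hab]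
      exact mul_left_cancel₀ (pow_ne_zero _ hy0) h3
  have h2 := orderOf_dvd_of_pow_eq_one hy
  rcases (Nat.dvd_prime hq).1 h2 with h3 | h3
  · exact orderOf_eq_one_iff.1 h3
  · exfalso
    apply hE
    rw [← h3]
    exact orderOf_dvd_of_pow_eq_one h1

theorem two_classes [IsAlgClosed K] {j : ℕ} (hj : j.Prime) (hjK : (j : K) ≠ 0) {G1 G2 : K[X]}
    (h1 : G1 ≠ 0) (h2 : G2 ≠ 0) {m L s1 s2 N : ℕ} (hd1 : G1.natDegree ≤ m)
    (hd2 : G2.natDegree ≤ m) (hs : ¬ s1 ≡ s2 [MOD L])
    (hN : 1 ≤ N) (hN1 : s1 + L * G1.natDegree ≤ N) (hN2 : s2 + L * G2.natDegree ≤ N) :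
    ∃ E : ℕ, 0 < E ∧ E ≤ N ∧ ∀ Q : Finset ℕ,
      (∀ q ∈ Q, q.Prime ∧ Nat.Coprime L q ∧ q ≠ j ∧ ¬ q ∣ E ∧ ∃ x : K, IsPrimitiveRoot x q) →
      (∀ q ∈ Q, ∀ x : K, x ^ q = 1 → x ^ s1 * G1.eval (x ^ L) + x ^ s2 * G2.eval (x ^ L) = 0) →
      ∑ q ∈ Q, (q - 2) ≤ (2 * j + 2) * m := by
  classical
  obtain ⟨D, U, V, hD, hU, hV, hG1, hG2, hcop⟩ := exists_coprime h1 h2
  have hdU : D.natDegree + U.natDegree = G1.natDegree := by rw [hG1, natDegree_mul hD hU]
  have hdV : D.natDegree + V.natDegree = G2.natDegree := by rw [hG2, natDegree_mul hD hV]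
  have hDm : D.natDegree ≤ m := by omega
  -- inverse of the power map
  have hback : ∀ q : ℕ, q.Prime → Nat.Coprime L q → ∀ z : K, z ^ q = 1 →
      ∃ x : K, x ^ q = 1 ∧ x ^ L = z := by
    intro q hq hcopL z hz
    obtain ⟨L', -, hL'⟩ := Nat.exists_mul_mod_eq_one_of_coprime hcopL hq.one_lt
    refine ⟨z ^ L', ?_, ?_⟩
    · rw [← pow_mul, mul_comm, pow_mul, hz, one_pow]
    · rw [← pow_mul, mul_comm, ← Nat.div_add_mod (L * L') q, hL', pow_add, pow_mul, hz, one_pow,
        one_mul, pow_one]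
  obtain ⟨σ, hσ⟩ : ∃ σ : K, σ = (-1) ^ j := ⟨_, rfl⟩
  have hσ2 : σ * σ = 1 := by
    rw [hσ, ← mul_pow]
    simp
  have hσ0 : σ ≠ 0 := by
    rintro rfl
    rw [zero_mul] at hσ2
    exact zero_ne_one hσ2
  obtain ⟨T, hT⟩ : ∃ T : K[X], T = C σ * (V ^ j * U.comp (X ^ j)) + U ^ j * V.comp (X ^ j) := ⟨_, rfl⟩
  by_cases hT0 : T = 0
  · -- the functional equation
    have h3 : U.comp (X ^ j) * V ^ j = C (-σ) * (V.comp (X ^ j) * U ^ j) := by
      have h4 : C σ * C σ = (1 : K[X]) := by rw [← C_mul, hσ2, C_1]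
      have h5 : C σ * (V ^ j * U.comp (X ^ j)) = - (U ^ j * V.comp (X ^ j)) := by
        rw [hT0] at hT
        exact eq_neg_of_add_eq_zero_left hT.symm
      calc U.comp (X ^ j) * V ^ j = (C σ * C σ) * (U.comp (X ^ j) * V ^ j) := by rw [h4, one_mul]
        _ = C σ * (C σ * (V ^ j * U.comp (X ^ j))) := by ring
        _ = C σ * - (U ^ j * V.comp (X ^ j)) := by rw [h5]
        _ = C (-σ) * (V.comp (X ^ j) * U ^ j) := by
            rw [C_neg]
            ring
    obtain ⟨⟨u, e1, hu, hUe⟩, ⟨v, e2, hv, hVe⟩⟩ :=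
      functional hj.two_le hjK hU hV hcop (neg_ne_zero.2 hσ0) h3
    have he1 : U.natDegree = e1 := by rw [hUe, natDegree_C_mul_X_pow _ _ hu]
    have he2 : V.natDegree = e2 := by rw [hVe, natDegree_C_mul_X_pow _ _ hv]
    obtain ⟨a, ha⟩ : ∃ a, a = s1 + L * e1 := ⟨_, rfl⟩
    obtain ⟨b, hb⟩ : ∃ b, b = s2 + L * e2 := ⟨_, rfl⟩
    have haN : a ≤ N := by
      rw [ha]
      have : L * e1 ≤ L * G1.natDegree := Nat.mul_le_mul_left _ (by omega)
      omega
    have hbN : b ≤ N := by
      rw [hb]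
      have : L * e2 ≤ L * G2.natDegree := Nat.mul_le_mul_left _ (by omega)
      omega
    have hab : a ≠ b := by
      intro h
      apply hs
      have h4 : s1 + L * e1 ≡ s2 + L * e2 [MOD L] := by rw [← ha, ← hb, h]
      have h5 : s1 + L * e1 ≡ s1 [MOD L] := by simp [Nat.ModEq]
      have h6 : s2 + L * e2 ≡ s2 [MOD L] := by simp [Nat.ModEq]
      exact h5.symm.trans (h4.trans h6)
    refine ⟨((a : ℤ) - b).natAbs, ?_, by omega, ?_⟩
    · rw [Int.natAbs_pos]
      omega
    · intro Q hQ hvan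
      have hone : ∀ q ∈ Q, q - 2 ≤ (Zs D 1 q).card := by
        intro q hq
        obtain ⟨hqp, hqL, -, hqE, x0, hx0⟩ := hQ q hq
        have h4 : (primitiveRoots q K \ Zs D 1 q).card ≤ 1 := by
          rw [card_le_one]
          intro z hz z' hz'
          have hrel : ∀ z ∈ primitiveRoots q K \ Zs D 1 q, ∃ x : K, x ^ q = 1 ∧ x ^ L = z ∧
              u * x ^ a + v * x ^ b = 0 := by
            intro z hz
            rw [mem_sdiff, Zs, mem_filter, pow_one, not_and] at hz
            have hzq := ((mem_primitiveRoots hqp.pos).1 hz.1).pow_eq_one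
            obtain ⟨x, hx, hxL⟩ := hback q hqp hqL z hzq
            refine ⟨x, hx, hxL, ?_⟩
            have h5 := hvan q hq x hx
            rw [hxL, hG1, hG2, eval_mul, eval_mul, hUe, hVe, eval_mul, eval_mul, eval_C, eval_C,
              eval_pow, eval_pow, eval_X, ← hxL] at h5
            have h6 : D.eval (x ^ L) * (u * x ^ a + v * x ^ b) = 0 := by
              rw [ha, hb, pow_add, pow_add, pow_mul, pow_mul]
              linear_combination h5
            rw [hxL] at h6
            exact (mul_eq_zero.1 h6).resolve_left (hz.2 hz.1)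
          obtain ⟨x, hx, hxL, hr1⟩ := hrel z hz
          obtain ⟨x', hx', hxL', hr2⟩ := hrel z' hz'
          have hx'0 : x' ≠ 0 := by
            rintro rfl
            rw [zero_pow hqp.ne_zero] at hx'
            exact zero_ne_one hx'
          have h5 : (x / x') ^ a = (x / x') ^ b := by
            rw [div_pow, div_pow, div_eq_div_iff (pow_ne_zero _ hx'0) (pow_ne_zero _ hx'0)]
            have h6 : u * (x ^ a * x' ^ b) = u * (x ^ b * x' ^ a) := by
              linear_combination x' ^ b * hr1 - x ^ b * hr2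
            exact mul_left_cancel₀ hu h6
          have h6 := eq_of_pow hqp hqE (by rw [div_pow, hx, hx', div_one]) h5
          rw [← hxL, ← hxL', (div_eq_one_iff_eq hx'0).1 h6]
        have h5 : (primitiveRoots q K).card ≤ (primitiveRoots q K \ Zs D 1 q).card
            + (Zs D 1 q).card := by
          have h6 := card_union_le (primitiveRoots q K \ Zs D 1 q) (Zs D 1 q)
          refine (card_le_card ?_).trans h6
          intro z hz
          rw [mem_union, mem_sdiff]
          by_cases h7 : z ∈ Zs D 1 q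
          · exact Or.inr h7
          · exact Or.inl ⟨hz, h7⟩
        rw [hx0.card_primitiveRoots, Nat.totient_prime hqp] at h5
        omega
      calc ∑ q ∈ Q, (q - 2) ≤ ∑ q ∈ Q, (Zs D 1 q).card := sum_le_sum hone
        _ ≤ D.natDegree := sum_Zs_le hD fun q hq => (hQ q hq).1.pos
        _ ≤ m := hDm
        _ ≤ (2 * j + 2) * m := Nat.le_mul_of_pos_left m (by omega)
  · refine ⟨1, one_pos, hN, fun Q hQ hvan => ?_⟩
    have hone : ∀ q ∈ Q, q - 2 ≤ (Zs T 1 q).card + 2 * (Zs D 1 q).card := by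
      intro q hq
      obtain ⟨hqp, hqL, hqj, -, x0, hx0⟩ := hQ q hq
      have hcopj : Nat.Coprime j q := (Nat.coprime_primes hj hqp).2 (Ne.symm hqj)
      have hsub : primitiveRoots q K ⊆ Zs T 1 q ∪ (Zs D 1 q ∪ Zs D j q) := by
        intro z hz
        rw [mem_union, mem_union]
        by_cases hz1 : D.eval z = 0
        · right; left
          rw [Zs, mem_filter, pow_one]
          exact ⟨hz, hz1⟩
        by_cases hz2 : D.eval (z ^ j) = 0
        · right; right
          rw [Zs, mem_filter]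
          exact ⟨hz, hz2⟩
        left
        rw [Zs, mem_filter, pow_one]
        refine ⟨hz, ?_⟩
        have hzq := ((mem_primitiveRoots hqp.pos).1 hz).pow_eq_one
        obtain ⟨x, hx, hxL⟩ := hback q hqp hqL z hzq
        have hxj : (x ^ j) ^ q = 1 := by rw [← pow_mul, mul_comm, pow_mul, hx, one_pow]
        have hxjL : (x ^ j) ^ L = z ^ j := by rw [← pow_mul, mul_comm, pow_mul, hxL]
        have h5 := hvan q hq x hx
        have h6 := hvan q hq (x ^ j) hxj
        rw [hxL, hG1, hG2, eval_mul, eval_mul] at h5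
        rw [hxjL, hG1, hG2, eval_mul, eval_mul] at h6
        have h7 : x ^ s1 * U.eval z = - (x ^ s2 * V.eval z) := by
          have h8 : D.eval z * (x ^ s1 * U.eval z + x ^ s2 * V.eval z) = 0 := by
            linear_combination h5
          exact eq_neg_of_add_eq_zero_left ((mul_eq_zero.1 h8).resolve_left hz1)
        have h8 : (x ^ j) ^ s1 * U.eval (z ^ j) = - ((x ^ j) ^ s2 * V.eval (z ^ j)) := by
          have h9 : D.eval (z ^ j) * ((x ^ j) ^ s1 * U.eval (z ^ j)
              + (x ^ j) ^ s2 * V.eval (z ^ j)) = 0 := by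
            linear_combination h6
          exact eq_neg_of_add_eq_zero_left ((mul_eq_zero.1 h9).resolve_left hz2)
        have hx0' : x ≠ 0 := by
          rintro rfl
          rw [zero_pow hqp.ne_zero] at hx
          exact zero_ne_one hx
        have h9 : (x ^ j) ^ s1 * (U.eval z) ^ j = σ * ((x ^ j) ^ s2 * (V.eval z) ^ j) := by
          rw [pow_right_comm x j s1, pow_right_comm x j s2, ← mul_pow, h7, neg_eq_neg_one_mul,
            mul_pow, ← hσ, mul_pow]
        have h10 : (x ^ j) ^ s2 ≠ 0 := pow_ne_zero _ (pow_ne_zero _ hx0')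
        have h11 : (x ^ j) ^ s2 * (σ * ((V.eval z) ^ j * U.eval (z ^ j))
            + (U.eval z) ^ j * V.eval (z ^ j)) = 0 := by
          linear_combination (-(U.eval (z ^ j))) * h9 + (U.eval z) ^ j * h8
        have h12 := (mul_eq_zero.1 h11).resolve_left h10
        rw [hT, eval_add, eval_mul, eval_C, eval_mul, eval_mul, eval_pow, eval_pow, eval_comp,
          eval_comp, eval_pow, eval_X]
        exact h12
      have h4 := card_le_card hsub
      have h5 := card_union_le (Zs T 1 q) (Zs D 1 q ∪ Zs D j q)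
      have h6 := card_union_le (Zs D 1 q) (Zs D j q)
      have h7 := Zs_card_le (G := D) hqp hcopj
      rw [hx0.card_primitiveRoots, Nat.totient_prime hqp] at h4
      omega
    have hTd : T.natDegree ≤ j * U.natDegree + j * V.natDegree := by
      rw [hT]
      refine (natDegree_add_le _ _).trans (max_le ?_ ?_)
      · refine (natDegree_C_mul_le _ _).trans (natDegree_mul_le.trans ?_)
        rw [natDegree_pow, natDegree_comp, natDegree_X_pow]
        nlinarith
      · refine natDegree_mul_le.trans ?_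
        rw [natDegree_pow, natDegree_comp, natDegree_X_pow]
        nlinarith
    calc ∑ q ∈ Q, (q - 2) ≤ ∑ q ∈ Q, ((Zs T 1 q).card + 2 * (Zs D 1 q).card) := sum_le_sum hone
      _ = ∑ q ∈ Q, (Zs T 1 q).card + 2 * ∑ q ∈ Q, (Zs D 1 q).card := by
          rw [sum_add_distrib, mul_sum]
      _ ≤ T.natDegree + 2 * D.natDegree :=
          Nat.add_le_add (sum_Zs_le hT0 fun q hq => (hQ q hq).1.pos)
            (Nat.mul_le_mul_left 2 (sum_Zs_le hD fun q hq => (hQ q hq).1.pos))
      _ ≤ (2 * j + 2) * m := by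
          have h5 : j * U.natDegree ≤ j * m := Nat.mul_le_mul_left _ (by omega)
          have h6 : j * V.natDegree ≤ j * m := Nat.mul_le_mul_left _ (by omega)
          nlinarith

end

end Pool.Agent.H1.BL
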