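import Pool.Agent.H1.BL.Ust

/-!
The general theorem: if `p * h` is congruent modulo `l` to `F * ∏ G i (X ^ L i)` with `F` having at
most `t` terms and degree at most `N`, then
`k ≤ C * log H * (sqrt (t * m / log (t * m)) + Λ / log Λ)`,
`m ≥ 2 + ∑ deg (G i)`, `Λ ≥ t * log N + log (l * ∏ L i)`.
-/

namespace Pool.Agent.H1.BL

open Polynomial Finset

noncomputable section

theorem sum_V_ge {c : ℝ} (hc0 : 0 < c) {V : Finset ℕ} {y : ℝ} (hy2 : 2 ≤ y)
    (hV : ∀ q ∈ V, q.Prime ∧ (q : ℝ) ≤ y) (h4 : c * y / 2 ≤ ∑ q ∈ V, Real.log q) :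
    c ^ 2 / 64 * y ^ 2 ≤ Real.log y * ∑ q ∈ V, (q : ℝ) := by
  have hy0 : 0 < y := by linarith
  obtain ⟨δ, hδ⟩ : ∃ δ : ℝ, δ = c / 8 := ⟨_, rfl⟩
  have hδ0 : 0 < δ := by rw [hδ]; positivity
  have h5 : ∑ q ∈ V.filter (fun q : ℕ => (q : ℝ) ≤ δ * y), Real.log q ≤ c * y / 4 := by
    have h6 : ∑ q ∈ V.filter (fun q : ℕ => (q : ℝ) ≤ δ * y), Real.log q
        ≤ Chebyshev.theta (δ * y) := by
      unfold Chebyshev.theta
      refine sum_le_sum_of_subset_of_nonneg ?_ ?_
      · intro q hq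
        rw [mem_filter] at hq
        rw [mem_filter, mem_Ioc]
        exact ⟨⟨(hV q hq.1).1.pos, Nat.le_floor hq.2⟩, (hV q hq.1).1⟩
      · intro q hq _
        exact Real.log_nonneg (by exact_mod_cast (mem_filter.1 hq).2.one_lt.le)
    have h7 := Chebyshev.theta_le_log4_mul_x (show 0 ≤ δ * y by positivity)
    have h8 : Real.log 4 ≤ 2 := by
      rw [show (4 : ℝ) = 2 ^ 2 by norm_num, Real.log_pow]
      have := Real.log_two_lt_d9
      norm_num
      linarith
    have h9 : Real.log 4 * (δ * y) ≤ 2 * (δ * y) := mul_le_mul_of_nonneg_right h8 (by positivity)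
    rw [hδ] at h6 h7 h9 ⊢
    linarith
  obtain ⟨U, hU⟩ : ∃ U : Finset ℕ, U = V.filter (fun q : ℕ => ¬ (q : ℝ) ≤ δ * y) := ⟨_, rfl⟩
  have h6 : c * y / 4 ≤ ∑ q ∈ U, Real.log q := by
    have := sum_filter_add_sum_filter_not V (fun q : ℕ => (q : ℝ) ≤ δ * y)
      (fun q => Real.log q)
    rw [← hU] at this
    linarith
  have hmem : ∀ q ∈ U, q.Prime ∧ (q : ℝ) ≤ y ∧ δ * y < q := by
    intro q hq
    rw [hU, mem_filter] at hq
    exact ⟨(hV q hq.1).1, (hV q hq.1).2, not_le.1 hq.2⟩
  have hly : 0 < Real.log y := Real.log_pos (by linarith)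
  have h7 : c * y / 4 ≤ U.card * Real.log y := by
    refine h6.trans ?_
    rw [← nsmul_eq_mul]
    refine sum_le_card_nsmul _ _ _ fun q hq => ?_
    obtain ⟨h8, h9, -⟩ := hmem q hq
    exact Real.log_le_log (by exact_mod_cast h8.pos) h9
  have h8 : U.card * (δ * y / 2) ≤ ∑ q ∈ V, (q : ℝ) := by
    have h9 : U.card * (δ * y / 2) ≤ ∑ q ∈ U, (q : ℝ) := by
      rw [← nsmul_eq_mul]
      refine card_nsmul_le_sum _ _ _ fun q hq => ?_
      obtain ⟨h10, -, h11⟩ := hmem q hq
      have : 0 < δ * y := by positivity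
      linarith
    refine h9.trans (sum_le_sum_of_subset_of_nonneg ?_ ?_)
    · rw [hU]
      exact filter_subset _ _
    · intro q _ _
      positivity
  calc c ^ 2 / 64 * y ^ 2 = (c * y / 4) * (δ * y / 2) := by rw [hδ]; ring
    _ ≤ (U.card * Real.log y) * (δ * y / 2) := mul_le_mul_of_nonneg_right h7 (by positivity)
    _ = Real.log y * (U.card * (δ * y / 2)) := by ring
    _ ≤ Real.log y * ∑ q ∈ V, (q : ℝ) := mul_le_mul_of_nonneg_left h8 hly.le

theorem uni : ∃ C : ℝ, 0 < C ∧ ∀ l : ℕ, l.Prime → ∀ (p h F : ℤ[X]) (G : ℕ → ℤ[X]) (L : ℕ → ℕ)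
    (H : ℝ) (N t s k : ℕ) (m Λ : ℝ), 2 ≤ H → 3 ≤ N →
    ∑ i ∈ p.support, |(p.coeff i : ℝ)| ≤ H → F.natDegree ≤ N →
    ((range (N + 1)).filter fun j => ¬ (l : ℤ) ∣ F.coeff j).card ≤ t →
    (∀ i < s, 1 ≤ L i) →
    (∀ j, (l : ℤ) ∣ (p * h - F * ∏ i ∈ range s, (G i).comp (X ^ L i)).coeff j) →
    (∃ j, ¬ (l : ℤ) ∣ (p * h).coeff j) →
    (X - 1) ^ k ∣ p →
    2 + ∑ i ∈ range s, ((G i).natDegree : ℝ) ≤ m →
    t * Real.log N + Real.log ((l * ∏ i ∈ range s, L i : ℕ) : ℝ) ≤ Λ →
    (k : ℝ) ≤ C * Real.log H * (Real.sqrt (t * m / Real.log (t * m)) + Λ / Real.log Λ) := by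
  obtain ⟨c, hc0, hc1, hc⟩ := real_theta
  obtain ⟨D, hD1, hD⟩ := sq_le (show (0 : ℝ) < 128 / c ^ 2 by positivity)
  refine ⟨4 * D + 28 / c, by positivity, ?_⟩
  intro l hl p h F G L H N t s k m Λ hH2 hN hH hF ht hL hcong hne hk hm hΛ
  have hN3 : (3 : ℝ) ≤ N := by exact_mod_cast hN
  have hl2 : (2 : ℝ) ≤ l := by exact_mod_cast hl.two_le
  have hH0 : 0 < Real.log H := Real.log_pos (by linarith)
  have hLN : 1 ≤ Real.log N := by
    rw [Real.le_log_iff_exp_le (by linarith)]
    linarith [Real.exp_one_lt_d9]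
  have hd0 : 0 < l * ∏ i ∈ range s, L i :=
    Nat.mul_pos hl.pos (prod_pos fun i hi => hL i (mem_range.1 hi))
  have hd2 : 2 ≤ l * ∏ i ∈ range s, L i := by
    have h1 : 0 < ∏ i ∈ range s, L i := prod_pos fun i hi => hL i (mem_range.1 hi)
    nlinarith [hl.two_le]
  have hld : Real.log 2 ≤ Real.log ((l * ∏ i ∈ range s, L i : ℕ) : ℝ) :=
    Real.log_le_log (by norm_num) (by exact_mod_cast hd2)
  have hl2' := Real.log_two_gt_d9
  have hsum0 : (0 : ℝ) ≤ ∑ i ∈ range s, ((G i).natDegree : ℝ) := by positivity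
  have hm2 : 2 ≤ m := by linarith
  rcases Nat.eq_zero_or_pos k with rfl | hk0
  · -- `k = 0`
    rcases Nat.eq_zero_or_pos t with rfl | ht0
    · simp only [Nat.cast_zero, zero_mul, Real.log_zero, div_zero, Real.sqrt_zero, zero_add] at hΛ ⊢
      have h1 : 0 < Λ := by linarith
      exfalso
      -- `F` is zero modulo `l`
      obtain ⟨j, hj⟩ := hne
      rw [Nat.le_zero, card_eq_zero] at ht
      have hF0 : ∀ j, (l : ℤ) ∣ F.coeff j := by
        intro j
        by_contra hj'
        have : j ∈ (range (N + 1)).filter fun j => ¬ (l : ℤ) ∣ F.coeff j := by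
          rw [mem_filter, mem_range]
          refine ⟨?_, hj'⟩
          by_contra hc'
          exact hj' (by rw [coeff_eq_zero_of_natDegree_lt (by omega)]; exact dvd_zero _)
        rw [ht] at this
        simp at this
      apply hj
      have h2 := hcong j
      rw [coeff_sub] at h2
      have h3 : (l : ℤ) ∣ (F * ∏ i ∈ range s, (G i).comp (X ^ L i)).coeff j := by
        rw [coeff_mul]
        exact dvd_sum fun x _ => (hF0 x.1).mul_right _
      have h4 := dvd_add h2 h3
      rwa [sub_add_cancel] at h4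
    · have ht1 : (1 : ℝ) ≤ t := by exact_mod_cast ht0
      have h1 : 1 < Λ := by nlinarith
      have h2 : 0 < Real.log Λ := Real.log_pos h1
      have h3 : 0 ≤ Real.sqrt (t * m / Real.log (t * m)) := Real.sqrt_nonneg _
      rw [Nat.cast_zero]
      have : 0 ≤ Λ / Real.log Λ := div_nonneg (by linarith) h2.le
      positivity
  have ht0 : 1 ≤ t := (uni_step hl hk0.ne' hk (by linarith) hH (by omega) hF ht hL hcong hne
    (y := 0) le_rfl (fun q hq hq0 => by
      exfalso
      have : (0 : ℝ) < q := by exact_mod_cast hq.pos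
      linarith)).1
  have ht1 : (1 : ℝ) ≤ t := by exact_mod_cast ht0
  have hΛ1 : 1 < Λ := by nlinarith
  have hRR : 0 < Real.log Λ := Real.log_pos hΛ1
  obtain ⟨m', hm'⟩ : ∃ m' : ℝ, m' = t * m := ⟨_, rfl⟩
  have hm2' : 2 ≤ m' := by
    rw [hm']
    nlinarith
  have hlm : 0 < Real.log m' := Real.log_pos (by linarith)
  rw [← hm']
  obtain ⟨A, hA⟩ : ∃ A : ℝ, A = 14 / c * Λ := ⟨_, rfl⟩
  obtain ⟨B, hB⟩ : ∃ B : ℝ, B = D * Real.sqrt (m' * Real.log m') := ⟨_, rfl⟩
  have hc2 : 14 ≤ 14 / c := by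
    rw [le_div_iff₀ hc0]
    linarith
  have hA2 : 14 * Λ ≤ A := by
    rw [hA]
    exact mul_le_mul_of_nonneg_right hc2 (by linarith)
  have fail : ∀ y : ℝ, A ≤ y → B < y → (k : ℝ) * Real.log y ≤ y * Real.log H := by
    intro y hAy hBy
    have hy2 : 2 ≤ y := by linarith
    have hly : 0 < Real.log y := Real.log_pos (by linarith)
    by_contra hcon'
    push_neg at hcon'
    have hforced : ∀ q : ℕ, q.Prime → (q : ℝ) ≤ y →
        ((q : ℝ) - 1) * Real.log H < k * Real.log q := by
      intro q hq hqy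
      have hq1 : (1 : ℝ) < q := by exact_mod_cast hq.one_lt
      have hlq : 0 < Real.log q := Real.log_pos hq1
      have h2 := log_mono hq1 hqy
      have h3 : ((q : ℝ) - 1) * Real.log H * Real.log y < k * Real.log q * Real.log y := by
        calc ((q : ℝ) - 1) * Real.log H * Real.log y
            = (((q : ℝ) - 1) * Real.log y) * Real.log H := by ring
          _ ≤ ((y - 1) * Real.log q) * Real.log H := mul_le_mul_of_nonneg_right h2 hH0.le
          _ ≤ (y * Real.log q) * Real.log H := by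
              refine mul_le_mul_of_nonneg_right ?_ hH0.le
              exact mul_le_mul_of_nonneg_right (by linarith) hlq.le
          _ = (y * Real.log H) * Real.log q := by ring
          _ < (k * Real.log y) * Real.log q := mul_lt_mul_of_pos_right hcon' hlq
          _ = k * Real.log q * Real.log y := by ring
      exact lt_of_mul_lt_mul_right h3 hly.le
    obtain ⟨-, V, hV, hV1, hV2⟩ := uni_step hl hk0.ne' hk (by linarith) hH (by omega) hF ht hL
      hcong hne (by linarith) hforced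
    have h1 := hc y hy2
    have h2 : (6 : ℝ) * t + t * Real.log N + Real.log ((l * ∏ i ∈ range s, L i : ℕ) : ℝ)
        ≤ 7 * Λ := by nlinarith
    have h3 : 7 * Λ ≤ c * y / 2 := by
      have h4 : 14 * Λ ≤ c * y := by
        rw [hA, div_mul_eq_mul_div, div_le_iff₀ hc0] at hAy
        linarith
      linarith
    have h5 : c * y / 2 ≤ ∑ q ∈ V, Real.log q := by linarith
    have h6 := sum_V_ge hc0 hy2 hV h5
    have h7 : ∑ q ∈ V, (q : ℝ) ≤ 2 * m' := by
      refine hV1.trans ?_
      rw [hm', mul_assoc]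
      have h8 : (t : ℝ) * ∑ i ∈ range s, ((G i).natDegree : ℝ) ≤ t * m :=
        mul_le_mul_of_nonneg_left (by linarith) (by linarith)
      linarith
    have h12 : y ^ 2 ≤ 128 / c ^ 2 * m' * Real.log y := by
      have h13 : c ^ 2 / 64 * y ^ 2 ≤ Real.log y * (2 * m') :=
        h6.trans (mul_le_mul_of_nonneg_left h7 hly.le)
      calc y ^ 2 = 64 / c ^ 2 * (c ^ 2 / 64 * y ^ 2) := by field_simp
        _ ≤ 64 / c ^ 2 * (Real.log y * (2 * m')) := mul_le_mul_of_nonneg_left h13 (by positivity)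
        _ = 128 / c ^ 2 * m' * Real.log y := by ring
    have h14 := hD m' y hm2' hy2 h12
    rw [← hB] at h14
    linarith
  have hBm : Real.sqrt m' ≤ 2 * B := by
    rw [hB]
    have h1 : Real.sqrt m' ≤ 2 * Real.sqrt (m' * Real.log m') := by
      rw [show (2 : ℝ) = Real.sqrt (2 ^ 2) by rw [Real.sqrt_sq (by norm_num)],
        ← Real.sqrt_mul (by norm_num)]
      refine Real.sqrt_le_sqrt ?_
      have h3 : Real.log 2 ≤ Real.log m' := Real.log_le_log (by norm_num) hm2'
      nlinarith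
    have h2 : 0 ≤ Real.sqrt (m' * Real.log m') := Real.sqrt_nonneg _
    nlinarith
  have hsqm : 0 < Real.sqrt m' := Real.sqrt_pos.2 (by linarith)
  have hs0 : 0 ≤ Real.sqrt (m' / Real.log m') := Real.sqrt_nonneg _
  rcases le_or_gt B A with hBA | hAB
  · have h1 := fail (2 * A) (by linarith) (by linarith)
    have h2 : Real.log Λ ≤ Real.log (2 * A) := Real.log_le_log (by linarith) (by linarith)
    have h3 : (k : ℝ) * Real.log Λ ≤ 2 * A * Real.log H :=
      (mul_le_mul_of_nonneg_left h2 (by positivity)).trans h1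
    have h4 : (k : ℝ) ≤ 2 * A * Real.log H / Real.log Λ := by
      rw [le_div_iff₀ hRR]
      exact h3
    have h5 : 0 ≤ Λ / Real.log Λ := div_nonneg (by linarith) hRR.le
    calc (k : ℝ) ≤ 2 * A * Real.log H / Real.log Λ := h4
      _ = (28 / c) * Real.log H * (Λ / Real.log Λ) := by
          rw [hA]
          ring
      _ ≤ (4 * D + 28 / c) * Real.log H * (Real.sqrt (m' / Real.log m') + Λ / Real.log Λ) := by
          have h6 : (28 / c) * Real.log H ≤ (4 * D + 28 / c) * Real.log H :=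
            mul_le_mul_of_nonneg_right (by linarith) hH0.le
          exact mul_le_mul h6 (by linarith) h5 (by positivity)
  · have hB0 : 0 < B := by linarith
    have h1 := fail (2 * B) (by linarith) (by linarith)
    have h2 : Real.log m' / 2 ≤ Real.log (2 * B) := by
      rw [← Real.log_sqrt (by linarith)]
      exact Real.log_le_log hsqm hBm
    have h3 : (k : ℝ) * (Real.log m' / 2) ≤ 2 * B * Real.log H :=
      (mul_le_mul_of_nonneg_left h2 (by positivity)).trans h1
    have h4 : (k : ℝ) ≤ 4 * B * Real.log H / Real.log m' := by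
      rw [le_div_iff₀ hlm]
      linarith
    have h5 : Real.sqrt (m' * Real.log m') / Real.log m' = Real.sqrt (m' / Real.log m') := by
      rw [Real.sqrt_mul (by linarith), Real.sqrt_div (by linarith), mul_div_assoc]
      rw [Real.sqrt_div_self', mul_one_div]
    calc (k : ℝ) ≤ 4 * B * Real.log H / Real.log m' := h4
      _ = (4 * D) * Real.log H * (Real.sqrt (m' * Real.log m') / Real.log m') := by
          rw [hB]
          ring
      _ = (4 * D) * Real.log H * Real.sqrt (m' / Real.log m') := by rw [h5]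
      _ ≤ (4 * D + 28 / c) * Real.log H * (Real.sqrt (m' / Real.log m') + Λ / Real.log Λ) := by
          have h6 : 0 ≤ Λ / Real.log Λ := div_nonneg (by linarith) hRR.le
          have h7 : (4 * D) * Real.log H ≤ (4 * D + 28 / c) * Real.log H := by
            refine mul_le_mul_of_nonneg_right ?_ hH0.le
            have : 0 < 28 / c := by positivity
            linarith
          exact mul_le_mul h7 (by linarith) hs0 (by positivity)

end

end Pool.Agent.H1.BL
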