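import Pool.Agent.H1.BL.Win

/-!
Counting the roots of prime order of a product of polynomials in powers of the variable, and the
consequences for a sparse cofactor.
-/

namespace Pool.Agent.H1.BL

open Polynomial Finset

noncomputable section

variable {K : Type*} [Field K]

open scoped Classical in
/-- The primitive `q`-th roots of unity at which `G (z ^ L)` vanishes. -/
def Zs (G : K[X]) (L q : ℕ) : Finset K := (primitiveRoots q K).filter fun z => G.eval (z ^ L) = 0

open scoped Classical in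
/-- The primitive `q`-th roots of unity at which some `G i (z ^ L i)`, `i < s`, vanishes. -/
def Zp (G : ℕ → K[X]) (L : ℕ → ℕ) (s q : ℕ) : Finset K :=
  (primitiveRoots q K).filter fun z => ∏ i ∈ range s, (G i).eval (z ^ L i) = 0

theorem Zs_card_le {G : K[X]} {L q : ℕ} (hq : q.Prime) (hcop : Nat.Coprime L q) :
    (Zs G L q).card ≤ (Zs G 1 q).card := by
  classical
  obtain ⟨L', -, hL'⟩ := Nat.exists_mul_mod_eq_one_of_coprime hcop hq.one_lt
  have hback : ∀ z ∈ primitiveRoots q K, (z ^ L) ^ L' = z := by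
    intro z hz
    have hz' := (mem_primitiveRoots hq.pos).1 hz
    rw [← pow_mul, ← Nat.div_add_mod (L * L') q, hL', pow_add, pow_mul, hz'.pow_eq_one, one_pow,
      one_mul, pow_one]
  refine card_le_card_of_injOn (fun z => z ^ L) ?_ ?_
  · intro z hz
    rw [mem_coe, Zs, mem_filter] at hz
    rw [mem_coe, Zs, mem_filter, mem_primitiveRoots hq.pos, pow_one]
    exact ⟨((mem_primitiveRoots hq.pos).1 hz.1).pow_of_coprime L hcop, hz.2⟩
  · intro z hz z' hz' hzz
    rw [mem_coe, Zs, mem_filter] at hz hz'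
    simp only at hzz
    rw [← hback z hz.1, ← hback z' hz'.1, hzz]

theorem sum_Zs_le {G : K[X]} (hG : G ≠ 0) {Q : Finset ℕ} (hQ : ∀ q ∈ Q, 0 < q) :
    ∑ q ∈ Q, (Zs G 1 q).card ≤ G.natDegree := by
  classical
  rw [← card_biUnion (fun q _ q' _ hne => ?_)]
  · refine (card_le_card (t := G.roots.toFinset) ?_).trans
      ((Multiset.toFinset_card_le _).trans (card_roots' G))
    intro z hz
    rw [mem_biUnion] at hz
    obtain ⟨q, _, hz⟩ := hz
    rw [Zs, mem_filter, pow_one] at hz
    rw [Multiset.mem_toFinset, mem_roots hG]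
    exact hz.2
  · exact disjoint_of_subset_left (filter_subset _ _)
      (disjoint_of_subset_right (filter_subset _ _) (IsPrimitiveRoot.disjoint hne))

theorem Zp_card_le (G : ℕ → K[X]) (L : ℕ → ℕ) (s q : ℕ) :
    (Zp G L s q).card ≤ ∑ i ∈ range s, (Zs (G i) (L i) q).card := by
  classical
  refine le_trans (card_le_card (t := (range s).biUnion fun i => Zs (G i) (L i) q) ?_)
    card_biUnion_le
  intro z hz
  rw [Zp, mem_filter, prod_eq_zero_iff] at hz
  obtain ⟨h1, i, hi, h2⟩ := hz
  rw [mem_biUnion]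
  refine ⟨i, hi, ?_⟩
  rw [Zs, mem_filter]
  exact ⟨h1, h2⟩

theorem sum_Zp_le {G : ℕ → K[X]} {L : ℕ → ℕ} {s : ℕ} (hG : ∀ i < s, G i ≠ 0) {Q : Finset ℕ}
    (hQ : ∀ q ∈ Q, q.Prime) (hL : ∀ q ∈ Q, ∀ i < s, Nat.Coprime (L i) q) :
    ∑ q ∈ Q, (Zp G L s q).card ≤ ∑ i ∈ range s, (G i).natDegree := by
  calc ∑ q ∈ Q, (Zp G L s q).card
      ≤ ∑ q ∈ Q, ∑ i ∈ range s, (Zs (G i) 1 q).card := by
        refine sum_le_sum fun q hq => (Zp_card_le G L s q).trans (sum_le_sum fun i hi => ?_)
        exact Zs_card_le (hQ q hq) (hL q hq i (mem_range.1 hi))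
    _ = ∑ i ∈ range s, ∑ q ∈ Q, (Zs (G i) 1 q).card := sum_comm
    _ ≤ ∑ i ∈ range s, (G i).natDegree :=
        sum_le_sum fun i hi => sum_Zs_le (hG i (mem_range.1 hi)) fun q hq => (hQ q hq).pos

/-- If some class sum modulo `q` of the sparse factor is nonzero, the other factor has many roots of
order `q`. -/
theorem bad_prime {F : K[X]} {G : ℕ → K[X]} {L : ℕ → ℕ} {s q t c : ℕ} (hq : q.Prime) {x : K}
    (hx : IsPrimitiveRoot x q)
    (h : ∀ z : K, z ^ q = 1 → F.eval z * ∏ i ∈ range s, (G i).eval (z ^ L i) = 0)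
    (ht : F.support.card ≤ t) (hqt : 4 * t ≤ q) (hc : c < q) (hne : cs F q c ≠ 0) :
    q ≤ 2 * t * (Zp G L s q).card := by
  classical
  have h1 := card_ge hq.pos hx ht hc hne
  have h2 : ((range q).filter fun j => F.eval (x ^ j) ≠ 0).card ≤ (Zp G L s q).card + 1 := by
    have h3 : (((range q).filter fun j => F.eval (x ^ j) ≠ 0).image fun j => x ^ j)
        ⊆ insert 1 (Zp G L s q) := by
      intro z hz
      rw [mem_image] at hz
      obtain ⟨j, hj, rfl⟩ := hz
      rw [mem_filter, mem_range] at hj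
      rw [mem_insert]
      rcases Nat.eq_zero_or_pos j with rfl | hj0
      · left
        rw [pow_zero]
      · right
        rw [Zp, mem_filter, mem_primitiveRoots hq.pos]
        refine ⟨hx.pow_of_coprime j ?_, ?_⟩
        · rw [Nat.coprime_comm, Nat.Prime.coprime_iff_not_dvd hq]
          exact fun hd => absurd (Nat.le_of_dvd hj0 hd) (by omega)
        · have h4 := h (x ^ j) (by rw [← pow_mul, mul_comm, pow_mul, hx.pow_eq_one, one_pow])
          exact (mul_eq_zero.1 h4).resolve_left hj.2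
    have h4 := card_le_card h3
    rw [card_image_of_injOn] at h4
    · exact h4.trans (card_insert_le _ _)
    · intro a ha b hb hab
      rw [mem_coe, mem_filter, mem_range] at ha hb
      exact hx.pow_inj ha.1 hb.1 hab
  have h5 : q / t ≤ (Zp G L s q).card + 1 := by
    convert h1.trans h2
  rcases Nat.eq_zero_or_pos t with rfl | ht0
  · exfalso
    have h6 : F = 0 := by
      rw [← support_eq_empty, ← card_eq_zero]
      omega
    apply hne
    rw [h6]
    simp [cs]
  obtain ⟨Z, hZ⟩ : ∃ Z, Z = (Zp G L s q).card := ⟨_, rfl⟩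
  rw [← hZ] at h5 ⊢
  have h6 : q < (Z + 2) * t := by
    have h7 := Nat.lt_div_mul_add ht0 (a := q)
    have h8 : q / t * t ≤ (Z + 1) * t := Nat.mul_le_mul_right t h5
    have h9 : (Z + 2) * t = (Z + 1) * t + t := by ring
    omega
  have h7 : 4 < Z + 2 := by
    have : 4 * t < (Z + 2) * t := lt_of_le_of_lt hqt h6
    exact lt_of_mul_lt_mul_right this (Nat.zero_le t)
  have h8 : (Z + 2) * t ≤ 2 * t * Z := by nlinarith
  omega

end

end Pool.Agent.H1.BL
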