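import Pool.Agent.H1.BL.Prd
import Pool.Agent.H1.BL.Cnt
import Pool.Agent.H1.BL.Zrt

/-!
The primes up to `y`, all of them forced: divisors of `l * ∏ L i`, primes below `4 * t`, good primes
(whose product divides a product of differences of exponents) and bad primes (whose sum is small).
-/

namespace Pool.Agent.H1.BL

open Polynomial Finset

noncomputable section

theorem prod_le_pow {N : ℕ} {S Q : Finset ℕ} (hS : ∀ j ∈ S, j ≤ N) {i : ℕ} (hi : i ∈ S)
    (hQ : ∀ q ∈ Q, q.Prime) (h : ∀ q ∈ Q, ∃ j ∈ S, j ≠ i ∧ (q : ℤ) ∣ (i : ℤ) - j) :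
    ∏ q ∈ Q, q ≤ N ^ (S.card - 1) := by
  have hpos : 0 < ∏ j ∈ S.erase i, ((i : ℤ) - j).natAbs := by
    refine prod_pos fun j hj => ?_
    rw [Int.natAbs_pos, sub_ne_zero]
    exact_mod_cast (ne_of_mem_erase hj).symm
  have hdvd : ∏ q ∈ Q, q ∣ ∏ j ∈ S.erase i, ((i : ℤ) - j).natAbs := by
    refine prod_primes_dvd _ (fun q hq => Nat.prime_iff.1 (hQ q hq)) fun q hq => ?_
    obtain ⟨j, hj, hji, hd⟩ := h q hq
    refine dvd_trans ?_ (dvd_prod_of_mem _ (mem_erase.2 ⟨hji, hj⟩))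
    exact Int.natCast_dvd.1 hd
  refine (Nat.le_of_dvd hpos hdvd).trans ?_
  rw [← card_erase_of_mem hi]
  refine (prod_le_pow_card _ _ N fun j hj => ?_)
  have h1 := hS i hi
  have h2 := hS j (mem_of_mem_erase hj)
  omega

theorem log_prod_le {N t : ℕ} (hN : 1 ≤ N) {S Q : Finset ℕ} (hS : ∀ j ∈ S, j ≤ N)
    (hSt : S.card ≤ t) {i : ℕ} (hi : i ∈ S)
    (hQ : ∀ q ∈ Q, q.Prime) (h : ∀ q ∈ Q, ∃ j ∈ S, j ≠ i ∧ (q : ℤ) ∣ (i : ℤ) - j) :
    ∑ q ∈ Q, Real.log q ≤ t * Real.log N := by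
  have h1 := prod_le_pow hS hi hQ h
  have h3 : ∀ q ∈ Q, (q : ℝ) ≠ 0 := fun q hq => by exact_mod_cast (hQ q hq).ne_zero
  have hN1 : (1 : ℝ) ≤ N := by exact_mod_cast hN
  rw [← Real.log_prod h3]
  calc Real.log (∏ q ∈ Q, (q : ℝ)) ≤ Real.log ((N : ℝ) ^ (S.card - 1)) := by
        refine Real.log_le_log (prod_pos fun q hq => by exact_mod_cast (hQ q hq).pos) ?_
        rw [← Nat.cast_prod]
        exact_mod_cast h1
    _ = (S.card - 1 : ℕ) * Real.log N := Real.log_pow _ _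
    _ ≤ t * Real.log N := by
        refine mul_le_mul_of_nonneg_right ?_ (Real.log_nonneg hN1)
        exact_mod_cast (Nat.sub_le _ _).trans hSt

theorem sum_small_le (t : ℕ) {P : Finset ℕ} (hP : ∀ q ∈ P, q.Prime ∧ q < 4 * t) :
    ∑ q ∈ P, Real.log q ≤ 6 * t := by
  have h1 : ∑ q ∈ P, Real.log q ≤ Chebyshev.theta (4 * t) := by
    unfold Chebyshev.theta
    refine sum_le_sum_of_subset_of_nonneg ?_ ?_
    · intro q hq
      rw [mem_filter, mem_Ioc]
      refine ⟨⟨(hP q hq).1.pos, Nat.le_floor ?_⟩, (hP q hq).1⟩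
      exact_mod_cast (hP q hq).2.le
    · intro q hq _
      exact Real.log_nonneg (by exact_mod_cast (mem_filter.1 hq).2.one_lt.le)
  have h2 := Chebyshev.theta_le_log4_mul_x (show (0 : ℝ) ≤ 4 * t by positivity)
  have h3 : Real.log 4 ≤ 3 / 2 := by
    rw [show (4 : ℝ) = 2 ^ 2 by norm_num, Real.log_pow]
    have := Real.log_two_lt_d9
    norm_num
    linarith
  have h4 : Real.log 4 * (4 * t) ≤ 3 / 2 * (4 * t) := mul_le_mul_of_nonneg_right h3 (by positivity)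
  linarith

theorem uni_step {l : ℕ} (hl : l.Prime) {p h F : ℤ[X]} {G : ℕ → ℤ[X]} {L : ℕ → ℕ}
    {k N t s : ℕ} (hk0 : k ≠ 0) (hk : (X - 1) ^ k ∣ p) {H : ℝ} (hH1 : 1 ≤ H)
    (hH : ∑ i ∈ p.support, |(p.coeff i : ℝ)| ≤ H) (hN : 1 ≤ N) (hF : F.natDegree ≤ N)
    (ht : ((range (N + 1)).filter fun j => ¬ (l : ℤ) ∣ F.coeff j).card ≤ t)
    (hL : ∀ i < s, 1 ≤ L i)
    (hcong : ∀ j, (l : ℤ) ∣ (p * h - F * ∏ i ∈ range s, (G i).comp (X ^ L i)).coeff j)
    (hne : ∃ j, ¬ (l : ℤ) ∣ (p * h).coeff j) {y : ℝ} (hy0 : 0 ≤ y)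
    (hy : ∀ q : ℕ, q.Prime → (q : ℝ) ≤ y → ((q : ℝ) - 1) * Real.log H < k * Real.log q) :
    1 ≤ t ∧ ∃ V : Finset ℕ, (∀ q ∈ V, q.Prime ∧ (q : ℝ) ≤ y) ∧
      ∑ q ∈ V, (q : ℝ) ≤ 2 * t * ∑ i ∈ range s, ((G i).natDegree : ℝ) ∧
      Chebyshev.theta y ≤ ∑ q ∈ V, Real.log q
        + (6 * t + t * Real.log N + Real.log ((l * ∏ i ∈ range s, L i : ℕ) : ℝ)) := by
  classical
  haveI : Fact l.Prime := ⟨hl⟩
  obtain ⟨φ, hφ⟩ : ∃ φ : ℤ →+* AlgebraicClosure (ZMod l),
    φ = Int.castRingHom (AlgebraicClosure (ZMod l)) := ⟨_, rfl⟩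
  have hφ0 : ∀ a : ℤ, φ a = 0 ↔ (l : ℤ) ∣ a := by
    intro a
    rw [hφ, eq_intCast, CharP.intCast_eq_zero_iff (AlgebraicClosure (ZMod l)) l]
  obtain ⟨F', hF'⟩ : ∃ F' : (AlgebraicClosure (ZMod l))[X], F' = F.map φ := ⟨_, rfl⟩
  obtain ⟨G', hG'⟩ : ∃ G' : ℕ → (AlgebraicClosure (ZMod l))[X], G' = fun i => (G i).map φ := ⟨_, rfl⟩
  have hco : ∀ j, F'.coeff j ≠ 0 ↔ ¬ (l : ℤ) ∣ F.coeff j := by
    intro j
    rw [hF', coeff_map, Ne, hφ0]
  have hmap : (p * h).map φ = F' * ∏ i ∈ range s, (G' i).comp (X ^ L i) := by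
    have h1 : (p * h - F * ∏ i ∈ range s, (G i).comp (X ^ L i)).map φ = 0 := by
      ext j
      rw [coeff_map, coeff_zero, hφ0]
      exact hcong j
    rw [Polynomial.map_sub, sub_eq_zero] at h1
    rw [h1, Polynomial.map_mul, Polynomial.map_prod, hF', hG']
    congr 1
    refine prod_congr rfl fun i _ => ?_
    rw [Polynomial.map_comp, Polynomial.map_pow, map_X]
  have hne' : (p * h).map φ ≠ 0 := by
    obtain ⟨j, hj⟩ := hne
    intro h0
    apply hj
    rw [← hφ0, ← coeff_map, h0, coeff_zero]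
  have hF0 : F' ≠ 0 := by
    rintro h0
    rw [hmap, h0, zero_mul] at hne'
    exact hne' rfl
  have hG0 : ∀ i < s, G' i ≠ 0 := by
    intro i hi h0
    apply hne'
    rw [hmap, prod_eq_zero (mem_range.2 hi) (by rw [h0, zero_comp]), mul_zero]
  -- the support
  have hsup : F'.support ⊆ (range (N + 1)).filter fun j => ¬ (l : ℤ) ∣ F.coeff j := by
    intro j hj
    rw [mem_support_iff] at hj
    rw [mem_filter, mem_range]
    refine ⟨?_, (hco j).1 hj⟩
    by_contra hc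
    exact (hco j).1 hj (by rw [coeff_eq_zero_of_natDegree_lt (by omega)]; exact dvd_zero _)
  have hSt : F'.support.card ≤ t := (card_le_card hsup).trans ht
  have hSN : ∀ j ∈ F'.support, j ≤ N := by
    intro j hj
    have := hsup hj
    rw [mem_filter, mem_range] at this
    omega
  obtain ⟨i0, hi0⟩ : F'.support.Nonempty := by
    rw [nonempty_iff_ne_empty, Ne, support_eq_empty]
    exact hF0
  -- the product vanishes at the roots of unity of forced order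
  have hdvd : ∀ q : ℕ, q.Prime → (q : ℝ) ≤ y → ∀ z : AlgebraicClosure (ZMod l), z ^ q = 1 →
      F'.eval z * ∏ i ∈ range s, (G' i).eval (z ^ L i) = 0 := by
    intro q hq hqy z hz
    have h1 : X ^ q - 1 ∣ (p * h).map φ := by
      have := Polynomial.map_dvd φ ((forced hq hk0 hk hH1 hH (hy q hq hqy)).mul_right h)
      simpa using this
    have h2 : ((p * h).map φ).eval z = 0 := by
      obtain ⟨A, hA⟩ := h1
      rw [hA, eval_mul, eval_sub, eval_pow, eval_X, eval_one, hz, sub_self, zero_mul]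
    rw [hmap, eval_mul, eval_prod] at h2
    simpa using h2
  obtain ⟨d, hd⟩ : ∃ d, d = l * ∏ i ∈ range s, L i := ⟨_, rfl⟩
  have hd0 : 0 < d := by
    rw [hd]
    exact Nat.mul_pos hl.pos (prod_pos fun i hi => hL i (mem_range.1 hi))
  have hroot : ∀ q : ℕ, q.Prime → ¬ q ∣ d → ∃ x : AlgebraicClosure (ZMod l), IsPrimitiveRoot x q := by
    intro q hq hqd
    haveI : NeZero (q : AlgebraicClosure (ZMod l)) := by
      refine ⟨fun h0 => hqd ?_⟩
      rw [CharP.cast_eq_zero_iff (AlgebraicClosure (ZMod l)) l] at h0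
      rcases (Nat.dvd_prime hq).1 h0 with h3 | h3
      · exact absurd h3 hl.one_lt.ne'
      · rw [← h3, hd]
        exact dvd_mul_right _ _
    exact HasEnoughRootsOfUnity.exists_primitiveRoot _ q
  have hcop : ∀ q : ℕ, q.Prime → ¬ q ∣ d → ∀ i < s, Nat.Coprime (L i) q := by
    intro q hq hqd i hi
    rw [Nat.coprime_comm, Nat.Prime.coprime_iff_not_dvd hq]
    intro h1
    apply hqd
    rw [hd]
    exact (h1.trans (dvd_prod_of_mem _ (mem_range.2 hi))).mul_left l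
  obtain ⟨V, hV⟩ : ∃ V : Finset ℕ, V = ((W d y).filter fun q => ¬ q < 4 * t).filter
    fun q => ∃ c < q, cs F' q c ≠ 0 := ⟨_, rfl⟩
  have hmV : ∀ q ∈ V, q.Prime ∧ ¬ q ∣ d ∧ (q : ℝ) ≤ y ∧ 4 * t ≤ q ∧ ∃ c < q, cs F' q c ≠ 0 := by
    intro q hq
    rw [hV, mem_filter, mem_filter, mem_W hy0] at hq
    exact ⟨hq.1.1.1, hq.1.1.2.1, hq.1.1.2.2, not_lt.1 hq.1.2, hq.2⟩
  refine ⟨le_trans (card_pos.2 ⟨i0, hi0⟩) hSt, V,
    fun q hq => ⟨(hmV q hq).1, (hmV q hq).2.2.1⟩, ?_, ?_⟩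
  · have h1 : ∑ q ∈ V, q ≤ 2 * t * ∑ i ∈ range s, (G i).natDegree := by
      calc ∑ q ∈ V, q ≤ ∑ q ∈ V, 2 * t * (Zp G' L s q).card := by
            refine sum_le_sum fun q hq => ?_
            obtain ⟨h2, h3, h4, h5, c, hc, hne2⟩ := hmV q hq
            obtain ⟨x, hx⟩ := hroot q h2 h3
            exact bad_prime h2 hx (hdvd q h2 h4) hSt h5 hc hne2
        _ = 2 * t * ∑ q ∈ V, (Zp G' L s q).card := by rw [mul_sum]
        _ ≤ 2 * t * ∑ i ∈ range s, (G' i).natDegree := by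
            refine Nat.mul_le_mul_left _ (sum_Zp_le hG0 (fun q hq => (hmV q hq).1) ?_)
            exact fun q hq => hcop q (hmV q hq).1 (hmV q hq).2.1
        _ ≤ 2 * t * ∑ i ∈ range s, (G i).natDegree := by
            refine Nat.mul_le_mul_left _ (sum_le_sum fun i _ => ?_)
            rw [hG']
            exact natDegree_map_le
    have h2 := (Nat.cast_le (α := ℝ)).2 h1
    push_cast at h2
    exact h2
  · have h1 := theta_le_W hd0 y
    have h2 := sum_filter_add_sum_filter_not (W d y) (fun q => q < 4 * t) (fun q => Real.log q)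
    have h3 := sum_filter_add_sum_filter_not ((W d y).filter fun q => ¬ q < 4 * t)
      (fun q => ∃ c < q, cs F' q c ≠ 0) (fun q => Real.log q)
    rw [← hV] at h3
    have h4 : ∑ q ∈ (W d y).filter (fun q => q < 4 * t), Real.log q ≤ 6 * t := by
      refine sum_small_le t fun q hq => ?_
      rw [mem_filter, mem_W hy0] at hq
      exact ⟨hq.1.1, hq.2⟩
    have h5 : ∑ q ∈ ((W d y).filter fun q => ¬ q < 4 * t).filter
        (fun q => ¬ ∃ c < q, cs F' q c ≠ 0), Real.log q ≤ t * Real.log N := by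
      refine log_prod_le hN hSN hSt hi0 (fun q hq => ?_) fun q hq => ?_
      · rw [mem_filter, mem_filter, mem_W hy0] at hq
        exact hq.1.1.1
      · rw [mem_filter, mem_filter, mem_W hy0] at hq
        have h6 : cs F' q (i0 % q) = 0 := by
          by_contra h7
          exact hq.2 ⟨i0 % q, Nat.mod_lt _ hq.1.1.1.pos, h7⟩
        obtain ⟨j, hj1, hj2, hj3⟩ := partner_of_cs (mem_support_iff.1 hi0) h6
        exact ⟨j, mem_support_iff.2 hj2, hj1, hj3⟩
    rw [← hd]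
    linarith

end

end Pool.Agent.H1.BL
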