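import Mathlib

/-!
A sparse polynomial which does not vanish on all the `q`-th roots of unity is nonzero at many of
them, and the class sums of its coefficients.
-/

namespace Pool.Agent.H1.BL

open Polynomial Finset

noncomputable section

variable {K : Type*} [Field K]

/-- The sum of the coefficients of `F` over the exponents congruent to `c` modulo `q`. -/
def cs (F : K[X]) (q c : ℕ) : K := ∑ j ∈ F.support.filter (fun j => j % q = c), F.coeff j

theorem eval_pow_eq (F : K[X]) {q : ℕ} (hq : 0 < q) {x : K} (hx : x ^ q = 1) (j : ℕ) :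
    F.eval (x ^ j) = ∑ c ∈ range q, cs F q c * (x ^ c) ^ j := by
  rw [eval_eq_sum, Polynomial.sum_def]
  unfold cs
  simp only [sum_mul]
  rw [← sum_fiberwise_of_maps_to (s := F.support) (t := range q) (g := fun j => j % q)
    (fun i _ => mem_range.2 (Nat.mod_lt i hq))]
  refine sum_congr rfl fun c _ => sum_congr rfl fun i hi => ?_
  rw [mem_filter] at hi
  congr 1
  rw [← hi.2, ← pow_mul, ← pow_mul, mul_comm j i]
  conv_lhs => rw [← Nat.div_add_mod i q]
  rw [add_mul, pow_add, mul_assoc, pow_mul, hx, one_pow, one_mul]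

theorem exists_window {F : K[X]} {q t : ℕ} (hq : 0 < q) {x : K} (hx : IsPrimitiveRoot x q)
    (ht : F.support.card ≤ t) {c : ℕ} (hc : c < q) (hne : cs F q c ≠ 0) (b : ℕ) :
    ∃ i < t, F.eval (x ^ (b + i)) ≠ 0 := by
  classical
  by_contra hno
  push_neg at hno
  obtain ⟨C', hC'⟩ : ∃ C' : Finset ℕ, C' = (range q).filter fun c => cs F q c ≠ 0 := ⟨_, rfl⟩
  have hcC : c ∈ C' := by
    rw [hC', mem_filter, mem_range]
    exact ⟨hc, hne⟩
  have hcard : C'.card ≤ t := by
    refine le_trans ?_ ht
    refine le_trans (card_le_card (t := F.support.image (fun j => j % q)) ?_) card_image_le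
    intro d hd
    rw [hC', mem_filter] at hd
    rw [mem_image]
    by_contra hcon
    push_neg at hcon
    apply hd.2
    unfold cs
    rw [filter_false_of_mem, sum_empty]
    exact fun j hj => hcon j hj
  obtain ⟨P, hP⟩ : ∃ P : K[X], P = ∏ d ∈ C'.erase c, (X - C (x ^ d)) := ⟨_, rfl⟩
  have hPdeg : P.natDegree < t := by
    rw [hP, natDegree_prod_of_monic _ _ (fun d _ => monic_X_sub_C _)]
    simp only [natDegree_X_sub_C, sum_const, smul_eq_mul, mul_one]
    rw [card_erase_of_mem hcC]
    have : 0 < C'.card := card_pos.2 ⟨c, hcC⟩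
    omega
  have hx1 : x ^ q = 1 := hx.pow_eq_one
  have h1 : ∑ i ∈ range t, P.coeff i * F.eval (x ^ (b + i)) = 0 :=
    sum_eq_zero fun i hi => by rw [hno i (mem_range.1 hi), mul_zero]
  have h2 : ∑ i ∈ range t, P.coeff i * F.eval (x ^ (b + i))
      = ∑ d ∈ range q, cs F q d * (x ^ d) ^ b * P.eval (x ^ d) := by
    have h3 : ∀ i ∈ range t, P.coeff i * F.eval (x ^ (b + i))
        = ∑ d ∈ range q, cs F q d * (x ^ d) ^ b * (P.coeff i * (x ^ d) ^ i) := by
      intro i _
      rw [eval_pow_eq F hq hx1, mul_sum]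
      refine sum_congr rfl fun d _ => ?_
      rw [pow_add]
      ring
    rw [sum_congr rfl h3, sum_comm]
    refine sum_congr rfl fun d _ => ?_
    rw [← mul_sum, eval_eq_sum_range' hPdeg]
  have h4 : ∑ d ∈ range q, cs F q d * (x ^ d) ^ b * P.eval (x ^ d)
      = cs F q c * (x ^ c) ^ b * P.eval (x ^ c) := by
    refine sum_eq_single_of_mem c (mem_range.2 hc) fun d hd hdc => ?_
    by_cases hd0 : cs F q d = 0
    · rw [hd0, zero_mul, zero_mul]
    · have hdC : d ∈ C'.erase c := by
        rw [mem_erase, hC', mem_filter]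
        exact ⟨hdc, hd, hd0⟩
      rw [hP, eval_prod, prod_eq_zero hdC (by simp), mul_zero]
  rw [h2, h4] at h1
  have hx0 : x ≠ 0 := hx.ne_zero hq.ne'
  have h5 : P.eval (x ^ c) ≠ 0 := by
    rw [hP, eval_prod, prod_ne_zero_iff]
    intro d hd
    rw [eval_sub, eval_X, eval_C, sub_ne_zero]
    intro h6
    rw [mem_erase, hC', mem_filter, mem_range] at hd
    exact hd.1 (hx.pow_inj hc hd.2.1 h6).symm
  exact mul_ne_zero (mul_ne_zero hne (pow_ne_zero _ (pow_ne_zero _ hx0))) h5 h1

open scoped Classical in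
theorem card_ge {F : K[X]} {q t : ℕ} (hq : 0 < q) {x : K} (hx : IsPrimitiveRoot x q)
    (ht : F.support.card ≤ t) {c : ℕ} (hc : c < q) (hne : cs F q c ≠ 0) :
    q / t ≤ ((range q).filter fun j => F.eval (x ^ j) ≠ 0).card := by
  rcases Nat.eq_zero_or_pos t with rfl | ht0
  · simp
  have h1 : range (q / t) ⊆ ((range q).filter fun j => F.eval (x ^ j) ≠ 0).image (fun j => j / t) := by
    intro w hw
    rw [mem_range] at hw
    obtain ⟨i, hi, hne'⟩ := exists_window hq hx ht hc hne (w * t)
    rw [mem_image]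
    refine ⟨w * t + i, ?_, ?_⟩
    · rw [mem_filter, mem_range]
      refine ⟨?_, hne'⟩
      have h2 : (w + 1) * t ≤ q / t * t := Nat.mul_le_mul_right t hw
      have h3 := Nat.div_mul_le_self q t
      rw [add_mul, one_mul] at h2
      omega
    · rw [add_comm, Nat.add_mul_div_right _ _ ht0, Nat.div_eq_of_lt hi, zero_add]
  have h2 := (card_le_card h1).trans card_image_le
  rwa [card_range] at h2

/-- An exponent in a class with zero class sum is not alone. -/
theorem partner_of_cs {F : K[X]} {q i : ℕ} (hi : F.coeff i ≠ 0) (h : cs F q (i % q) = 0) :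
    ∃ j, j ≠ i ∧ F.coeff j ≠ 0 ∧ (q : ℤ) ∣ (i : ℤ) - j := by
  by_contra hno
  push_neg at hno
  apply hi
  unfold cs at h
  rw [sum_eq_single_of_mem i (by rw [mem_filter]; exact ⟨mem_support_iff.2 hi, rfl⟩)] at h
  · exact h
  · intro j hj hji
    by_contra hj0
    refine hno j hji hj0 ?_
    rw [mem_filter] at hj
    have h1 : (j : ℤ) ≡ i [ZMOD q] := by
      rw [Int.natCast_modEq_iff]
      exact hj.2
    exact h1.dvd

end

end Pool.Agent.H1.BL
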